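import Pool.Agent.P.MP_52ab5a_al.A.Iface

/-! Step AFFM of the open orbit project. -/

namespace Pool.Agent.P.MP_52ab5a_al

open MvPolynomial
open WM

namespace AffmAux

variable {ι σ : Type} [Fintype ι] [Fintype σ] [DecidableEq ι] [DecidableEq σ]
  {γ : Matrix σ ι ℂ} {δ : Matrix ι σ ℂ} (a : σ → ℂ)

omit [DecidableEq σ] in
theorem comb {V : Type} [AddCommGroup V] [Module ℂ V] (h : δ * γ = 1) (A : ι → V) (t : ι) :
    ∑ s, δ t s • ∑ u, γ s u • A u = A t := by
  simp only [Finset.smul_sum, smul_smul]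
  rw [Finset.sum_comm]
  simp only [← Finset.sum_smul, ← Matrix.mul_apply, h, Matrix.one_apply, ite_smul, one_smul,
    zero_smul, Finset.sum_ite_eq, Finset.mem_univ, if_true]

omit [DecidableEq σ] in
theorem back {α : Sort*} (h : δ * γ = 1) (N : WM ι)
    (Q : (X D : ι → Module.End ℂ N.V) → α) :
    Q ((N.aff γ δ a).aff δ γ (-δ.mulVec a)).X ((N.aff γ δ a).aff δ γ (-δ.mulVec a)).D =
      Q N.X N.D := by
  congr 1
  · funext t
    simp only [smul_add, Finset.sum_add_distrib, comb h, smul_smul, ← Finset.sum_smul]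
    rw [add_assoc, ← add_smul]
    exact add_eq_left.2 (by rw [show ∑ s, δ t s * a s + (-δ.mulVec a) t = 0 from add_neg_cancel _,
      zero_smul])
  · funext t
    exact comb (γ := δ.transpose) (δ := γ.transpose)
      (by rw [← Matrix.transpose_mul, h, Matrix.transpose_one]) N.D t

omit [Fintype σ] in
theorem isW (h : γ * δ = 1) {N : WM ι} (hN : N.IsW) : (N.aff γ δ a).IsW := by
  have k : ∀ s u, (N.aff γ δ a).D s * (N.aff γ δ a).X u - (N.aff γ δ a).X u * (N.aff γ δ a).D s =
      (γ * δ) u s • (1 : Module.End ℂ N.V) := fun s u => by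
    have e : ∀ t t', N.D t * N.X t' = N.X t' * N.D t + if t = t' then 1 else 0 := fun t t' => by
      split_ifs with b
      · rw [← b, ← hN.2.2.1 t, add_sub_cancel]
      · rw [hN.2.2.2 t t' b, add_zero]
    simp only [mul_add, add_mul, mul_smul_comm, smul_mul_assoc, mul_one, one_mul, Finset.sum_mul,
      Finset.mul_sum, e, smul_add, Finset.sum_add_distrib, smul_ite, smul_zero, Finset.smul_sum,
      smul_smul, Finset.sum_ite_eq', Finset.mem_univ, if_true, Matrix.mul_apply,
      Finset.sum_smul]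
    rw [Finset.sum_comm]
    simp only [mul_comm (δ _ s)]
    abel
  have c : ∀ A : ι → Module.End ℂ N.V, (∀ s t, Commute (A s) (A t)) → ∀ p q : ι → ℂ,
      Commute (∑ t, p t • A t) (∑ t, q t • A t) := fun A hA p q =>
    Commute.sum_left _ _ _ fun s _ => Commute.sum_right _ _ _ fun t _ =>
      ((hA s t).smul_left _).smul_right _
  refine ⟨fun s t => ?_, fun s t => c _ hN.2.1 _ _, fun s => ?_, fun s t b => ?_⟩
  · exact Commute.add_left (Commute.add_right (c _ hN.1 _ _) ((Commute.one_right _).smul_right _))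
      ((Commute.one_left _).smul_left _)
  · rw [k, h, Matrix.one_apply_eq, one_smul]
  · rw [← sub_eq_zero, k, h, Matrix.one_apply_ne b.symm, zero_smul]

omit [Fintype σ] [DecidableEq ι] [DecidableEq σ] in
theorem st {N : WM ι} {B : Submodule ℂ N.V} (h : N.Stable B) : (N.aff γ δ a).Stable B :=
  fun s v hv => by
    simp only [LinearMap.add_apply, LinearMap.sum_apply, LinearMap.smul_apply]
    exact ⟨B.add_mem (B.sum_mem fun t _ => B.smul_mem _ (h t v hv).1) (B.smul_mem _ hv),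
      B.sum_mem fun t _ => B.smul_mem _ (h t v hv).2⟩

omit [Fintype σ] [DecidableEq ι] [DecidableEq σ] in
theorem piso {N N' : WM ι} {B Z : Submodule ℂ N.V} {B' Z' : Submodule ℂ N'.V}
    (h : PIso Set.univ N B Z N' B' Z') : PIso Set.univ (N.aff γ δ a) B Z (N'.aff γ δ a) B' Z' := by
  obtain ⟨f, h⟩ := h
  have k : ∀ {M : WM ι} {Y}, StOn Set.univ M Y → StOn Set.univ (M.aff γ δ a) Y := fun b =>
    (stOn_univ _ _).2 (st a ((stOn_univ _ _).1 b))
  refine ⟨f, h.le, k h.stB, k h.stZ, h.le', k h.stB', k h.stZ', h.maps, h.ker, h.onto,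
    fun s _ z hz => ?_⟩
  simp only [LinearMap.add_apply, LinearMap.sum_apply, LinearMap.smul_apply, map_add, map_sum,
    map_smul, Module.End.one_apply, add_sub_add_right_eq_sub, ← Finset.sum_sub_distrib, ← smul_sub]
  exact ⟨B'.sum_mem fun t _ => B'.smul_mem _ (h.comm t trivial z hz).1,
    B'.sum_mem fun t _ => B'.smul_mem _ (h.comm t trivial z hz).2⟩

end AffmAux

open AffmAux in
theorem p_AFFM (hPISO : S_PISO) (hHSUB : S_HSUB) :
    S_AFFM := by
  intro ι σ _ _ _ _ γ δ a h1 h2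
  have k2 : ∀ (N : WM ι) B, (N.aff γ δ a).Stable B ↔ N.Stable B := fun N B =>
    ⟨fun b => (back a h2 N fun X D => (N.ops X D).Stable B).mp
      (st (γ := δ) (δ := γ) (-δ.mulVec a) b), st a⟩
  have k4 : ∀ (N : WM ι) B Z, Hol Set.univ N B Z → Hol Set.univ (N.aff γ δ a) B Z := fun N B Z b => by
    refine (hHSUB ι Set.univ).2.2.2.2.1 σ N _ _ B Z ?_ inferInstance (isW a h1 b.1) (fun s => ⟨?_, ?_⟩) b
    · rw [Nat.card_eq_fintype_card, Nat.card_eq_fintype_card, ← Matrix.rank_one (R := ℂ), ← h2]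
      exact (Matrix.rank_mul_le_left _ _).trans (Matrix.rank_le_card_width _)
    · exact Submodule.add_mem _ (Submodule.sum_mem _ fun t _ => Submodule.smul_mem _ _
        (Submodule.subset_span (Or.inr (Or.inl ⟨t, rfl⟩))))
        (Submodule.smul_mem _ _ (Submodule.subset_span (Or.inl rfl)))
    · exact Submodule.sum_mem _ fun t _ => Submodule.smul_mem _ _
        (Submodule.subset_span (Or.inr (Or.inr ⟨t, rfl⟩)))
  have k5 : ∀ (N : WM ι) B Z (N' : WM ι) B' Z',
      PIso Set.univ (N.aff γ δ a) B Z (N'.aff γ δ a) B' Z' ↔ PIso Set.univ N B Z N' B' Z' :=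
    fun N B Z N' B' Z' => ⟨fun b =>
      (back a h2 N' fun X D => PIso Set.univ N B Z (N'.ops X D) B' Z').mp
        ((back a h2 N fun X D => PIso Set.univ (N.ops X D) B Z
          ((N'.aff γ δ a).aff δ γ (-δ.mulVec a)) B' Z').mp
            (piso (γ := δ) (δ := γ) (-δ.mulVec a) b)), piso a⟩
  refine ⟨fun N => isW a h1, k2, fun N b => ⟨isW a h1 b.1, b.2.1, fun B c => b.2.2 B ((k2 N B).1 c)⟩,
    k4, k5, fun L N B Z => ?_, fun N => back a h2 N fun X D => N.ops X D,
    fun φ hφ => ⟨fun N B Y Z b c d e => hφ.add _ B Y Z (k4 N B Z b) c d (st a e),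
      fun N B Z N' B' Z' b c d => hφ.iso _ B Z _ B' Z' (k4 N B Z b) (isW a h1 c) (piso a d)⟩⟩
  simp only [WM.mult, (hPISO ι Set.univ).2.2.2.2.2.1, (hPISO σ Set.univ).2.2.2.2.2.1, k5]

end Pool.Agent.P.MP_52ab5a_al
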