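import Pool.Agent.P.MP_52ab5a_al.A.Iface

/-! Step BERN of the open orbit project. -/

namespace Pool.Agent.P.MP_52ab5a_al

open MvPolynomial
open WM

namespace BernAux

theorem deg_pderiv {σ : Type} (f : MvPolynomial σ ℂ) (s : σ) (k : ℕ)
    (h : f.totalDegree ≤ k + 1) : (pderiv s f).totalDegree ≤ k := by
  classical
  refine Finset.sup_le fun m hm => ?_
  rw [mem_support_iff, coeff_pderiv] at hm
  have h1 := le_totalDegree (mem_support_iff.2 (left_ne_zero_of_mul hm))
  rw [Finsupp.sum_add_index' (fun _ => rfl) (fun _ _ _ => rfl),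
    Finsupp.sum_single_index rfl] at h1
  omega

theorem eq_C {σ : Type} (f : MvPolynomial σ ℂ) (h : ∀ s, pderiv s f = 0) :
    f = C (coeff 0 f) := by
  classical
  ext m
  rw [coeff_C]
  split_ifs with hm
  · rw [hm]
  · obtain ⟨s, hs⟩ : ∃ s, m s ≠ 0 := by
      by_contra hc
      push Not at hc
      exact hm (Finsupp.ext fun s => (hc s).symm)
    have h1 := coeff_pderiv (i := s) f (m - Finsupp.single s 1)
    rw [h s, coeff_zero, tsub_add_cancel_of_le
      (Finsupp.single_le_iff.2 (Nat.one_le_iff_ne_zero.2 hs))] at h1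
    exact (mul_eq_zero.1 h1.symm).resolve_right (Nat.cast_add_one_ne_zero _)

theorem key (hNORD : S_NORD) {ι : Type} [Fintype ι] (N : WM ι) (hW : N.IsW)
    (Y : Submodule ℂ N.V) (hY : N.Stable Y) (G : ℕ → Submodule ℂ N.V) (hG : Monotone G)
    (hGs : ∀ k s, ∀ v ∈ G k, N.X s v ∈ G (k + 1) ∧ N.D s v ∈ G (k + 1)) (k0 : ℕ) (v : N.V)
    (hv : v ∈ G k0) (hvY : v ∉ Y) (k : ℕ) : ∀ f : MvPolynomial (ι ⊕ ι) ℂ, f.totalDegree ≤ k →
      (∀ u ∈ G (k0 + k), nord N.X N.D f u ∈ Y) → f = 0 := by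
  obtain ⟨h1, -, -, h4, h5, -⟩ := hNORD ι N.V N.X N.D 1 ((isW_iff N).1 hW)
  have hc : ∀ a : ℂ, nord N.X N.D (C a) v ∈ Y → (C a : MvPolynomial (ι ⊕ ι) ℂ) = 0 := by
    intro a ha
    rw [← mul_one (C a), ← smul_eq_C_mul, map_smul, h1] at ha
    by_contra hne
    have ha0 : a ≠ 0 := fun h => hne (by rw [h, map_zero])
    exact hvY ((Y.smul_mem_iff ha0).1 ha)
  induction k with
  | zero =>
    intro f hf hu
    have := totalDegree_eq_zero_iff_eq_C.1 (Nat.le_zero.1 hf)
    rw [this]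
    exact hc _ (this ▸ hu v hv)
  | succ k ih =>
    intro f hf hu
    have : f = C (coeff 0 f) := by
      refine eq_C f fun s => ih _ (deg_pderiv f s k hf) fun u hu' => ?_
      have hu1 : nord N.X N.D f u ∈ Y := hu u (hG (by omega) hu')
      rcases s with s | s
      · have e := LinearMap.congr_fun (h5 s f) u
        simp only [Module.End.mul_apply, LinearMap.add_apply, one_mul] at e
        rw [← sub_eq_iff_eq_add'.2 e]
        exact Y.sub_mem (hY s _ hu1).2 (hu _ (hGs _ s u hu').2)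
      · have e := LinearMap.congr_fun (h4 s f) u
        simp only [Module.End.mul_apply, LinearMap.add_apply, one_mul] at e
        rw [← sub_eq_iff_eq_add'.2 e]
        exact Y.sub_mem (hu _ (hGs _ s u hu').1) (hY s _ hu1).1
    rw [this]
    exact hc _ (this ▸ hu v (hG (by omega) hv))

/-- Polynomials with bounded exponents. -/
noncomputable def box (σ : Type) [Fintype σ] [DecidableEq σ] (e : ℕ) :
    ((σ → Fin (e + 1)) → ℂ) →ₗ[ℂ] MvPolynomial σ ℂ :=
  ∑ α : σ → Fin (e + 1),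
    (monomial (Finsupp.equivFunOnFinite.symm fun s => (α s : ℕ))).comp (LinearMap.proj α)

theorem box_deg {σ : Type} [Fintype σ] [DecidableEq σ] (e : ℕ) (c : (σ → Fin (e + 1)) → ℂ) :
    (box σ e c).totalDegree ≤ Fintype.card σ * e := by
  rw [box, LinearMap.sum_apply]
  refine totalDegree_finsetSum_le fun α _ => (totalDegree_monomial_le _ _).trans ?_
  rw [Finsupp.sum_fintype _ _ fun _ => rfl]
  refine (Finset.sum_le_card_nsmul _ _ e fun s _ => ?_).trans (by simp)
  exact Nat.lt_succ_iff.1 (α s).2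

theorem box_inj {σ : Type} [Fintype σ] [DecidableEq σ] (e : ℕ) (c : (σ → Fin (e + 1)) → ℂ)
    (h : box σ e c = 0) : c = 0 := by
  funext α
  have := congrArg (coeff (Finsupp.equivFunOnFinite.symm fun s => (α s : ℕ))) h
  rw [box, LinearMap.sum_apply, coeff_sum, Finset.sum_eq_single α] at this
  · simpa using this
  · intro β _ hβ
    rw [LinearMap.comp_apply, coeff_monomial, if_neg]
    intro h'
    exact hβ (funext fun s => Fin.ext (congrFun (Finsupp.equivFunOnFinite.symm.injective h') s))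
  · simp

theorem stepB (hNORD : S_NORD) {ι : Type} [Fintype ι] (N : WM ι) (hW : N.IsW)
    (Y : Submodule ℂ N.V) (hY : N.Stable Y) (G : ℕ → Submodule ℂ N.V) (hG : Monotone G)
    (hGs : ∀ k s, ∀ v ∈ G k, N.X s v ∈ G (k + 1) ∧ N.D s v ∈ G (k + 1))
    (hfin : ∀ k, rk Y (G k) < Cardinal.aleph0) (e : ℕ) (v : N.V)
    (hv : v ∈ G e) (hvY : v ∉ Y) :
    (((e + 1) ^ Fintype.card ι : ℕ) : Cardinal) ≤ rk Y (G (e + 4 * Fintype.card ι * e)) := by
  classical
  obtain ⟨-, -, -, -, -, -, h7, h8⟩ := hNORD ι N.V N.X N.D 1 ((isW_iff N).1 hW)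
  set n := Fintype.card ι with hn
  set k := Fintype.card (ι ⊕ ι) * e with hk
  have hk' : k = 2 * n * e := by rw [hk, Fintype.card_sum]; ring
  set U := (G (e + k)).map Y.mkQ
  set W := (G (e + 4 * n * e)).map Y.mkQ
  have : Module.Finite ℂ U := Module.rank_lt_aleph0_iff.1 (hfin _)
  have : Module.Finite ℂ W := Module.rank_lt_aleph0_iff.1 (hfin _)
  have hUW : U ≤ W := Submodule.map_mono (hG (by nlinarith))
  let b := Module.finBasis ℂ U
  have hb : ∀ i, ∃ u ∈ G (e + k), Y.mkQ u = b i := fun i => (b i).2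
  choose u hu hub using hb
  let Ψ : ((ι ⊕ ι → Fin (e + 1)) → ℂ) →ₗ[ℂ] (Fin (Module.finrank ℂ U) → W) :=
    LinearMap.pi fun i => LinearMap.codRestrict W
      (Y.mkQ ∘ₗ LinearMap.applyₗ (u i) ∘ₗ nord N.X N.D ∘ₗ box (ι ⊕ ι) e) fun c => by
        refine Submodule.mem_map_of_mem (hG ?_ (h8 G hG hGs _ _ _ (hu i)))
        have := box_deg e c
        nlinarith
  have hΨ : Function.Injective Ψ := by
    rw [injective_iff_map_eq_zero]
    intro c hc
    refine box_inj e c (key hNORD N hW Y hY G hG hGs e v hv hvY k _ (box_deg e c) fun w hw => ?_)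
    have h0 : ∀ i, nord N.X N.D (box (ι ⊕ ι) e c) (u i) ∈ Y := fun i => by
      have := congrArg Subtype.val (congrFun hc i)
      exact (Submodule.Quotient.mk_eq_zero Y).1 this
    have h1 := congrArg Subtype.val (b.sum_repr ⟨Y.mkQ w, Submodule.mem_map_of_mem hw⟩)
    set a := b.repr ⟨Y.mkQ w, Submodule.mem_map_of_mem hw⟩
    have h2 : w - ∑ i, a i • u i ∈ Y := by
      rw [← Submodule.Quotient.mk_eq_zero, ← Submodule.mkQ_apply, map_sub, map_sum, sub_eq_zero]
      simp only [map_smul, hub]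
      simpa using h1.symm
    have h3 : w = (w - ∑ i, a i • u i) + ∑ i, a i • u i := by abel
    rw [h3, map_add, map_sum]
    refine Y.add_mem (h7 Y hY _ _ h2) (Y.sum_mem fun i _ => ?_)
    rw [map_smul]
    exact Y.smul_mem _ (h0 i)
  have h1 := LinearMap.finrank_le_finrank_of_injective hΨ
  rw [Module.finrank_fintype_fun_eq_card, Module.finrank_pi_fintype, Finset.sum_const,
    Finset.card_univ, Fintype.card_fin, smul_eq_mul, Fintype.card_fun, Fintype.card_fin,
    Fintype.card_sum, pow_add] at h1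
  have h2 := Submodule.finrank_mono hUW
  have h3 : (e + 1) ^ n ≤ Module.finrank ℂ W :=
    Nat.mul_self_le_mul_self_iff.1 (h1.trans (Nat.mul_le_mul_right _ h2))
  rw [rk, ← Module.finrank_eq_rank]
  exact_mod_cast h3

end BernAux

open BernAux in
theorem p_BERN (hNORD : S_NORD) (hRK : S_RK) (hHSUB : S_HSUB) :
    S_BERN := by
  intro ι _ N B Z ⟨hW, _, _, _, Γ, c, hm, hb, hs, hz, hr⟩
  have := Fintype.ofFinite ι
  have hn : (Set.univ : Set ι).ncard = Fintype.card ι := by
    rw [Set.ncard_univ, Nat.card_eq_fintype_card]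
  rw [hn] at hr
  set n := Fintype.card ι
  obtain ⟨r1, r2, -⟩ := hRK N.V
  refine ⟨c * (4 * n + 1) ^ n, fun m Y hY hYs => ?_⟩
  have hv : ∀ j : Fin m, ∃ v k, v ∈ Y j.succ ∧ v ∉ Y j.castSucc ∧ v ∈ Γ k := fun j => by
    obtain ⟨v, h1, h2⟩ := SetLike.exists_of_lt (hY (Fin.castSucc_lt_succ (i := j)))
    obtain ⟨k, hk⟩ := hz v ((hYs _).2.2 h1)
    exact ⟨v, k, h1, h2, hk⟩
  choose v k hv1 hv2 hv3 using hv
  set e := Finset.univ.sup k
  have hst : ∀ j : Fin m, (((e + 1) ^ n : ℕ) : Cardinal) ≤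
      rk (Y j.castSucc) (Γ (e + 4 * n * e) ⊓ Y j.succ) := fun j => by
    refine stepB hNORD N hW _ (hYs _).1 (fun k => Γ k ⊓ Y j.succ)
      (fun a b hab => inf_le_inf_right _ (hm hab)) (fun k s v hv => ?_) (fun k => ?_) e (v j)
      ⟨hm (Finset.le_sup (Finset.mem_univ j)) (hv3 j), hv1 j⟩ (hv2 j)
    · exact ⟨⟨(hs k s trivial v hv.1).1, ((hYs _).1 s v hv.2).1⟩,
        (hs k s trivial v hv.1).2, ((hYs _).1 s v hv.2).2⟩
    · exact ((r2 _ B _ _ (hYs _).2.1 inf_le_left).trans (hr k)).trans_lt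
        (Cardinal.natCast_lt_aleph0)
  have hall : ∀ j : Fin (m + 1), (((j : ℕ) * (e + 1) ^ n : ℕ) : Cardinal) ≤
      rk B (Γ (e + 4 * n * e) ⊓ Y j) := by
    intro j
    induction j using Fin.induction with
    | zero => simp
    | succ j ih =>
      rw [r1 B (Γ (e + 4 * n * e) ⊓ Y j.castSucc) _ (le_inf (hb _).1 (hYs _).2.1)
        (inf_le_inf_left _ (hY.monotone Fin.castSucc_lt_succ.le)), Fin.val_succ, Nat.succ_mul,
        Nat.cast_add]
      exact add_le_add ih ((hst j).trans (r2 _ _ _ _ inf_le_right le_rfl))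
  have h1 := (hall (Fin.last m)).trans ((r2 B B _ _ le_rfl inf_le_left).trans (hr _))
  rw [Nat.cast_le, Fin.val_last] at h1
  have h2 : (e + 4 * n * e + 1) ^ n ≤ (4 * n + 1) ^ n * (e + 1) ^ n := by
    rw [← mul_pow]
    exact Nat.pow_le_pow_left (by nlinarith) _
  refine Nat.le_of_mul_le_mul_right (h1.trans ?_) (pow_pos (Nat.succ_pos e) n)
  rw [mul_assoc c]
  exact Nat.mul_le_mul_left _ h2

end Pool.Agent.P.MP_52ab5a_al
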