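import Pool.Agent.P.MP_52ab5a_al.A.Iface

/-! Step BOXA of the open orbit project. -/

namespace Pool.Agent.P.MP_52ab5a_al

open MvPolynomial
open WM
open scoped TensorProduct

namespace BoxaAux

variable {V V' W : Type} [AddCommGroup V] [Module ℂ V] [AddCommGroup V'] [Module ℂ V']
  [AddCommGroup W] [Module ℂ W]

/-- The image of `B ⊗ W`. -/
abbrev tn (W : Type) [AddCommGroup W] [Module ℂ W] (B : Submodule ℂ V) : Submodule ℂ (V ⊗[ℂ] W) :=
  LinearMap.range (B.subtype.rTensor W)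

open Classical in
/-- Coordinates with respect to a basis of the second factor. -/
noncomputable def co (W : Type) [AddCommGroup W] [Module ℂ W] (V : Type) [AddCommGroup V]
    [Module ℂ V] : V ⊗[ℂ] W ≃ₗ[ℂ] (Module.Basis.ofVectorSpaceIndex ℂ W →₀ V) :=
  TensorProduct.equivFinsuppOfBasisRight (Module.Basis.ofVectorSpace ℂ W)

theorem co_r (f : V →ₗ[ℂ] V') (x : V ⊗[ℂ] W) (i) : co W V' (f.rTensor W x) i = f (co W V x i) := by
  induction x with
  | zero => simp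
  | tmul v w => simp [co]
  | add x y hx hy => simp [hx, hy]

theorem tmul_mem {B : Submodule ℂ V} {v : V} (hv : v ∈ B) (w : W) : v ⊗ₜ[ℂ] w ∈ tn W B :=
  ⟨⟨v, hv⟩ ⊗ₜ w, rfl⟩

theorem mem_tn {B : Submodule ℂ V} {x : V ⊗[ℂ] W} : x ∈ tn W B ↔ ∀ i, co W V x i ∈ B := by
  classical
  constructor
  · rintro ⟨y, rfl⟩ i
    rw [co_r]
    exact (co W B y i).2
  · intro h
    obtain ⟨c, rfl⟩ := (co W V).symm.surjective x
    simp only [LinearEquiv.apply_symm_apply] at h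
    rw [co, TensorProduct.equivFinsuppOfBasisRight_symm_apply]
    exact Submodule.sum_mem _ fun i _ => tmul_mem (h i) _

theorem map_mem {Z : Submodule ℂ V} {B : Submodule ℂ V'} {f : V →ₗ[ℂ] V'} (h : ∀ z ∈ Z, f z ∈ B)
    {x : V ⊗[ℂ] W} (hx : x ∈ tn W Z) : f.rTensor W x ∈ tn W B :=
  mem_tn.2 fun i => by rw [co_r]; exact h _ (mem_tn.1 hx i)

theorem tn_mono {B Z : Submodule ℂ V} (h : B ≤ Z) : tn W B ≤ tn W Z :=
  fun _ hx => mem_tn.2 fun i => h (mem_tn.1 hx i)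

theorem lt_rt (f : V →ₗ[ℂ] V') (g : W →ₗ[ℂ] W) (x : V ⊗[ℂ] W) :
    f.rTensor W (g.lTensor V x) = g.lTensor V' (f.rTensor W x) := by
  induction x with
  | zero => simp
  | tmul v w => simp
  | add x y hx hy => simp [hx, hy]

theorem lt_mem {B : Submodule ℂ V} (g : W →ₗ[ℂ] W) {x : V ⊗[ℂ] W} (hx : x ∈ tn W B) :
    g.lTensor V x ∈ tn W B := by
  obtain ⟨y, rfl⟩ := hx
  exact ⟨g.lTensor B y, lt_rt _ _ _⟩

theorem tn_bot : tn W (⊥ : Submodule ℂ V) = ⊥ := by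
  refine eq_bot_iff.2 fun x hx => (co W V).injective (Finsupp.ext fun i => ?_)
  simpa using mem_tn.1 hx i

theorem tn_top : tn W (⊤ : Submodule ℂ V) = ⊤ :=
  eq_top_iff.2 fun _ _ => mem_tn.2 fun _ => trivial

theorem tn_onto {Z : Submodule ℂ V} {B Z' : Submodule ℂ V'} {f : V →ₗ[ℂ] V'}
    (h : Z' ≤ Z.map f ⊔ B) : tn W Z' ≤ (tn W Z).map (f.rTensor W) ⊔ tn W B := by
  rintro _ ⟨y, rfl⟩
  induction y with
  | zero => simp
  | tmul v w =>
    obtain ⟨_, ⟨z, hz, rfl⟩, b, hb, e⟩ := Submodule.mem_sup.1 (h v.2)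
    refine Submodule.mem_sup.2 ⟨_, ⟨_, tmul_mem hz w, rfl⟩, _, tmul_mem hb w, ?_⟩
    simp [← e, TensorProduct.add_tmul]
  | add x y hx hy => rw [map_add]; exact add_mem hx hy

variable {ι σ : Type}

theorem st_box {M : WM ι} (N : WM σ) {B : Submodule ℂ M.V} (h : StOn Set.univ M B) :
    StOn Set.univ (M.box N) (tn N.V B) := by
  rintro (s | s) _ v hv
  · exact ⟨map_mem (fun z hz => (h s trivial z hz).1) hv, map_mem (fun z hz => (h s trivial z hz).2) hv⟩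
  · exact ⟨lt_mem _ hv, lt_mem _ hv⟩

theorem piso_box {M M' : WM ι} (N : WM σ) {B Z : Submodule ℂ M.V} {B' Z' : Submodule ℂ M'.V}
    (h : PIso Set.univ M B Z M' B' Z') :
    PIso Set.univ (M.box N) (tn N.V B) (tn N.V Z) (M'.box N) (tn N.V B') (tn N.V Z') := by
  obtain ⟨f, h⟩ := h
  refine ⟨f.rTensor N.V, tn_mono h.le, st_box N h.stB, st_box N h.stZ, tn_mono h.le',
    st_box N h.stB', st_box N h.stZ', fun z hz => map_mem h.maps hz, fun z hz => ?_,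
    tn_onto h.onto, ?_⟩
  · rw [mem_tn, mem_tn]
    exact forall_congr' fun i => by rw [co_r]; exact h.ker _ (mem_tn.1 hz i)
  · have key : ∀ (T : Module.End ℂ M.V) (T' : Module.End ℂ M'.V),
        (∀ z ∈ Z, f (T z) - T' (f z) ∈ B') → ∀ z ∈ tn N.V Z,
        f.rTensor N.V (T.rTensor N.V z) - T'.rTensor N.V (f.rTensor N.V z) ∈ tn N.V B' := by
      intro T T' hT z hz
      refine mem_tn.2 fun i => ?_
      rw [map_sub, Finsupp.sub_apply, co_r, co_r, co_r, co_r]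
      exact hT _ (mem_tn.1 hz i)
    rintro (s | s) _ z hz
    · exact ⟨key _ _ (fun y hy => (h.comm s trivial y hy).1) z hz,
        key _ _ (fun y hy => (h.comm s trivial y hy).2) z hz⟩
    · exact ⟨(sub_eq_zero.2 (lt_rt f (N.X s) z)).symm ▸ zero_mem _,
        (sub_eq_zero.2 (lt_rt f (N.D s) z)).symm ▸ zero_mem _⟩

end BoxaAux

open BoxaAux

theorem p_BOXA (hPISO : S_PISO) (hHSUB : S_HSUB) (hBOXH : S_BOXH) :
    S_BOXA := by
  intro ι σ _ _ φ N hφ hN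
  have hol : ∀ (M : WM ι) B Z, Hol Set.univ M B Z →
      Hol Set.univ (M.box N) (tn N.V B) (tn N.V Z) := by
    intro M B Z h
    obtain ⟨M₀, hW, hi⟩ := (hPISO ι Set.univ).2.2.2.2.2.2.1 M B Z h.1 h.2.1
      ((stOn_univ M B).1 h.2.2.1) ((stOn_univ M Z).1 h.2.2.2.1)
    have h0 : M₀.Holo := (hHSUB ι Set.univ).2.1 M B Z M₀ ⊥ ⊤ h hW hi
    have h1 := (hBOXH ι σ M₀ N).2.1 h0 hN
    have h2 := piso_box N ((hPISO ι Set.univ).2.1 _ _ _ _ _ _ hi)
    rw [tn_bot, tn_top] at h2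
    exact (hHSUB _ Set.univ).2.1 _ _ _ _ _ _ h1 ((hBOXH ι σ M N).1 h.1 hN.1) h2
  refine ⟨fun M B Y Z h hB hZ hY => ?_, fun M B Z M' B' Z' h hW hi => ?_⟩
  · exact hφ.add (M.box N) _ _ _ (hol M B Z h) (tn_mono hB) (tn_mono hZ)
      ((stOn_univ _ _).1 (st_box N ((stOn_univ M Y).2 hY)))
  · exact hφ.iso _ _ _ _ _ _ (hol M B Z h) ((hBOXH ι σ M' N).1 hW hN.1) (piso_box N hi)

end Pool.Agent.P.MP_52ab5a_al
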