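import Pool.Agent.P.MP_52ab5a_al.A.Iface

/-! Step BOXH of the open orbit project. -/

namespace Pool.Agent.P.MP_52ab5a_al

open MvPolynomial
open WM

namespace BoxhAux

open TensorProduct

variable {ι σ : Type}

theorem rk_bot {V : Type} [AddCommGroup V] [Module ℂ V] (Y : Submodule ℂ V) :
    rk ⊥ Y = Module.rank ℂ Y := by
  unfold rk
  refine (Submodule.equivMapOfInjective _ ?_ Y).rank_eq.symm
  rw [← LinearMap.ker_eq_bot, Submodule.ker_mkQ]

theorem rl {V W : Type} [AddCommGroup V] [Module ℂ V] [AddCommGroup W] [Module ℂ W]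
    (A : Module.End ℂ V) (B : Module.End ℂ W) :
    (A.rTensor W : Module.End ℂ (V ⊗[ℂ] W)) * B.lTensor V = B.lTensor V * A.rTensor W := by
  refine TensorProduct.ext' fun x y => ?_
  simp

theorem isW (M : WM ι) (N : WM σ) (hM : M.IsW) (hN : N.IsW) : (M.box N).IsW := by
  obtain ⟨a1, a2, a3, a4⟩ := hM
  obtain ⟨b1, b2, b3, b4⟩ := hN
  refine ⟨?_, ?_, ?_, ?_⟩
  · rintro (s | s) (t | t)
    · simp only [Sum.elim_inl, ← LinearMap.rTensor_mul, a1 s t]
    · exact rl _ _
    · exact (rl _ _).symm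
    · simp only [Sum.elim_inr, ← LinearMap.lTensor_mul, b1 s t]
  · rintro (s | s) (t | t)
    · simp only [Sum.elim_inl, ← LinearMap.rTensor_mul, a2 s t]
    · exact rl _ _
    · exact (rl _ _).symm
    · simp only [Sum.elim_inr, ← LinearMap.lTensor_mul, b2 s t]
  · rintro (s | s)
    · simp only [Sum.elim_inl, ← LinearMap.rTensor_mul, ← LinearMap.rTensor_sub, a3 s]
      exact LinearMap.rTensor_id _ _
    · simp only [Sum.elim_inr, ← LinearMap.lTensor_mul, ← LinearMap.lTensor_sub, b3 s]
      exact LinearMap.lTensor_id _ _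
  · rintro (s | s) (t | t) h
    · simp only [Sum.elim_inl, ← LinearMap.rTensor_mul, a4 s t fun e => h (congrArg _ e)]
    · exact rl _ _
    · exact (rl _ _).symm
    · simp only [Sum.elim_inr, ← LinearMap.lTensor_mul, b4 s t fun e => h (congrArg _ e)]

theorem step {V W : Type} [AddCommGroup V] [Module ℂ V] [AddCommGroup W] [Module ℂ W]
    {p p' : Submodule ℂ V} {q q' : Submodule ℂ W} (A : Module.End ℂ V) (B : Module.End ℂ W)
    (hA : ∀ v ∈ p, A v ∈ p') (hB : ∀ v ∈ q, B v ∈ q') :
    ∀ z ∈ Submodule.map₂ (TensorProduct.mk ℂ V W) p q,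
      TensorProduct.map A B z ∈ Submodule.map₂ (TensorProduct.mk ℂ V W) p' q' := by
  have : Submodule.map₂ (TensorProduct.mk ℂ V W) p q ≤
      (Submodule.map₂ (TensorProduct.mk ℂ V W) p' q').comap (TensorProduct.map A B) := by
    rw [Submodule.map₂_le]
    intro v hv w hw
    simpa using Submodule.apply_mem_map₂ (TensorProduct.mk ℂ V W) (hA v hv) (hB w hw)
  exact fun z hz => this hz

theorem holo [Finite ι] [Finite σ] (M : WM ι) (N : WM σ) (hM : M.Holo) (hN : N.Holo) :
    (M.box N).Holo := by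
  obtain ⟨wM, -, -, -, Γ, c, m1, -, s1, e1, r1⟩ := hM
  obtain ⟨wN, -, -, -, Δ, d, m2, -, s2, e2, r2⟩ := hN
  refine ⟨isW M N wM wN, bot_le, ?_, fun _ _ _ _ => ⟨trivial, trivial⟩,
    fun k => Submodule.map₂ (TensorProduct.mk ℂ M.V N.V) (Γ k) (Δ k), c * d,
    fun j k h => Submodule.map₂_le_map₂ (m1 h) (m2 h), fun _ => ⟨bot_le, le_top⟩, ?_, ?_, ?_⟩
  · intro s _ v hv
    rw [Submodule.mem_bot] at hv
    subst hv
    simp
  · rintro k (s | s) - v hv
    · exact ⟨step (M.X s) LinearMap.id (fun v hv => (s1 k s trivial v hv).1)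
        (fun v hv => m2 (Nat.le_succ k) hv) v hv,
        step (M.D s) LinearMap.id (fun v hv => (s1 k s trivial v hv).2)
        (fun v hv => m2 (Nat.le_succ k) hv) v hv⟩
    · exact ⟨step LinearMap.id (N.X s) (fun v hv => m1 (Nat.le_succ k) hv)
        (fun v hv => (s2 k s trivial v hv).1) v hv,
        step LinearMap.id (N.D s) (fun v hv => m1 (Nat.le_succ k) hv)
        (fun v hv => (s2 k s trivial v hv).2) v hv⟩
  · rintro z -
    induction z using TensorProduct.induction_on with
    | zero => exact ⟨0, Submodule.zero_mem _⟩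
    | tmul x y =>
      obtain ⟨j, hj⟩ := e1 x trivial
      obtain ⟨k, hk⟩ := e2 y trivial
      exact ⟨max j k, Submodule.apply_mem_map₂ (TensorProduct.mk ℂ M.V N.V)
        (m1 (le_max_left _ _) hj) (m2 (le_max_right _ _) hk)⟩
    | add x y hx hy =>
      obtain ⟨j, hj⟩ := hx
      obtain ⟨k, hk⟩ := hy
      exact ⟨max j k, Submodule.add_mem _
        (Submodule.map₂_le_map₂ (m1 (le_max_left _ _)) (m2 (le_max_left _ _)) hj)
        (Submodule.map₂_le_map₂ (m1 (le_max_right _ _)) (m2 (le_max_right _ _)) hk)⟩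
  · intro k
    have a := r1 k
    have b := r2 k
    rw [rk_bot] at a b ⊢
    have e := TensorProduct.range_mapIncl (Γ k) (Δ k)
    refine ((LinearEquiv.ofEq _ _ e).rank_eq.symm.le).trans ?_
    refine (LinearMap.rank_le_domain _).trans ?_
    rw [rank_tensorProduct']
    refine (mul_le_mul' a b).trans (le_of_eq ?_)
    rw [← Nat.cast_mul, Set.ncard_univ, Set.ncard_univ, Set.ncard_univ, Nat.card_sum, pow_add]
    congr 1
    ring

theorem iso_of {τ : Type} {L L' : WM τ} (f : L.V →ₗ[ℂ] L'.V) (hf : Function.Bijective f)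
    (h : ∀ s z, f (L.X s z) = L'.X s (f z) ∧ f (L.D s z) = L'.D s (f z)) : Iso L L' := by
  have b : ∀ K : WM τ, StOn Set.univ K ⊥ := by
    intro K s _ v hv
    rw [Submodule.mem_bot] at hv
    subst hv
    simp
  refine ⟨f, bot_le, b _, fun _ _ _ _ => ⟨trivial, trivial⟩, bot_le, b _,
    fun _ _ _ _ => ⟨trivial, trivial⟩, fun _ _ => trivial, fun z _ => ?_, ?_, fun s _ z _ => ?_⟩
  · simp only [Submodule.mem_bot]
    exact (LinearMap.map_eq_zero_iff f hf.1)
  · intro z _
    obtain ⟨y, rfl⟩ := hf.2 z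
    exact Submodule.mem_sup_left ⟨y, trivial, rfl⟩
  · simp [(h s z).1, (h s z).2]

theorem of_iso {τ : Type} {L L' : WM τ} (h : Iso L L') : ∃ f : L.V ≃ₗ[ℂ] L'.V,
    ∀ s, f.toLinearMap ∘ₗ L.X s = L'.X s ∘ₗ f.toLinearMap ∧
      f.toLinearMap ∘ₗ L.D s = L'.D s ∘ₗ f.toLinearMap := by
  obtain ⟨f, hf⟩ := h
  have hb : Function.Bijective f := by
    constructor
    · rw [← LinearMap.ker_eq_bot, eq_bot_iff]
      intro z hz
      exact (hf.ker z trivial).1 (by simpa using hz)
    · intro z
      have := hf.onto (Submodule.mem_top (x := z))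
      rw [sup_bot_eq] at this
      obtain ⟨y, -, rfl⟩ := this
      exact ⟨y, rfl⟩
  refine ⟨LinearEquiv.ofBijective f hb, fun s => ⟨?_, ?_⟩⟩
  · ext z
    simpa [sub_eq_zero] using (hf.comm s trivial z trivial).1
  · ext z
    simpa [sub_eq_zero] using (hf.comm s trivial z trivial).2

end BoxhAux

open BoxhAux in
theorem p_BOXH :
    S_BOXH := by
  intro ι σ _ _ M N
  refine ⟨isW M N, holo M N, ?_, ?_⟩
  · refine iso_of (L := (M.box N).res Sum.swap) (L' := N.box M)
      (TensorProduct.comm ℂ M.V N.V).toLinearMap (TensorProduct.comm ℂ M.V N.V).bijective ?_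
    intro s z
    induction z using TensorProduct.induction_on with
    | zero => simp
    | tmul x y => rcases s with s | s <;> simp
    | add x y hx hy => simp only [map_add, hx.1, hx.2, hy.1, hy.2, and_self]
  · intro M' N' h1 h2
    obtain ⟨f, hf⟩ := of_iso h1
    obtain ⟨g, hg⟩ := of_iso h2
    refine iso_of (L := M.box N) (L' := M'.box N')
      (TensorProduct.congr f g).toLinearMap (TensorProduct.congr f g).bijective ?_
    intro s z
    induction z using TensorProduct.induction_on with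
    | zero => simp
    | tmul x y =>
      rcases s with s | s
      · have a := LinearMap.congr_fun (hf s).1 x
        have b := LinearMap.congr_fun (hf s).2 x
        simp only [LinearMap.comp_apply, LinearEquiv.coe_coe] at a b
        simp [a, b]
      · have a := LinearMap.congr_fun (hg s).1 y
        have b := LinearMap.congr_fun (hg s).2 y
        simp only [LinearMap.comp_apply, LinearEquiv.coe_coe] at a b
        simp [a, b]
    | add x y hx hy => simp only [map_add, hx.1, hx.2, hy.1, hy.2, and_self]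

end Pool.Agent.P.MP_52ab5a_al
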