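import Pool.Agent.P.MP_52ab5a_al.A.Iface

/-! Step BOXM of the open orbit project. -/

namespace Pool.Agent.P.MP_52ab5a_al

open MvPolynomial
open WM

namespace BoxmAux

theorem range_bot {V W : Type} [AddCommGroup V] [Module ℂ V] [AddCommGroup W] [Module ℂ W] :
    LinearMap.range ((⊥ : Submodule ℂ V).subtype.rTensor W) = ⊥ := by
  have : (⊥ : Submodule ℂ V).subtype = 0 := by
    ext ⟨v, hv⟩
    simpa using hv
  rw [this, LinearMap.rTensor_zero, LinearMap.range_zero]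

theorem range_top {V W : Type} [AddCommGroup V] [Module ℂ V] [AddCommGroup W] [Module ℂ W] :
    LinearMap.range ((⊤ : Submodule ℂ V).subtype.rTensor W) = ⊤ :=
  LinearMap.range_eq_top.2 (LinearMap.rTensor_surjective W fun v => ⟨⟨v, trivial⟩, rfl⟩)

theorem first (hDEC : S_DEC) (hBOXA : S_BOXA) {ι σ : Type} [Finite ι] [Finite σ]
    (φ : Fn (ι ⊕ σ)) (hφ : Additive φ) (φ₁ : Fn ι) (h₁ : Additive φ₁) (N : WM σ) (hN : N.Holo)
    (k : ℤ) (h : ∀ L : WM ι, L.Simple → L.Holo → φ (L.box N) ⊥ ⊤ = φ₁ L ⊥ ⊤ * k)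
    (M : WM ι) (hM : M.Holo) : φ (M.box N) ⊥ ⊤ = φ₁ M ⊥ ⊤ * k := by
  have hψ : Additive (fun (M : WM ι) B Z => φ₁ M B Z * k) :=
    ⟨fun K B Y Z a b c d => by rw [h₁.add K B Y Z a b c d, add_mul],
      fun K B Z K' B' Z' a b c => by rw [h₁.iso K B Z K' B' Z' a b c]⟩
  have := (hDEC ι).2 _ _ (hBOXA ι σ φ N hφ hN) hψ (fun L a b => by
    have := h L a b
    rw [← this]
    congr 1
    · exact range_bot
    · exact range_top) M ⊥ ⊤ hM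
  rw [← this]
  congr 1
  · exact range_bot.symm
  · exact range_top.symm

theorem second (hDEC : S_DEC) (hRESM : S_RESM) (hBOXH : S_BOXH) (hBOXA : S_BOXA) {ι σ : Type}
    [Finite ι] [Finite σ]
    (φ : Fn (ι ⊕ σ)) (hφ : Additive φ) (φ₂ : Fn σ) (h₂ : Additive φ₂) (M : WM ι) (hM : M.Holo)
    (k : ℤ) (h : ∀ L : WM σ, L.Simple → L.Holo → φ (M.box L) ⊥ ⊤ = φ₂ L ⊥ ⊤ * k)
    (N : WM σ) (hN : N.Holo) : φ (M.box N) ⊥ ⊤ = φ₂ N ⊥ ⊤ * k := by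
  have hsw : ∀ L : WM σ, L.Holo →
      φ ((L.box M).res (Equiv.sumComm ι σ)) ⊥ ⊤ = φ (M.box L) ⊥ ⊤ := fun L hL =>
    hφ.iso _ _ _ _ _ _
      ((hRESM _ _ (Equiv.sumComm ι σ)).2.2.2.1 (L.box M) ⊥ ⊤ ((hBOXH σ ι L M).2.1 hL hM))
      ((hBOXH ι σ M L).1 hM.1 hL.1) (hBOXH σ ι L M).2.2.1
  rw [← hsw N hN]
  exact first hDEC hBOXA (fun K B Z => φ (K.res (Equiv.sumComm ι σ)) B Z)
    ((hRESM _ _ (Equiv.sumComm ι σ)).2.2.2.2.2.2 φ hφ) φ₂ h₂ M hM k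
    (fun L a b => (hsw L b).trans (h L a b)) N hN

open Classical in
theorem mult_simple (hPISO : S_PISO) (hMULT : S_MULT) {ι : Type} [Finite ι] (L L' : WM ι)
    (hL : L.Simple) (hL' : L'.Simple) : L.mult L' ⊥ ⊤ = if Iso L' L then 1 else 0 := by
  have hsp := ((hPISO ι Set.univ).2.2.2.2.2.2.2.2 L').1 hL'
  have h := (hMULT ι L hL).2.1 L' ⊥ ⊤ hsp.2
  have e : L.IsFactor L' ⊥ ⊤ ↔ Iso L' L := (hPISO ι Set.univ).2.2.2.2.2.1 L L' ⊥ ⊤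
  split_ifs with hi
  · exact h.1 (e.2 hi)
  · exact h.2 fun hf => hi (e.1 hf)

end BoxmAux

open BoxmAux in
theorem p_BOXM (hPISO : S_PISO) (hHSUB : S_HSUB) (hMULT : S_MULT) (hDEC : S_DEC) (hRESM : S_RESM) (hBOXH : S_BOXH) (hBOXA : S_BOXA) (hBOXS : S_BOXS) :
    S_BOXM := by
  intro ι σ _ _ M N hM hMh hN hNh M' N' hM' hN'
  have hS := (hBOXS ι σ M N hM hMh hN hNh).1
  have hφ := (hMULT _ _ hS).1
  refine first hDEC hBOXA _ hφ _ (hMULT _ _ hM).1 N' hN' _ (fun K hK hKh => ?_) M' hM'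
  rw [mul_comm]
  refine second hDEC hRESM hBOXH hBOXA _ hφ _ (hMULT _ _ hN).1 K hKh _ (fun L hL hLh => ?_) N' hN'
  obtain ⟨hS', hI⟩ := hBOXS ι σ K L hK hKh hL hLh
  rw [mult_simple hPISO hMULT _ _ hS hS', mult_simple hPISO hMULT _ _ hM hK,
    mult_simple hPISO hMULT _ _ hN hL]
  by_cases h : Iso (K.box L) (M.box N)
  · obtain ⟨h1, h2⟩ := hI M N hM hMh hN hNh h
    simp [h, h1, h2]
  · by_cases h1 : Iso K M
    · by_cases h2 : Iso L N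
      · exact absurd ((hBOXH ι σ K L).2.2.2 M N h1 h2) h
      · simp [h, h2]
    · simp [h, h1]

end Pool.Agent.P.MP_52ab5a_al
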