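import Pool.Agent.P.MP_52ab5a_al.A.Iface

/-! Step BOXP of the open orbit project. -/

namespace Pool.Agent.P.MP_52ab5a_al

open MvPolynomial
open WM

namespace BoxpAux

open TensorProduct

section Tens

variable {V : Type} [AddCommGroup V] [Module ℂ V] (W : Type) [AddCommGroup W] [Module ℂ W]

/-- The image of `B ⊗ W` in `V ⊗ W`. -/
noncomputable abbrev tens (B : Submodule ℂ V) : Submodule ℂ (V ⊗[ℂ] W) :=
  LinearMap.range (B.subtype.rTensor W)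

variable {W}

theorem tmul_mem {B : Submodule ℂ V} {v : V} (hv : v ∈ B) (w : W) : v ⊗ₜ[ℂ] w ∈ tens W B :=
  ⟨(⟨v, hv⟩ : B) ⊗ₜ[ℂ] w, by simp⟩

theorem tens_le {B : Submodule ℂ V} {P : Submodule ℂ (V ⊗[ℂ] W)}
    (h : ∀ v ∈ B, ∀ w : W, v ⊗ₜ[ℂ] w ∈ P) : tens W B ≤ P := by
  rintro _ ⟨x, rfl⟩
  induction x using TensorProduct.induction_on with
  | zero => simp
  | tmul a w => simpa using h a a.2 w
  | add x y hx hy => rw [map_add]; exact P.add_mem hx hy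

theorem tens_bot : tens W (⊥ : Submodule ℂ V) = ⊥ :=
  le_bot_iff.1 (tens_le fun v hv w => by
    rw [Submodule.mem_bot] at hv; subst hv; simp)

theorem tens_top : tens W (⊤ : Submodule ℂ V) = ⊤ := by
  refine top_le_iff.1 fun x _ => ?_
  induction x using TensorProduct.induction_on with
  | zero => exact Submodule.zero_mem _
  | tmul a w => exact tmul_mem Submodule.mem_top w
  | add x y hx hy => exact Submodule.add_mem _ (hx trivial) (hy trivial)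

theorem tens_ker (B : Submodule ℂ V) : tens W B = LinearMap.ker (B.mkQ.rTensor W) :=
  (rTensor_mkQ W B).symm

theorem tens_sup (B Z : Submodule ℂ V) (T : Module.End ℂ V) :
    tens W B ⊔ (tens W Z).map (T.rTensor W) = tens W (B ⊔ Z.map T) := by
  refine le_antisymm (sup_le (tens_le fun v hv w => tmul_mem (Submodule.mem_sup_left hv) w) ?_)
    (tens_le fun v hv w => ?_)
  · rw [Submodule.map_le_iff_le_comap]
    refine tens_le fun v hv w => ?_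
    rw [Submodule.mem_comap, LinearMap.rTensor_tmul]
    exact tmul_mem (Submodule.mem_sup_right (Submodule.mem_map_of_mem hv)) w
  · obtain ⟨b, hb, _, ⟨z, hz, rfl⟩, rfl⟩ := Submodule.mem_sup.1 hv
    rw [TensorProduct.add_tmul]
    refine Submodule.add_mem _ (Submodule.mem_sup_left (tmul_mem hb w))
      (Submodule.mem_sup_right ⟨z ⊗ₜ[ℂ] w, tmul_mem hz w, ?_⟩)
    simp

theorem mem_tens {κ : Type} [DecidableEq κ] (b : Module.Basis κ ℂ W) (B : Submodule ℂ V)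
    (x : V ⊗[ℂ] W) :
    x ∈ tens W B ↔ ∀ i, TensorProduct.equivFinsuppOfBasisRight b x i ∈ B := by
  constructor
  · rintro ⟨y, rfl⟩ i
    induction y using TensorProduct.induction_on with
    | zero => simp
    | tmul a w =>
      rw [LinearMap.rTensor_tmul, TensorProduct.equivFinsuppOfBasisRight_apply_tmul_apply]
      exact B.smul_mem _ a.2
    | add x y hx hy =>
      rw [map_add, map_add, Finsupp.add_apply]; exact B.add_mem hx hy
  · intro h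
    rw [← (TensorProduct.equivFinsuppOfBasisRight b).symm_apply_apply x,
      TensorProduct.equivFinsuppOfBasisRight_symm_apply]
    exact Submodule.sum_mem _ fun i _ => tmul_mem (h i) _

theorem coord_rTensor {κ : Type} [DecidableEq κ] (b : Module.Basis κ ℂ W) (T : Module.End ℂ V)
    (x : V ⊗[ℂ] W) (i : κ) :
    TensorProduct.equivFinsuppOfBasisRight b (T.rTensor W x) i =
      T (TensorProduct.equivFinsuppOfBasisRight b x i) := by
  induction x using TensorProduct.induction_on with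
  | zero => simp
  | tmul a w =>
    rw [LinearMap.rTensor_tmul, TensorProduct.equivFinsuppOfBasisRight_apply_tmul_apply,
      TensorProduct.equivFinsuppOfBasisRight_apply_tmul_apply, map_smul]
  | add x y hx hy => simp only [map_add, Finsupp.add_apply, hx, hy]

theorem tens_inf (B Z : Submodule ℂ V) (T : Module.End ℂ V) :
    tens W Z ⊓ (tens W B).comap (T.rTensor W) = tens W (Z ⊓ B.comap T) := by
  classical
  let b := Module.Basis.ofVectorSpace ℂ W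
  ext x
  simp only [Submodule.mem_inf, Submodule.mem_comap, mem_tens b, coord_rTensor, forall_and]

end Tens

theorem ops_congr {κ σ : Type} (φ : Fn σ) (P : WM κ) {X₁ X₂ D₁ D₂ : σ → Module.End ℂ P.V}
    (hX : X₁ = X₂) (hD : D₁ = D₂) (B Z : Submodule ℂ P.V) :
    φ (P.ops X₁ D₁) B Z = φ (P.ops X₂ D₂) B Z := by
  subst hX hD; rfl

theorem iter_box (hPISO : S_PISO) (hHSUB : S_HSUB) (hRED : S_RED) (hBOXA : S_BOXA)
    {σ₁ σ₂ ι₁ : Type} [Finite ι₁] [Finite σ₂] {r₁ : σ₁ → ι₁} {φ : Fn (σ₁ ⊕ σ₂)} {φ₁ : Fn σ₁}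
    {φ₂ : Fn σ₂} (hr : Function.Injective r₁) (hφ : Additive φ) (hφ₁ : Additive φ₁)
    (hp : ProdType φ φ₁ φ₂) (M : WM ι₁) (N : WM σ₂) (hN : N.Holo) (l : List ι₁) :
    l.Nodup → (∀ t ∈ l, t ∉ Set.range r₁) → ∀ B Z : Submodule ℂ M.V,
      Hol (Set.range r₁ ∪ {t | t ∈ l}) M B Z →
      iter φ ((M.box N).res (Sum.map r₁ id)) ((l.map Sum.inl).map (M.box N).D)
        (tens N.V B) (tens N.V Z) = iter φ₁ (M.res r₁) (l.map M.D) B Z * φ₂ N ⊥ ⊤ := by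
  haveI : Finite σ₁ := Finite.of_injective r₁ hr
  induction l with
  | nil =>
    intro _ _ B Z h
    have h1 : Hol Set.univ (M.res r₁) B Z := by
      refine ((hHSUB ι₁ Set.univ).2.2.2.1 σ₁ r₁ Set.univ M B Z hr h.1).1 ?_
      simpa using h
    obtain ⟨M₀, hW, hI⟩ := (hPISO σ₁ Set.univ).2.2.2.2.2.2.1 (M.res r₁) B Z h1.1 h1.2.1
      ((stOn_univ _ _).1 h1.2.2.1) ((stOn_univ _ _).1 h1.2.2.2.1)
    have h0 : M₀.Holo := (hHSUB σ₁ Set.univ).2.1 _ _ _ _ _ _ h1 hW hI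
    have e1 := hφ₁.iso _ _ _ _ _ _ h1 hW hI
    have e2 := (hBOXA σ₁ σ₂ φ N hφ hN).iso _ _ _ _ _ _ h1 hW hI
    have e3 := hp M₀ N h0 hN
    have e4 : φ (M₀.box N) (tens N.V ⊥) (tens N.V ⊤) = φ (M₀.box N) ⊥ ⊤ := by
      rw [tens_bot, tens_top]
    show φ _ _ _ = φ₁ _ _ _ * _
    rw [e1, ← e3, ← e4]
    refine Eq.trans ?_ e2
    exact ops_congr φ (M.box N) (X₂ := ((M.res r₁).box N).X) (D₂ := ((M.res r₁).box N).D)
      (funext fun s => by cases s <;> rfl) (funext fun s => by cases s <;> rfl) _ _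
  | cons t l ih =>
    intro hn hl B Z h
    have hS : (Set.range r₁ ∪ {x | x ∈ t :: l}) \ {t} = Set.range r₁ ∪ {x | x ∈ l} := by
      ext x
      simp only [Set.mem_sdiff, Set.mem_union, Set.mem_ofPred_eq, List.mem_cons,
        Set.mem_singleton_iff]
      constructor
      · rintro ⟨h1 | h1 | h1, h2⟩
        exacts [Or.inl h1, absurd h1 h2, Or.inr h1]
      · rintro (h1 | h1)
        · exact ⟨Or.inl h1, fun e => hl t (by simp) (e ▸ h1)⟩
        · exact ⟨Or.inr (Or.inr h1), fun e => (List.nodup_cons.1 hn).1 (e ▸ h1)⟩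
    obtain ⟨h1, h2⟩ := hRED ι₁ _ M B Z h t (Or.inr (by simp))
    rw [hS] at h1 h2
    have i1 := ih (List.nodup_cons.1 hn).2 (fun x hx => hl x (by simp [hx])) _ _ h1
    have i2 := ih (List.nodup_cons.1 hn).2 (fun x hx => hl x (by simp [hx])) _ _ h2
    rw [← tens_inf] at i1
    rw [← tens_sup] at i2
    show iter φ _ _ _ _ - iter φ _ _ _ _ = (iter φ₁ _ _ _ _ - iter φ₁ _ _ _ _) * _
    rw [sub_mul, ← i1, ← i2]
    rfl

theorem step_left (hPISO : S_PISO) (hHSUB : S_HSUB) (hRED : S_RED) (hPUSH : S_PUSH)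
    (hBOXH : S_BOXH) (hBOXA : S_BOXA)
    {σ₁ σ₂ ι₁ : Type} [Fintype ι₁] [Fintype σ₂] {r₁ : σ₁ → ι₁} {φ : Fn (σ₁ ⊕ σ₂)} {φ₁ : Fn σ₁}
    {φ₂ : Fn σ₂} (hr : Function.Injective r₁) (hφ : Additive φ) (hφ₁ : Additive φ₁)
    (hp : ProdType φ φ₁ φ₂) : ProdType (push (Sum.map r₁ id) φ) (push r₁ φ₁) φ₂ := by
  classical
  intro M N hM hN
  obtain ⟨l, hn, hl⟩ : ∃ l : List ι₁, l.Nodup ∧ ∀ t, t ∈ l ↔ t ∉ Set.range r₁ :=
    ⟨(Finset.univ.filter fun t => t ∉ Set.range r₁).toList, Finset.nodup_toList _, fun t => by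
      simp only [Finset.mem_toList, Finset.mem_filter, Finset.mem_univ, true_and]⟩
  have hr' : Function.Injective (Sum.map r₁ (id : σ₂ → σ₂)) := hr.sumMap Function.injective_id
  rw [(hPUSH σ₁ ι₁ r₁ hr).2.1 φ₁ l hφ₁ hn hl M ⊥ ⊤ hM,
    (hPUSH _ _ _ hr').2.1 φ (l.map Sum.inl) hφ (hn.map Sum.inl_injective) ?_ _ ⊥ ⊤
      ((hBOXH ι₁ σ₂ M N).2.1 hM hN)]
  · have := iter_box hPISO hHSUB hRED hBOXA hr hφ hφ₁ hp M N hN l hn (fun t ht => (hl t).1 ht)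
      ⊥ ⊤ (by
        have : Set.range r₁ ∪ {t | t ∈ l} = Set.univ := by
          ext t; simp only [Set.mem_union, Set.mem_ofPred_eq, hl, Set.mem_univ, iff_true]
          exact em _
        rw [this]; exact hM)
    rw [tens_bot, tens_top] at this
    exact this
  · rintro (t | t)
    · simp only [List.mem_map, Sum.inl.injEq, exists_eq_right, hl]
      refine not_congr ⟨?_, ?_⟩
      · rintro ⟨s, rfl⟩; exact ⟨Sum.inl s, rfl⟩
      · rintro ⟨s | s, hs⟩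
        · exact ⟨s, Sum.inl_injective hs⟩
        · cases hs
    · simp only [List.mem_map, reduceCtorEq, and_false, exists_false, false_iff, not_not]
      exact ⟨Sum.inr t, rfl⟩

theorem push_swap (hPUSH : S_PUSH) (hRESM : S_RESM) (hBOXH : S_BOXH) {σ₁ σ₂ : Type} [Fintype σ₁]
    [Fintype σ₂] {φ : Fn (σ₁ ⊕ σ₂)} (hφ : Additive φ) (M : WM σ₁) (N : WM σ₂) (hM : M.Holo)
    (hN : N.Holo) : push Sum.swap φ (N.box M) ⊥ ⊤ = φ (M.box N) ⊥ ⊤ := by
  rw [(hPUSH _ _ (Sum.swap : σ₁ ⊕ σ₂ → σ₂ ⊕ σ₁) (Equiv.sumComm σ₁ σ₂).injective).2.2.2.1 φ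
    (Equiv.sumComm σ₁ σ₂).surjective]
  exact hφ.iso _ _ _ _ _ _
    ((hRESM _ _ (Equiv.sumComm σ₁ σ₂)).2.2.2.1 (N.box M) ⊥ ⊤ ((hBOXH _ _ N M).2.1 hN hM))
    ((hBOXH _ _ M N).1 hM.1 hN.1) (hBOXH _ _ N M).2.2.1

theorem step_right (hPISO : S_PISO) (hHSUB : S_HSUB) (hRED : S_RED) (hPUSH : S_PUSH)
    (hRESM : S_RESM) (hBOXH : S_BOXH) (hBOXA : S_BOXA)
    {σ₁ σ₂ ι₂ : Type} [Fintype σ₁] [Fintype ι₂] {r₂ : σ₂ → ι₂} {φ : Fn (σ₁ ⊕ σ₂)} {φ₁ : Fn σ₁}
    {φ₂ : Fn σ₂} (hr : Function.Injective r₂) (hφ : Additive φ) (hφ₂ : Additive φ₂)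
    (hp : ProdType φ φ₁ φ₂) : ProdType (push (Sum.map id r₂) φ) φ₁ (push r₂ φ₂) := by
  letI : Fintype σ₂ := Fintype.ofInjective r₂ hr
  intro M N hM hN
  have hs : Function.Injective (Sum.swap : σ₁ ⊕ σ₂ → σ₂ ⊕ σ₁) := (Equiv.sumComm σ₁ σ₂).injective
  have hs' : Function.Injective (Sum.swap : σ₁ ⊕ ι₂ → ι₂ ⊕ σ₁) := (Equiv.sumComm σ₁ ι₂).injective
  have hr' : Function.Injective (Sum.map (id : σ₁ → σ₁) r₂) := Function.injective_id.sumMap hr
  have hr'' : Function.Injective (Sum.map r₂ (id : σ₁ → σ₁)) := hr.sumMap Function.injective_id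
  have hp' : ProdType (push Sum.swap φ) φ₂ φ₁ := fun N' M' hN' hM' => by
    rw [push_swap hPUSH hRESM hBOXH hφ M' N' hM' hN', hp M' N' hM' hN', mul_comm]
  have h1 := step_left hPISO hHSUB hRED hPUSH hBOXH hBOXA hr ((hPUSH _ _ _ hs).1 φ hφ) hφ₂ hp'
    N M hN hM
  have hb := (hBOXH _ _ N M).2.1 hN hM
  have hc : (Sum.map r₂ (id : σ₁ → σ₁)) ∘ Sum.swap = Sum.swap ∘ Sum.map id r₂ :=
    funext fun s => by cases s <;> rfl
  rw [← (hPUSH _ _ _ hs).2.2.1 φ _ _ hφ hr'' _ _ _ hb, hc,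
    (hPUSH _ _ _ hr').2.2.1 φ _ _ hφ hs' _ _ _ hb,
    push_swap hPUSH hRESM hBOXH ((hPUSH _ _ _ hr').1 φ hφ) M N hM hN] at h1
  rw [h1, mul_comm]

end BoxpAux

theorem p_BOXP (hPISO : S_PISO) (hHSUB : S_HSUB) (hRED : S_RED) (hPUSH : S_PUSH) (hRESM : S_RESM) (hBOXH : S_BOXH) (hBOXA : S_BOXA) :
    S_BOXP := by
  intro σ₁ σ₂ ι₁ ι₂ _ _ r₁ r₂ φ φ₁ φ₂ h₁ h₂ hφ hφ₁ hφ₂ hp M N hM hN
  letI : Fintype σ₁ := Fintype.ofInjective r₁ h₁
  have hr' : Function.Injective (Sum.map (id : σ₁ → σ₁) r₂) := Function.injective_id.sumMap h₂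
  have hr'' : Function.Injective (Sum.map r₁ (id : ι₂ → ι₂)) := h₁.sumMap Function.injective_id
  have hc : Sum.map r₁ r₂ = Sum.map r₁ (id : ι₂ → ι₂) ∘ Sum.map (id : σ₁ → σ₁) r₂ :=
    funext fun s => by cases s <;> rfl
  rw [hc, (hPUSH _ _ _ hr').2.2.1 φ _ _ hφ hr'' _ _ _ ((hBOXH _ _ M N).2.1 hM hN)]
  exact BoxpAux.step_left hPISO hHSUB hRED hPUSH hBOXH hBOXA h₁ ((hPUSH _ _ _ hr').1 φ hφ) hφ₁
    (BoxpAux.step_right hPISO hHSUB hRED hPUSH hRESM hBOXH hBOXA h₂ hφ hφ₂ hp) M N hM hN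

end Pool.Agent.P.MP_52ab5a_al
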