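import Pool.Agent.P.MP_52ab5a_al.A.Iface

/-! Step BOXS of the open orbit project. -/

namespace Pool.Agent.P.MP_52ab5a_al

open MvPolynomial
open WM

namespace BoxsAux

open TensorProduct

variable {ι σ : Type}

/-- The algebra generated by the operators. -/
noncomputable def alg (L : WM ι) : Subalgebra ℂ (Module.End ℂ L.V) :=
  Algebra.adjoin ℂ (Set.range L.X ∪ Set.range L.D)

theorem X_mem (L : WM ι) (s : ι) : L.X s ∈ alg L := Algebra.subset_adjoin (Or.inl ⟨s, rfl⟩)

theorem D_mem (L : WM ι) (s : ι) : L.D s ∈ alg L := Algebra.subset_adjoin (Or.inr ⟨s, rfl⟩)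

theorem isSimple (L : WM ι) (hL : L.Simple) : IsSimpleModule (alg L) L.V := by
  have := hL.2.1
  refine (isSimpleModule_iff _ _).2 ⟨fun B => ?_⟩
  have h := hL.2.2 (B.restrictScalars ℂ) fun s v hv =>
    ⟨B.smul_mem ⟨L.X s, X_mem L s⟩ hv, B.smul_mem ⟨L.D s, D_mem L s⟩ hv⟩
  rcases h with h | h
  · left
    exact Submodule.restrictScalars_injective ℂ _ _ (by simpa using h)
  · right
    exact Submodule.restrictScalars_injective ℂ _ _ (by simpa using h)

/-- Density. -/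
theorem dens (hSCHUR : S_SCHUR) (L : WM ι) (hL : L.Simple) (hH : L.Holo)
    (f : Module.End ℂ L.V) (s : Finset L.V) : ∃ a ∈ alg L, ∀ m ∈ s, f m = a m := by
  have := isSimple L hL
  let f' : Module.End (Module.End (alg L) L.V) L.V :=
    { toFun := f
      map_add' := f.map_add
      map_smul' := fun g m => by
        obtain ⟨c, hc⟩ := hSCHUR ι L hL hH (g.restrictScalars ℂ) fun t =>
          ⟨LinearMap.ext fun v => g.map_smul ⟨L.X t, X_mem L t⟩ v,
            LinearMap.ext fun v => g.map_smul ⟨L.D t, D_mem L t⟩ v⟩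
        have hg : ∀ v, g v = c • v := fun v => LinearMap.congr_fun hc v
        show f (g m) = g (f m)
        rw [hg, hg, map_smul] }
  obtain ⟨a, ha⟩ := jacobson_density f' s
  exact ⟨a.1, a.2, fun m hm => ha m hm⟩

theorem stable_alg {V : Type} [AddCommGroup V] [Module ℂ V] (L : WM ι)
    (Φ : Module.End ℂ L.V →ₐ[ℂ] Module.End ℂ V) (Y : Submodule ℂ V)
    (hY : ∀ s, ∀ v ∈ Y, Φ (L.X s) v ∈ Y ∧ Φ (L.D s) v ∈ Y) {a : Module.End ℂ L.V}
    (ha : a ∈ alg L) : ∀ v ∈ Y, Φ a v ∈ Y := by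
  induction ha using Algebra.adjoin_induction with
  | mem x hx =>
    rcases hx with ⟨s, rfl⟩ | ⟨s, rfl⟩
    · exact fun v hv => (hY s v hv).1
    · exact fun v hv => (hY s v hv).2
  | algebraMap c =>
    intro v hv
    rw [AlgHom.commutes]
    exact Y.smul_mem c hv
  | add x y _ _ hx hy =>
    intro v hv
    rw [map_add]
    exact Y.add_mem (hx v hv) (hy v hv)
  | mul x y _ _ hx hy =>
    intro v hv
    rw [map_mul]
    exact hx _ (hy v hv)

theorem exists_fun {U W : Type} [AddCommGroup U] [Module ℂ U] [AddCommGroup W] [Module ℂ W]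
    {y : U ⊗[ℂ] W} (hy : y ≠ 0) : ∃ (p : U →ₗ[ℂ] ℂ) (q : W →ₗ[ℂ] ℂ),
      TensorProduct.lid ℂ ℂ (TensorProduct.map p q y) ≠ 0 := by
  let b := Module.Basis.ofVectorSpace ℂ U
  let c := Module.Basis.ofVectorSpace ℂ W
  have h : (b.tensorProduct c).repr y ≠ 0 := by simpa using hy
  obtain ⟨⟨i, j⟩, hij⟩ := Finsupp.ne_iff.1 h
  refine ⟨b.coord i, c.coord j, ?_⟩
  have : ∀ x : U ⊗[ℂ] W, TensorProduct.lid ℂ ℂ (TensorProduct.map (b.coord i) (c.coord j) x) =
      (b.tensorProduct c).repr x (i, j) := by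
    intro x
    induction x using TensorProduct.induction_on with
    | zero => simp
    | tmul u w => simp [mul_comm]
    | add x y hx hy => simp only [map_add, hx, hy, Finsupp.add_apply]
  rw [this]
  simpa using hij

theorem tmul_ne {U W : Type} [AddCommGroup U] [Module ℂ U] [AddCommGroup W] [Module ℂ W]
    {u : U} {w : W} (hu : u ≠ 0) (hw : w ≠ 0) : u ⊗ₜ[ℂ] w ≠ 0 := by
  obtain ⟨p, hp⟩ := Module.Projective.exists_dual_ne_zero ℂ hu
  obtain ⟨q, hq⟩ := Module.Projective.exists_dual_ne_zero ℂ hw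
  intro h
  have := congrArg (fun x => TensorProduct.lid ℂ ℂ (TensorProduct.map p q x)) h
  simp [hp, hq] at this

theorem iso_of {L L' : WM ι} (hL : L.Simple) (hL' : L'.Simple) (G : L.V →ₗ[ℂ] L'.V)
    (hG : ∀ s v, G (L.X s v) = L'.X s (G v) ∧ G (L.D s v) = L'.D s (G v)) {v₀ : L.V}
    (h₀ : G v₀ ≠ 0) : Iso L L' := by
  have hk : LinearMap.ker G = ⊥ := by
    refine (hL.2.2 _ fun s v hv => ?_).resolve_right fun h => h₀ ?_
    · rw [LinearMap.mem_ker] at hv
      simp [LinearMap.mem_ker, (hG s v).1, (hG s v).2, hv]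
    · exact LinearMap.mem_ker.1 (h ▸ Submodule.mem_top)
  have hr : LinearMap.range G = ⊤ := by
    refine (hL'.2.2 _ fun s v hv => ?_).resolve_left fun h => h₀ ?_
    · obtain ⟨u, rfl⟩ := hv
      exact ⟨⟨_, (hG s u).1⟩, ⟨_, (hG s u).2⟩⟩
    · have : G v₀ ∈ LinearMap.range G := ⟨v₀, rfl⟩
      rwa [h, Submodule.mem_bot] at this
  refine ⟨G, bot_le, fun s _ v hv => ?_, fun s _ v _ => ⟨trivial, trivial⟩, bot_le,
    fun s _ v hv => ?_, fun s _ v _ => ⟨trivial, trivial⟩, fun _ _ => trivial,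
    fun z _ => ?_, ?_, fun s _ z _ => ?_⟩
  · rw [Submodule.mem_bot] at hv; simp [hv]
  · rw [Submodule.mem_bot] at hv; simp [hv]
  · rw [Submodule.mem_bot, ← LinearMap.mem_ker, hk]
  · rw [Submodule.map_top, hr]; simp
  · simp [(hG s z).1, (hG s z).2]

theorem simple_box (hSCHUR : S_SCHUR) (M : WM ι) (N : WM σ) (hM : M.Simple) (hMH : M.Holo)
    (hN : N.Simple) (hNH : N.Holo) (Y : Submodule ℂ (M.box N).V) (hY : (M.box N).Stable Y) :
    Y = ⊥ ∨ Y = ⊤ := by
  classical
  have h1 : ∀ f : Module.End ℂ M.V, ∀ y ∈ Y, f.rTensor N.V y ∈ Y := by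
    intro f y hy
    obtain ⟨S, rfl⟩ := TensorProduct.exists_finset y
    obtain ⟨a, ha, hfa⟩ := dens hSCHUR M hM hMH f (S.image Prod.fst)
    have := stable_alg M (Module.End.rTensorAlgHom ℂ M.V N.V) Y
      (fun s v hv => hY (Sum.inl s) v hv) ha _ hy
    convert this using 1
    show _ = a.rTensor N.V _
    simp only [map_sum, LinearMap.rTensor_tmul]
    exact Finset.sum_congr rfl fun i hi => by rw [hfa _ (Finset.mem_image_of_mem _ hi)]
  have h2 : ∀ g : Module.End ℂ N.V, ∀ y ∈ Y, g.lTensor M.V y ∈ Y := by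
    intro g y hy
    obtain ⟨S, rfl⟩ := TensorProduct.exists_finset y
    obtain ⟨a, ha, hfa⟩ := dens hSCHUR N hN hNH g (S.image Prod.snd)
    have := stable_alg N (Module.End.lTensorAlgHom ℂ N.V M.V) Y
      (fun s v hv => hY (Sum.inr s) v hv) ha _ hy
    convert this using 1
    show _ = a.lTensor M.V _
    simp only [map_sum, LinearMap.lTensor_tmul]
    exact Finset.sum_congr rfl fun i hi => by rw [hfa _ (Finset.mem_image_of_mem _ hi)]
  rcases eq_or_ne Y ⊥ with h | h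
  · exact Or.inl h
  right
  obtain ⟨y, hy, hy0⟩ := (Submodule.ne_bot_iff Y).1 h
  obtain ⟨p, q, hpq⟩ := exists_fun (U := M.V) (W := N.V) hy0
  have h3 : ∀ (m : M.V) (n : N.V), m ⊗ₜ[ℂ] n ∈ Y := by
    intro m n
    have h4 := h1 (p.smulRight m) _ (h2 (q.smulRight n) y hy)
    have h5 : ∀ x : M.V ⊗[ℂ] N.V, (p.smulRight m).rTensor N.V ((q.smulRight n).lTensor M.V x) =
        TensorProduct.lid ℂ ℂ (TensorProduct.map p q x) • (m ⊗ₜ[ℂ] n) := by
      intro x
      induction x using TensorProduct.induction_on with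
      | zero => simp
      | tmul u w =>
        simp only [LinearMap.lTensor_tmul, LinearMap.rTensor_tmul, LinearMap.smulRight_apply,
          TensorProduct.map_tmul, TensorProduct.lid_tmul, TensorProduct.smul_tmul_smul,
          smul_eq_mul]
      | add x y hx hy => simp only [map_add, hx, hy, add_smul]
    rw [h5] at h4
    exact (Y.smul_mem_iff hpq).1 h4
  refine eq_top_iff.2 fun x _ => ?_
  induction x using TensorProduct.induction_on with
  | zero => exact Y.zero_mem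
  | tmul u w => exact h3 u w
  | add x y hx hy => exact Y.add_mem (hx trivial) (hy trivial)

theorem rid_comm {U W : Type} [AddCommGroup U] [Module ℂ U] [AddCommGroup W] [Module ℂ W]
    (q : W →ₗ[ℂ] ℂ) (T : Module.End ℂ U) (x : U ⊗[ℂ] W) :
    TensorProduct.rid ℂ U (q.lTensor U (T.rTensor W x)) =
      T (TensorProduct.rid ℂ U (q.lTensor U x)) := by
  induction x using TensorProduct.induction_on with
  | zero => simp
  | tmul u w => simp
  | add x y hx hy => simp only [map_add, hx, hy]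

theorem lid_comm {U W : Type} [AddCommGroup U] [Module ℂ U] [AddCommGroup W] [Module ℂ W]
    (p : U →ₗ[ℂ] ℂ) (T : Module.End ℂ W) (x : U ⊗[ℂ] W) :
    TensorProduct.lid ℂ W (p.rTensor W (T.lTensor U x)) =
      T (TensorProduct.lid ℂ W (p.rTensor W x)) := by
  induction x using TensorProduct.induction_on with
  | zero => simp
  | tmul u w => simp
  | add x y hx hy => simp only [map_add, hx, hy]

theorem rid_ev {U W : Type} [AddCommGroup U] [Module ℂ U] [AddCommGroup W] [Module ℂ W]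
    (p : U →ₗ[ℂ] ℂ) (q : W →ₗ[ℂ] ℂ) (x : U ⊗[ℂ] W) :
    p (TensorProduct.rid ℂ U (q.lTensor U x)) = TensorProduct.lid ℂ ℂ (TensorProduct.map p q x) ∧
    q (TensorProduct.lid ℂ W (p.rTensor W x)) =
      TensorProduct.lid ℂ ℂ (TensorProduct.map p q x) := by
  induction x using TensorProduct.induction_on with
  | zero => simp
  | tmul u w => simp [mul_comm]
  | add x y hx hy => simp only [map_add, hx.1, hy.1, hx.2, hy.2, and_self]

end BoxsAux

open BoxsAux TensorProduct in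
theorem p_BOXS (hPISO : S_PISO) (hSCHUR : S_SCHUR) (hBOXH : S_BOXH) :
    S_BOXS := by
  intro ι σ _ _ M N hM hMH hN hNH
  have _ := hPISO
  have := hM.2.1
  have := hN.2.1
  obtain ⟨m₀, hm₀⟩ := exists_ne (0 : M.V)
  obtain ⟨n₀, hn₀⟩ := exists_ne (0 : N.V)
  have h₀ := tmul_ne hm₀ hn₀
  refine ⟨⟨(hBOXH ι σ M N).1 hM.1 hN.1, ⟨⟨_, _, h₀⟩⟩,
    simple_box hSCHUR M N hM hMH hN hNH⟩, ?_⟩
  rintro M' N' hM' _ hN' _ ⟨F, hF⟩
  have hF₀ : F (m₀ ⊗ₜ[ℂ] n₀) ≠ 0 := fun h =>
    h₀ ((Submodule.mem_bot ℂ).1 ((hF.ker _ trivial).1 ((Submodule.mem_bot ℂ).2 h)))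
  have hc : ∀ s z, F ((M.box N).X s z) = (M'.box N').X s (F z) ∧
      F ((M.box N).D s z) = (M'.box N').D s (F z) := fun s z => by
    have := hF.comm s trivial z trivial
    rw [Submodule.mem_bot, Submodule.mem_bot, sub_eq_zero, sub_eq_zero] at this
    exact this
  obtain ⟨p, q, hpq⟩ := exists_fun (U := M'.V) (W := N'.V) hF₀
  constructor
  · refine iso_of hM hM' ((TensorProduct.rid ℂ M'.V).toLinearMap ∘ₗ q.lTensor M'.V ∘ₗ F ∘ₗ
      (TensorProduct.mk ℂ M.V N.V).flip n₀) (fun s v => ⟨?_, ?_⟩) (v₀ := m₀) fun h => hpq ?_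
    · have := (hc (Sum.inl s) (v ⊗ₜ[ℂ] n₀)).1
      exact (congrArg (fun x => TensorProduct.rid ℂ M'.V (q.lTensor M'.V x)) this).trans
        (rid_comm q _ _)
    · have := (hc (Sum.inl s) (v ⊗ₜ[ℂ] n₀)).2
      exact (congrArg (fun x => TensorProduct.rid ℂ M'.V (q.lTensor M'.V x)) this).trans
        (rid_comm q _ _)
    · rw [← (rid_ev p q _).1]
      exact (congrArg p h).trans (map_zero p)
  · refine iso_of hN hN' ((TensorProduct.lid ℂ N'.V).toLinearMap ∘ₗ p.rTensor N'.V ∘ₗ F ∘ₗ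
      TensorProduct.mk ℂ M.V N.V m₀) (fun s v => ⟨?_, ?_⟩) (v₀ := n₀) fun h => hpq ?_
    · have := (hc (Sum.inr s) (m₀ ⊗ₜ[ℂ] v)).1
      exact (congrArg (fun x => TensorProduct.lid ℂ N'.V (p.rTensor N'.V x)) this).trans
        (lid_comm p _ _)
    · have := (hc (Sum.inr s) (m₀ ⊗ₜ[ℂ] v)).2
      exact (congrArg (fun x => TensorProduct.lid ℂ N'.V (p.rTensor N'.V x)) this).trans
        (lid_comm p _ _)
    · rw [← (rid_ev p q _).2]
      exact (congrArg q h).trans (map_zero q)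

end Pool.Agent.P.MP_52ab5a_al
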