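import Pool.Agent.P.MP_52ab5a_al.A.Iface

/-! Step DEC of the open orbit project. -/

namespace Pool.Agent.P.MP_52ab5a_al

open MvPolynomial
open WM

namespace DecAux

variable {ι : Type}

/-- `T` is a combination of pairwise non isomorphic simple modules. -/
def Cmb (T : Fn ι → ℤ) : Prop := ∃ (m : ℕ) (L : Fin m → WM ι) (c : Fin m → ℤ),
  (∀ j, (L j).Simple ∧ (L j).Holo) ∧ (∀ j k, Iso (L j) (L k) → j = k) ∧
    ∀ φ, Additive φ → T φ = ∑ j, c j * φ (L j) ⊥ ⊤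

theorem Cmb.congr {T T' : Fn ι → ℤ} (h : Cmb T) (e : ∀ φ, Additive φ → T' φ = T φ) : Cmb T' :=
  let ⟨m, L, c, h1, h2, h3⟩ := h
  ⟨m, L, c, h1, h2, fun φ hφ => (e φ hφ).trans (h3 φ hφ)⟩

theorem Cmb.zero : Cmb fun _ : Fn ι => 0 :=
  ⟨0, Fin.elim0, Fin.elim0, fun j => j.elim0, fun j => j.elim0, fun _ _ => rfl⟩

theorem Cmb.one (hP : S_PISO) {T : Fn ι → ℤ} (h : Cmb T) (n : ℤ) {M : WM ι} (h1 : M.Simple)
    (h2 : M.Holo) : Cmb fun φ => T φ + n * φ M ⊥ ⊤ := by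
  obtain ⟨m, L, c, a1, a2, a3⟩ := h
  by_cases e : ∃ j, Iso M (L j)
  · obtain ⟨j, e⟩ := e
    refine ⟨m, L, c + Pi.single j n, a1, a2, fun φ hφ => ?_⟩
    simp only [Pi.add_apply, add_mul, Finset.sum_add_distrib, a3 φ hφ,
      hφ.iso _ _ _ _ _ _ h2 (a1 j).1.1 e]
    congr 1
    rw [Finset.sum_eq_single j (fun k _ hk => by rw [Pi.single_eq_of_ne hk, zero_mul]) (by simp),
      Pi.single_eq_same]
  · refine ⟨m + 1, Fin.cons M L, Fin.cons n c, Fin.cases ⟨h1, h2⟩ a1, fun j k => ?_, fun φ hφ => ?_⟩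
    · refine Fin.cases (Fin.cases (fun _ => rfl) (fun k a => absurd ⟨k, a⟩ e) k) (fun j => ?_) j
      refine Fin.cases (fun a => absurd ⟨j, (hP ι _).2.1 _ _ _ _ _ _ a⟩ e) (fun k a => ?_) k
      rw [a2 j k a]
    · rw [Fin.sum_univ_succ, add_comm]
      exact congrArg (· + _) (a3 φ hφ)

theorem Cmb.hol (hP : S_PISO) (hH : S_HSUB) (hL : S_LEN) [Finite ι] {T : Fn ι → ℤ} (h : Cmb T) (n : ℤ)
    {N : WM ι} {B Z : Submodule ℂ N.V} (hN : Hol Set.univ N B Z) :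
    Cmb fun φ => T φ + n * φ N B Z := by
  refine (hL ι N B Z hN).1 (fun Y => Cmb fun φ => T φ + n * φ N B Y) (h.congr fun φ hφ => ?_)
    fun Y Y' a1 a2 a3 a4 => ?_
  · have := hφ.add N B B B ((hH ι _).2.2.1 N B hN.1 hN.2.2.1) le_rfl le_rfl
      ((stOn_univ _ _).1 hN.2.2.1)
    rw [show φ N B B = 0 by omega, mul_zero, add_zero]
  · have b1 := ((hH ι _).1 N B Y' Z hN (a1.trans a3.1.le) a2 ((stOn_univ _ _).2 a3.2.2.1)).1
    have b2 := ((hH ι _).1 N B Y Y' b1 a1 a3.1.le ((stOn_univ _ _).2 a3.2.1)).2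
    obtain ⟨-, -, -, -, -, -, p7, p8, p9⟩ := hP ι Set.univ
    obtain ⟨M, m1, m2⟩ := p7 N Y Y' hN.1 a3.1.le a3.2.1 a3.2.2.1
    refine (a4.one hP n ((p9 M).2 ⟨m1, p8 _ _ _ _ _ _ m2 a3⟩)
      ((hH ι _).2.1 _ _ _ _ _ _ b2 m1 m2)).congr fun φ hφ => ?_
    rw [hφ.add N B Y Y' b1 a1 a3.1.le a3.2.1, hφ.iso _ _ _ _ _ _ b2 m1 m2, mul_add, add_assoc]

end DecAux

open DecAux in
theorem p_DEC (hPISO : S_PISO) (hHSUB : S_HSUB) (hLEN : S_LEN) (hMULT : S_MULT) :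
    S_DEC := by
  intro ι _
  refine ⟨?_, fun φ ψ hφ hψ e N B Z hN => ?_⟩
  · rintro T ⟨m, M, B, Z, n, h1, h2⟩
    have k : ∀ s : Finset (Fin m), Cmb fun φ => ∑ a ∈ s, n a * φ (M a) (B a) (Z a) := fun s => by
      induction s using Finset.induction_on with
      | empty => exact Cmb.zero
      | insert a s ha ih =>
        exact (ih.hol hPISO hHSUB hLEN (n a) (h1 a)).congr fun φ _ => by
          rw [Finset.sum_insert ha, add_comm]
    obtain ⟨l, L, c, a1, a2, a3⟩ := (k Finset.univ).congr (T' := T) fun φ _ => h2 φ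
    obtain ⟨-, p2, -, -, -, p6, -, -, p9⟩ := hPISO ι Set.univ
    have z : ∀ L' : WM ι, L'.Simple → ∀ j, ¬Iso (L j) L' → L'.mult (L j) ⊥ ⊤ = 0 :=
      fun L' h j a => ((hMULT ι L' h).2.1 _ _ _ ((p9 _).1 (a1 j).1).2).2 fun b => a ((p6 _ _ _ _).1 b)
    have e : ∀ j, T (L j).mult = c j := fun j => by
      have s := ((p9 _).1 (a1 j).1).2
      rw [a3 _ (hMULT ι _ (a1 j).1).1, Finset.sum_eq_single j (fun k _ hk => by
        rw [z _ (a1 j).1 k fun b => hk (a2 _ _ b), mul_zero]) (by simp),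
        ((hMULT ι _ (a1 j).1).2.1 _ _ _ s).1 ((p6 _ _ _ _).2 ((hPISO ι Set.univ).1 _ _ _ bot_le
          ((stOn_univ _ _).2 s.2.1) ((stOn_univ _ _).2 s.2.2.1))), mul_one]
    refine ⟨l, L, a1, a2, fun φ hφ => by simp only [e, a3 φ hφ], fun L' h b => ?_⟩
    by_contra a
    refine b ?_
    rw [a3 _ (hMULT ι L' h).1]
    exact Finset.sum_eq_zero fun j _ => by
      rw [z L' h j fun i => a ⟨j, p2 _ _ _ _ _ _ i⟩, mul_zero]
  · obtain ⟨l, L, c, a1, -, a3⟩ := Cmb.zero.hol hPISO hHSUB hLEN 1 hN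
    have b1 := a3 φ hφ
    have b2 := a3 ψ hψ
    simp only [zero_add, one_mul] at b1 b2
    rw [b1, b2]
    exact Finset.sum_congr rfl fun j _ => by rw [e _ (a1 j).1 (a1 j).2]

end Pool.Agent.P.MP_52ab5a_al
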