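import Pool.Agent.P.MP_52ab5a_al.A.Iface

/-! Step DESC of the open orbit project. -/

namespace Pool.Agent.P.MP_52ab5a_al

open MvPolynomial
open WM

theorem p_DESC :
    S_DESC := by
  intro V _ _ B Z
  constructor
  · obtain ⟨f, hf⟩ := LinearMap.exists_extend (p := Z) (B.comap Z.subtype).mkQ
    have hf' : ∀ z : Z, f z = (B.comap Z.subtype).mkQ z := fun z => LinearMap.congr_fun hf z
    refine ⟨Z ⧸ B.comap Z.subtype, inferInstance, inferInstance, f, fun z hz => ?_, ?_⟩
    · rw [show f z = _ from hf' ⟨z, hz⟩, Submodule.mkQ_apply, Submodule.Quotient.mk_eq_zero]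
      rfl
    · refine eq_top_iff.2 fun x _ => ?_
      obtain ⟨z, rfl⟩ := (B.comap Z.subtype).mkQ_surjective x
      exact ⟨z, z.2, hf' z⟩
  · intro V' _ _ f hk ho T hZ hB
    obtain ⟨g, hg⟩ := LinearMap.exists_rightInverse_of_surjective (f.comp Z.subtype)
      (by rw [LinearMap.range_comp, Submodule.range_subtype, ho])
    refine ⟨f ∘ₗ T ∘ₗ Z.subtype ∘ₗ g, fun z hz => ?_⟩
    have h1 : f (g (f z)) = f z := LinearMap.congr_fun hg (f z)
    have h2 : (g (f z) : V) - z ∈ Z := Z.sub_mem (g (f z)).2 hz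
    have h3 : (g (f z) : V) - z ∈ B := (hk _ h2).1 (by rw [map_sub, h1, sub_self])
    have h4 := (hk _ (hZ _ h2)).2 (hB _ h2 h3)
    rw [map_sub, map_sub, sub_eq_zero] at h4
    exact h4

end Pool.Agent.P.MP_52ab5a_al
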