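import Pool.Agent.P.MP_52ab5a_al.A.Iface

/-! Step DIAG of the open orbit project. -/

namespace Pool.Agent.P.MP_52ab5a_al

open MvPolynomial
open WM

namespace DiagAux

variable {V : Type} [AddCommGroup V] [Module ℂ V]

theorem dec {T : Module.End ℂ V} (hT : Diag T) (v : V) :
    ∃ c : ℂ →₀ V, (∀ a, T (c a) = a • c a) ∧ (c.sum fun _ u => u) = v := by
  have hv : v ∈ ⨆ a : ℂ, T.eigenspace a := by rw [hT]; trivial
  obtain ⟨c, h1, h2⟩ := (Submodule.mem_iSup_iff_exists_finsupp _ _).1 hv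
  exact ⟨c, fun a => Module.End.mem_eigenspace_iff.1 (h1 a), h2⟩

theorem comp (T : Module.End ℂ V) (Y : Submodule ℂ V) (hY : ∀ v ∈ Y, T v ∈ Y) (c : ℂ →₀ V)
    (hc : ∀ a, T (c a) - a • c a ∈ Y) (hs : (c.sum fun _ u => u) ∈ Y) (a : ℂ) : c a ∈ Y := by
  by_cases ha : a ∈ c.support
  · let T' : Module.End ℂ (V ⧸ Y) := Y.mapQ Y T hY
    have h := (iSupIndep_iff_finsetSum_eq_zero_imp_eq_zero _).1 T'.eigenspaces_iSupIndep c.support
      (fun b => Y.mkQ (c b)) (fun b _ => ?_) ?_ a ha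
    · exact (Submodule.Quotient.mk_eq_zero Y).1 h
    · rw [Module.End.mem_eigenspace_iff, ← map_smul]
      exact (Submodule.Quotient.eq Y).2 (hc b)
    · rw [← map_sum]
      exact (Submodule.Quotient.mk_eq_zero Y).2 hs
  · rw [Finsupp.notMem_support_iff.1 ha]
    exact Y.zero_mem

theorem exU {T : Module.End ℂ V} (hT : Diag T) (g : ℂ → ℂ) :
    ∃ U : Module.End ℂ V, ∀ a v, T v = a • v → U v = g a • v := by
  classical
  let e := T.eigenspaces_iSupIndep.linearEquiv hT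
  refine ⟨(DFinsupp.lsum ℕ fun a => g a • (T.eigenspace a).subtype) ∘ₗ e.symm.toLinearMap,
    fun a v hv => ?_⟩
  have h : e.symm v = DFinsupp.single a ⟨v, Module.End.mem_eigenspace_iff.2 hv⟩ :=
    T.eigenspaces_iSupIndep.linearEquiv_symm_apply hT _
  simp [h]

end DiagAux

open DiagAux

theorem p_DIAG :
    S_DIAG := by
  intro V _ _ T hT
  refine ⟨dec hT, comp T, fun g => ?_⟩
  obtain ⟨U, hU⟩ := exU hT g
  refine ⟨U, hU, fun Y hY v hv => ?_⟩
  obtain ⟨c, h1, h2⟩ := dec hT v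
  have h3 := comp T Y hY c (fun a => by rw [h1, sub_self]; exact Y.zero_mem) (h2 ▸ hv)
  rw [← h2, Finsupp.sum, map_sum]
  exact Y.sum_mem fun a _ => by rw [hU a _ (h1 a)]; exact Y.smul_mem _ (h3 a)

end Pool.Agent.P.MP_52ab5a_al
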