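import Pool.Agent.P.MP_52ab5a_al.A.Iface

/-! Step DIM of the open orbit project. -/

namespace Pool.Agent.P.MP_52ab5a_al

open MvPolynomial
open WM

namespace DimAux

variable {V : Type} [AddCommGroup V] [Module ℂ V]

theorem rank_union {Γ : ℕ → Submodule ℂ V} (hΓ : Monotone Γ) {Z : Submodule ℂ V} {c : ℕ}
    (hZ : ∀ z ∈ Z, ∃ k, z ∈ Γ k) (hc : ∀ k, Module.rank ℂ (Γ k) ≤ c) : Module.rank ℂ Z ≤ c := by
  refine rank_le fun s hs => ?_
  choose k hk using fun x : Z => hZ x.1 x.2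
  have h1 : ∀ x : s, (x.1 : V) ∈ Γ (s.sup k) := fun x => hΓ (Finset.le_sup x.2) (hk x.1)
  have h2 : LinearIndependent ℂ fun x : s => (⟨x.1, h1 x⟩ : Γ (s.sup k)) :=
    LinearIndependent.of_comp (Γ (s.sup k)).subtype (hs.map' Z.subtype Z.ker_subtype)
  have h3 := h2.cardinal_le_rank.trans (hc _)
  rw [Cardinal.mk_coe_finset] at h3
  exact_mod_cast h3

theorem dim_eq {ι : Type} (N : WM ι) (B Z : Submodule ℂ N.V) :
    N.dim B Z = (Cardinal.toNat (rk B Z) : ℕ) := rfl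

theorem dim_top {ι : Type} (N : WM ι) : N.dim ⊥ ⊤ = (Module.finrank ℂ N.V : ℕ) := by
  rw [WM.dim, Submodule.map_top, Submodule.range_mkQ, finrank_top,
    (Submodule.quotEquivOfEqBot ⊥ rfl).finrank_eq]

end DimAux

open DimAux in
theorem p_DIM (hRK : S_RK) (hPISO : S_PISO) :
    S_DIM := by
  intro ι _
  have e0 : (Set.univ : Set ι).ncard = 0 := by
    rw [Set.univ_eq_empty_iff.2 inferInstance, Set.ncard_empty]
  have h2 : ∀ (N : WM ι) B Z, Hol Set.univ N B Z ↔ B ≤ Z ∧ Module.Finite ℂ (Z.map B.mkQ) := by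
    intro N B Z
    constructor
    · rintro ⟨-, hle, -, -, Γ, c, hm, -, -, hZ, hc⟩
      refine ⟨hle, Module.rank_lt_aleph0_iff.1 (lt_of_le_of_lt (rank_union
        (Γ := fun k => (Γ k).map B.mkQ) (c := c) (fun a b h => Submodule.map_mono (hm h)) ?_
        fun k => ?_) (Cardinal.natCast_lt_aleph0))⟩
      · rintro _ ⟨z, hz, rfl⟩
        exact (hZ z hz).imp fun k hk => Submodule.mem_map_of_mem hk
      · have := hc k
        rwa [e0, pow_zero, mul_one] at this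
    · rintro ⟨hle, hf⟩
      refine ⟨⟨isEmptyElim, isEmptyElim, isEmptyElim, isEmptyElim⟩, hle, isEmptyElim, isEmptyElim,
        fun _ => Z, Module.finrank ℂ (Z.map B.mkQ), monotone_const, fun _ => ⟨hle, le_rfl⟩,
        fun _ => isEmptyElim, fun z hz => ⟨0, hz⟩, fun k => ?_⟩
      rw [e0, pow_zero, mul_one, Module.finrank_eq_rank]
      exact le_rfl
  refine ⟨⟨fun N B Y Z h hB hZ _ => ?_, fun N B Z N' B' Z' _ _ ⟨f, hf⟩ => ?_⟩, h2,
    fun N B Z h => ?_, fun σ ρ _ r M N _ _ => ?_⟩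
  · have h3 : rk B Z < Cardinal.aleph0 := Module.rank_lt_aleph0_iff.2 ((h2 N B Z).1 h).2
    have e := (hRK N.V).1 B Y Z hB hZ
    rw [e, Cardinal.add_lt_aleph0_iff] at h3
    rw [dim_eq, dim_eq, dim_eq, e, Cardinal.toNat_add h3.1 h3.2, Nat.cast_add]
  · have e1 : Z' = Z.map f ⊔ B' :=
      le_antisymm hf.onto (sup_le (Submodule.map_le_iff_le_comap.2 hf.maps) hf.le')
    have e2 : B'.comap f ⊓ Z = B := le_antisymm (fun z hz => (hf.ker z hz.2).1 hz.1)
      fun z hz => ⟨(hf.ker z (hf.le hz)).2 hz, hf.le hz⟩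
    rw [dim_eq, dim_eq, e1, ((hRK N'.V).2.2.1 B' _).1, (hRK N.V).2.2.2.2,
      ← ((hRK N.V).2.2.1 (B'.comap f) Z).2.1, e2]
  · rw [dim_eq, ((hRK N.V).2.2.1 B Z).2.2.2 h]
    simp
  · change WM.dim ((M.box N).res r) ⊥ ⊤ = _
    rw [dim_top, dim_top, dim_top, ← Nat.cast_mul]
    exact congrArg _ Module.finrank_tensorProduct

end Pool.Agent.P.MP_52ab5a_al
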