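import Pool.Agent.P.MP_52ab5a_al.A.Iface

/-! Step EIG of the open orbit project. -/

namespace Pool.Agent.P.MP_52ab5a_al

open MvPolynomial
open WM

namespace EigAux

lemma stable {V : Type} [AddCommGroup V] [Module ℂ V] (T : Module.End ℂ V) (a₀ : ℂ)
    (A : Module.End ℂ V) (hA : A ∈ ⨆ k : ℤ,
      Module.End.eigenspace (LinearMap.mulLeft ℂ T - LinearMap.mulRight ℂ T) (k : ℂ)) :
    ∀ v ∈ ⨆ k : ℤ, T.eigenspace (a₀ + k), A v ∈ ⨆ k : ℤ, T.eigenspace (a₀ + k) := by
  induction hA using Submodule.iSup_induction' with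
  | mem k A hA =>
    intro v hv
    induction hv using Submodule.iSup_induction' with
    | mem l v hv =>
      refine Submodule.mem_iSup_of_mem (l + k) ?_
      rw [Module.End.mem_eigenspace_iff] at hA hv ⊢
      have h1 := LinearMap.congr_fun hA v
      simp only [LinearMap.sub_apply, LinearMap.mulLeft_apply, LinearMap.mulRight_apply,
        Module.End.mul_apply, LinearMap.smul_apply, hv, map_smul] at h1
      rw [eq_add_of_sub_eq h1, ← add_smul]
      push_cast
      ring_nf
    | zero =>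
      rw [map_zero]
      exact Submodule.zero_mem _
    | add x y _ _ h1 h2 =>
      rw [map_add]
      exact Submodule.add_mem _ h1 h2
  | zero => exact fun v _ => Submodule.zero_mem _
  | add x y _ _ h1 h2 => exact fun v hv => Submodule.add_mem _ (h1 v hv) (h2 v hv)

end EigAux

theorem p_EIG :
    S_EIG := by
  rintro ι L hL T hT ⟨W, hW, hfin, hst⟩
  have : Nontrivial W := Submodule.nontrivial_iff_ne_bot.2 hW
  obtain ⟨a₀, ha⟩ := Module.End.exists_eigenvalue (T.restrict hst)
  obtain ⟨v, hv⟩ := ha.exists_hasEigenvector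
  have hv1 : (v : L.V) ∈ T.eigenspace (a₀ + (0 : ℤ)) := by
    rw [Module.End.mem_eigenspace_iff, Int.cast_zero, add_zero]
    exact congrArg Subtype.val hv.apply_eq_smul
  have htop : ⨆ k : ℤ, T.eigenspace (a₀ + k) = ⊤ := by
    refine (hL.2.2 _ fun s x hx => ⟨EigAux.stable T a₀ _ (hT s _ (by simp)) x hx,
      EigAux.stable T a₀ _ (hT s _ (by simp)) x hx⟩).resolve_left fun h => hv.2 ?_
    have := Submodule.mem_iSup_of_mem (p := fun k : ℤ => T.eigenspace (a₀ + k)) 0 hv1
    rw [h, Submodule.mem_bot] at this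
    exact Subtype.ext this
  refine ⟨top_le_iff.1 (htop ▸ iSup_le fun k => le_iSup (fun a => T.eigenspace a) _), a₀,
    fun a x hx h => ?_⟩
  by_contra hc
  refine hx (Submodule.disjoint_def.1 (T.eigenspaces_iSupIndep a) x
    (Module.End.mem_eigenspace_iff.2 h) ?_)
  have h1 : ⨆ k : ℤ, T.eigenspace (a₀ + k) ≤ ⨆ j, ⨆ _ : j ≠ a, T.eigenspace j :=
    iSup_le fun k => le_iSup₂_of_le (f := fun j (_ : j ≠ a) => T.eigenspace j) (a₀ + k)
      (fun e => hc ⟨k, e.symm⟩) le_rfl
  exact h1 (htop ▸ Submodule.mem_top)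

end Pool.Agent.P.MP_52ab5a_al
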