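import Pool.Agent.P.MP_52ab5a_al.B.Base

/-! Step EXT of the open orbit project. -/

namespace Pool.Agent.P.MP_52ab5a_al

open MvPolynomial
open WM

namespace ExtAux

variable {α V : Type} [AddCommGroup V] [Module ℂ V]

/-- One step of the word filtration. -/
noncomputable def st (z : α → Module.End ℂ V) (P : Submodule ℂ V) : Submodule ℂ V :=
  ⨆ v, P.map (z v)

theorem mem_st {z : α → Module.End ℂ V} {P : Submodule ℂ V} (v : α) {a : V} (ha : a ∈ P) :
    z v a ∈ st z P := Submodule.mem_iSup_of_mem v ⟨a, ha, rfl⟩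

theorem st_le {z : α → Module.End ℂ V} {P Q : Submodule ℂ V} (h : ∀ v, ∀ a ∈ P, z v a ∈ Q) :
    st z P ≤ Q := iSup_le fun v => by
  rintro _ ⟨a, ha, rfl⟩
  exact h v a ha

/-- The word filtration, shifted by one. -/
noncomputable def fl (z : α → Module.End ℂ V) (P : Submodule ℂ V) : ℕ → Submodule ℂ V
  | 0 => ⊥
  | k + 1 => fl z P k ⊔ P ⊔ st z (fl z P k)

theorem fl_mono (z : α → Module.End ℂ V) (P : Submodule ℂ V) : Monotone (fl z P) :=
  monotone_nat_of_le_succ fun _ => le_sup_left.trans le_sup_left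

theorem fl_step {z : α → Module.End ℂ V} {P : Submodule ℂ V} (v : α) {k : ℕ} {a : V}
    (ha : a ∈ fl z P k) : z v a ∈ fl z P (k + 1) := Submodule.mem_sup_right (mem_st v ha)

theorem le_fl (z : α → Module.End ℂ V) (P : Submodule ℂ V) (k : ℕ) : P ≤ fl z P (k + 1) :=
  le_sup_right.trans le_sup_left

theorem fl_fg [Finite α] (z : α → Module.End ℂ V) {P : Submodule ℂ V} (hP : P.FG) :
    ∀ k, (fl z P k).FG
  | 0 => Submodule.fg_bot
  | k + 1 => ((fl_fg z hP k).sup hP).sup (Submodule.fg_iSup _ fun _ => (fl_fg z hP k).map _)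

theorem exists_le {P : Submodule ℂ V} (hP : P.FG) {Γ : ℕ → Submodule ℂ V} (hΓ : Monotone Γ)
    (h : ∀ z ∈ P, ∃ k, z ∈ Γ k) : ∃ k, P ≤ Γ k := by
  obtain ⟨n, hn⟩ := hP.stabilizes_of_iSup_eq ⟨fun k => P ⊓ Γ k, fun a b c =>
    inf_le_inf_left _ (hΓ c)⟩ (le_antisymm (iSup_le fun _ => inf_le_left) fun z hz =>
      (h z hz).elim fun k hk => Submodule.mem_iSup_of_mem k ⟨hz, hk⟩)
  exact ⟨n, hn.le.trans inf_le_right⟩

/-- The shifted operator on sequences. -/
noncomputable def up (T : Module.End ℂ V) : Module.End ℂ (ℕ → V) :=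
  LinearMap.pi fun k => Nat.casesOn k 0 fun k => T ∘ₗ LinearMap.proj k

theorem up_zero (T : Module.End ℂ V) (u : ℕ → V) : up T u 0 = 0 := rfl
theorem up_succ (T : Module.End ℂ V) (u : ℕ → V) (k : ℕ) : up T u (k + 1) = T (u k) := rfl

theorem up_single (T : Module.End ℂ V) (k : ℕ) (a : V) :
    up T (Pi.single k a) = Pi.single (k + 1) (T a) := by
  funext j
  cases j with
  | zero => simp [up_zero]
  | succ j => by_cases h : j = k <;> simp [up_succ, h]

/-- The induced filtration on a stable subspace is good. -/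
theorem good [Finite α] (hDESC : S_DESC) (z : α → Module.End ℂ V)
    (hc : ∀ v w, ∃ c : ℂ, ∀ a, z v (z w a) - z w (z v a) = c • a) {P Y : Submodule ℂ V} (hP : P.FG)
    (hY : ∀ v, ∀ a ∈ Y, z v a ∈ Y) : ∃ k₀, ∀ k, k₀ < k →
      Y ⊓ fl z P (k + 1) ≤ Y ⊓ fl z P k ⊔ st z (Y ⊓ fl z P k) := by
  obtain ⟨⟨V', _, _, f, hk, ho⟩, hd⟩ := hDESC (ℕ → V) (Submodule.pi Set.univ fun k => fl z P k)
    (Submodule.pi Set.univ fun k => fl z P (k + 1))
  simp only [Submodule.mem_pi, Set.mem_univ, true_imp_iff] at hk hd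
  have hL : ∀ v (u : ℕ → V), (∀ k, u k ∈ fl z P (k + 1)) → ∀ k, up (z v) u k ∈ fl z P (k + 1) :=
    fun v u hu k => Nat.casesOn k (Submodule.zero_mem _) fun k => fl_step v (hu k)
  choose T hT using fun v => hd V' f hk ho (up (z v)) (hL v) fun u _ hu k =>
    Nat.casesOn k (Submodule.zero_mem _) fun k => fl_step v (hu k)
  have hs : ∀ k, ∀ a ∈ fl z P (k + 1), ∀ j, (Pi.single k a : ℕ → V) j ∈ fl z P (j + 1) := by
    intro k a ha j
    by_cases h : j = k
    · simpa [h] using ha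
    · simp [h]
  obtain ⟨_, _, hX⟩ := exists_commModule T fun v w => LinearMap.ext fun x => by
    obtain ⟨u, hu, rfl⟩ : x ∈ Submodule.map f _ := ho ▸ Submodule.mem_top
    have hu : ∀ k, u k ∈ fl z P (k + 1) := fun k => hu k trivial
    rw [Module.End.mul_apply, Module.End.mul_apply, hT w u hu, hT v u hu, hT v _ (hL w u hu),
      hT w _ (hL v u hu), ← sub_eq_zero, ← map_sub,
      hk (up (z v) (up (z w) u) - up (z w) (up (z v) u))
        fun k => Submodule.sub_mem _ (hL v _ (hL w u hu) k) (hL w _ (hL v u hu) k)]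
    obtain ⟨c, hc⟩ := hc v w
    rintro (_ | _ | k)
    · simp [up_zero]
    · simp [up_succ, up_zero]
    · rw [Pi.sub_apply, up_succ, up_succ, up_succ, up_succ, hc]
      exact Submodule.smul_mem _ _ (fl_mono z P (by omega) (hu k))
  obtain ⟨G, rfl⟩ := hP
  set W := Submodule.span (MvPolynomial α ℂ) ((fun a => f (Pi.single 0 a)) '' (G : Set V)) with hW
  have h0 : ∀ k, ∀ a ∈ fl z (Submodule.span ℂ G) k, f (Pi.single k a) = 0 := fun k a ha =>
    (hk _ (hs k a (fl_mono _ _ k.le_succ ha))).2 fun j => by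
      by_cases h : j = k
      · simpa [h] using ha
      · simp [h]
  have hw : ∀ k, fl z (Submodule.span ℂ G) (k + 1) ≤
      (W.restrictScalars ℂ).comap (f ∘ₗ LinearMap.single ℂ (fun _ : ℕ => V) k) := by
    intro k
    induction k with
    | zero =>
      refine sup_le (sup_le bot_le (Submodule.span_le.2 fun a ha => ?_)) (st_le fun v a ha => ?_)
      · exact Submodule.subset_span (R := MvPolynomial α ℂ) ⟨a, ha, rfl⟩
      · rw [(Submodule.mem_bot ℂ).1 ha, map_zero]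
        exact Submodule.zero_mem _
    | succ k ih =>
      have h1 : fl z (Submodule.span ℂ G) (k + 1) ≤
          (W.restrictScalars ℂ).comap (f ∘ₗ LinearMap.single ℂ (fun _ : ℕ => V) (k + 1)) :=
        fun a ha => show f (Pi.single (k + 1) a) ∈ W from h0 _ a ha ▸ W.zero_mem
      refine sup_le (sup_le h1 ((le_fl _ _ k).trans h1)) (st_le fun v a ha => ?_)
      show f (Pi.single (k + 1) (z v a)) ∈ W
      rw [← up_single, ← hT v _ (hs k a ha), ← hX]
      exact W.smul_mem _ (ih ha)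
  let M : ℕ →o Submodule (MvPolynomial α ℂ) V' := ⟨fun k => Submodule.span _
    {x | ∃ j ≤ k, ∃ a ∈ Y ⊓ fl z (Submodule.span ℂ G) (j + 1), x = f (Pi.single j a)},
    fun k k' h => Submodule.span_mono fun x ⟨j, hj, ha⟩ => ⟨j, hj.trans h, ha⟩⟩
  obtain ⟨n, hn⟩ := ((Submodule.fg_span (G.finite_toSet.image _)).of_le (S := ⨆ k, M k)
    (iSup_le fun k => Submodule.span_le.2 (by
      rintro _ ⟨j, -, a, ha, rfl⟩
      exact hw j ha.2))).stabilizes_of_iSup_eq M rfl
  refine ⟨n, fun k hkn y hy => ?_⟩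
  obtain ⟨k, rfl⟩ : ∃ k', k = k' + 1 := ⟨k - 1, by omega⟩
  let K : Submodule ℂ (ℕ → V) := (Submodule.pi Set.univ fun j =>
    Y ⊓ fl z (Submodule.span ℂ G) (j + 1)) ⊓
      (st z (Y ⊓ fl z (Submodule.span ℂ G) (k + 1))).comap (LinearMap.proj (k + 1))
  have hK : ∀ p : MvPolynomial α ℂ, ∀ x ∈ K.map f, p • x ∈ K.map f := smul_mem_of_X (by
    rintro v _ ⟨u, ⟨h1, -⟩, rfl⟩
    have hu := fun j => h1 j trivial
    rw [hX, hT v u fun j => (hu j).2]
    exact ⟨_, ⟨fun j _ => Nat.casesOn j (Submodule.zero_mem _) fun j =>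
      ⟨hY v _ (hu j).1, fl_step v (hu j).2⟩, mem_st v (hu k)⟩, rfl⟩)
  have hM : ∀ x ∈ M n, x ∈ K.map f := fun x hx => by
    induction hx using Submodule.span_induction with
    | mem x hx =>
      obtain ⟨j, hj, a, ha, rfl⟩ := hx
      refine ⟨_, ⟨fun i _ => ?_, ?_⟩, rfl⟩
      · by_cases h : i = j
        · simpa [h] using ha
        · simp [h]
      · simp [show k + 1 ≠ j by omega]
    | zero => exact Submodule.zero_mem _
    | add x y _ _ a b => exact Submodule.add_mem _ a b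
    | smul p x _ a => exact hK p x a
  obtain ⟨u, ⟨h1, h2⟩, h3⟩ := hM (f (Pi.single (k + 1) y))
    (hn ▸ Submodule.mem_iSup_of_mem (k + 1) (Submodule.subset_span ⟨k + 1, le_rfl, y, hy, rfl⟩))
  have h4 := (hk (Pi.single (k + 1) y - u) fun j =>
    Submodule.sub_mem _ (hs _ y hy.2 j) (h1 j trivial).2).1 (by rw [map_sub, h3, sub_self]) (k + 1)
  rw [Pi.sub_apply, Pi.single_eq_same] at h4
  rw [← sub_add_cancel y (u (k + 1))]
  exact Submodule.add_mem_sup ⟨Y.sub_mem hy.1 (h1 _ trivial).1, h4⟩ h2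

theorem comm {ι : Type} {N : WM ι} (h : N.IsW) (v w : ι ⊕ ι) : ∃ c : ℂ, ∀ a,
    Sum.elim N.X N.D v (Sum.elim N.X N.D w a) - Sum.elim N.X N.D w (Sum.elim N.X N.D v a) =
      c • a := by
  have k : ∀ s t, ∃ c : ℂ, ∀ a, N.D s (N.X t a) - N.X t (N.D s a) = c • a := fun s t => by
    by_cases e : s = t
    · subst e
      exact ⟨1, fun a => by simpa using LinearMap.congr_fun (h.2.2.1 s) a⟩
    · exact ⟨0, fun a => by simpa [sub_eq_zero] using LinearMap.congr_fun (h.2.2.2 s t e) a⟩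
  rcases v with s | s <;> rcases w with t | t
  · exact ⟨0, fun a => by simpa [sub_eq_zero] using LinearMap.congr_fun (h.1 s t) a⟩
  · obtain ⟨c, hc⟩ := k t s
    exact ⟨-c, fun a => by rw [neg_smul, ← hc, neg_sub]; rfl⟩
  · exact k s t
  · exact ⟨0, fun a => by simpa [sub_eq_zero] using LinearMap.congr_fun (h.2.1 s t) a⟩

theorem main (hRK : S_RK) (hLEN : S_LEN) (hDESC : S_DESC) {ι : Type} [Finite ι] (N : WM ι)
    (B Y Z : Submodule ℂ N.V) (H₁ : Hol Set.univ N B Y) (H₂ : Hol Set.univ N Y Z) :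
    Hol Set.univ N B Z := by
  obtain ⟨G, hG, eZ⟩ := (hLEN ι N Y Z H₂).2.2.2
  obtain ⟨hW, l1, sB, sY, Γ, c, m, b, s, x, r⟩ := H₁
  obtain ⟨-, l2, -, sZ, Γ', c', m', b', s', x', r'⟩ := H₂
  obtain ⟨r1, r2, r3, -⟩ := hRK N.V
  have hP : (Submodule.span ℂ (G : Set N.V)).FG := ⟨G, rfl⟩
  have sum : ∀ {P Q : Submodule ℂ N.V}, (∀ s ∈ Set.univ, ∀ v ∈ P, N.X s v ∈ Q ∧ N.D s v ∈ Q) →
      ∀ v, ∀ a ∈ P, Sum.elim N.X N.D v a ∈ Q := fun h v a ha =>
    Sum.rec (fun s => (h s trivial a ha).1) (fun s => (h s trivial a ha).2) v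
  obtain ⟨k₀, h0⟩ := good hDESC (Sum.elim N.X N.D) (comm hW) hP (sum sY)
  set F := fl (Sum.elim N.X N.D) (Submodule.span ℂ (G : Set N.V)) with hF
  obtain ⟨k₁, h1⟩ := exists_le (P := Y ⊓ F (k₀ + 1))
    ((fl_fg _ hP _).of_le inf_le_right) m fun z hz => x z hz.1
  obtain ⟨k₂, h2⟩ := exists_le hP m' fun z hz => x' z (Submodule.span_le.2 hG hz)
  have mF : Monotone F := fl_mono _ _
  have e1 : ∀ k, Y ⊓ F k ≤ Γ (k + k₁) := by
    intro k
    induction k with
    | zero => exact inf_le_right.trans bot_le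
    | succ k ih =>
      by_cases h : k₀ < k
      · refine (h0 k h).trans (sup_le (ih.trans (m (by omega))) (st_le fun v a ha => ?_))
        rw [add_right_comm]
        exact sum (s _) v a (ih ha)
      · exact (inf_le_inf_left _ (mF (by omega))).trans (h1.trans (m (by omega)))
  have e2 : ∀ k, F k ≤ Γ' (k + k₂) := by
    intro k
    induction k with
    | zero => exact bot_le
    | succ k ih =>
      refine sup_le (sup_le (ih.trans (m' (by omega))) (h2.trans (m' (by omega))))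
        (st_le fun v a ha => ?_)
      rw [add_right_comm]
      exact sum (s' _) v a (ih ha)
  refine ⟨hW, l1.trans l2, sB, sZ, fun k => F k ⊔ Γ (k + k₁),
    c * (k₁ + 1) ^ (Set.univ : Set ι).ncard + c' * (k₂ + 1) ^ (Set.univ : Set ι).ncard,
    fun i j h => sup_le_sup (mF h) (m (by omega)), fun k => ⟨le_sup_of_le_right (b _).1,
      sup_le ((e2 k).trans (b' _).2) ((b _).2.trans l2)⟩, fun k t _ v hv => ?_, fun z hz => ?_,
    fun k => ?_⟩
  · obtain ⟨p, hp, q, hq, rfl⟩ := Submodule.mem_sup.1 hv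
    simp only [map_add, add_right_comm k 1 k₁]
    exact ⟨Submodule.add_mem_sup (fl_step (Sum.inl t) hp) (s _ t trivial q hq).1,
      Submodule.add_mem_sup (fl_step (Sum.inr t) hp) (s _ t trivial q hq).2⟩
  · obtain ⟨p, hp, q, hq, rfl⟩ := Submodule.mem_sup.1 (eZ ▸ hz)
    obtain ⟨i, hi⟩ := x p hp
    have hi' := fun a => Submodule.mem_iSup_of_chain ⟨F, mF⟩ a
    obtain ⟨j, hj⟩ := (hi' q).1 (gen_le (fun g hg => (hi' g).2
      ⟨1, le_fl _ _ 0 (Submodule.subset_span hg)⟩) (by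
        rintro _ (⟨t, rfl⟩ | ⟨t, rfl⟩) v hv <;> obtain ⟨k, hk⟩ := (hi' v).1 hv
        exacts [(hi' _).2 ⟨k + 1, fl_step (Sum.inl t) hk⟩,
          (hi' _).2 ⟨k + 1, fl_step (Sum.inr t) hk⟩]) hq)
    exact ⟨i + j, add_comm q p ▸ Submodule.add_mem_sup (mF (by omega : j ≤ i + j) hj)
      (m (by omega) hi)⟩
  · have n : ∀ (a n : ℕ), (k + a + 1) ^ n ≤ (a + 1) ^ n * (k + 1) ^ n := fun a n => by
      rw [← mul_pow]
      exact Nat.pow_le_pow_left (by nlinarith [Nat.zero_le (a * k)]) n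
    rw [r1 B (Γ (k + k₁)) _ (b _).1 le_sup_right, (r3 _ _).1, ← (r3 _ (F k)).2.1, add_mul,
      Nat.cast_add]
    refine add_le_add ((r _).trans ?_) ((r2 _ (Y ⊓ F k) _ _ (le_inf (e1 k) inf_le_right)
      le_rfl).trans ?_)
    · rw [mul_assoc]
      exact Nat.cast_le.2 (Nat.mul_le_mul_left _ (n _ _))
    · rw [(r3 _ _).2.1, mul_assoc]
      exact (r2 _ _ _ _ le_rfl (e2 k)).trans ((r' _).trans
        (Nat.cast_le.2 (Nat.mul_le_mul_left _ (n _ _))))

end ExtAux

theorem p_EXT (hRK : S_RK) (hHSUB : S_HSUB) (hLEN : S_LEN) (hNORD : S_NORD) (hPISO : S_PISO)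
    (hDESC : S_DESC) : S_EXT := by
  intro ι _ S N B Y Z H₁ H₂
  have e := fun P Q => (hHSUB ι S).2.2.2.1 S Subtype.val Set.univ N P Q Subtype.val_injective H₁.1
  simp only [Set.image_univ, Subtype.range_coe] at e
  exact (e B Z).2 (ExtAux.main hRK hLEN hDESC (N.res (Subtype.val : S → ι)) B Y Z ((e B Y).1 H₁) ((e Y Z).1 H₂))

end Pool.Agent.P.MP_52ab5a_al
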