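import Pool.Agent.P.MP_52ab5a_al.A.Iface

/-! Step FONE of the open orbit project. -/

namespace Pool.Agent.P.MP_52ab5a_al

open MvPolynomial WM

namespace FoneAux

variable {σ : Type} {M : WM σ} {P : Module.End ℂ M.V}

theorem st_ker (hP : ∀ s, P * M.X s = M.X s * P ∧ P * M.D s = M.D s * P) {B Z : Submodule ℂ M.V}
    (hB : M.Stable B) (hZ : M.Stable Z) : M.Stable (Z ⊓ B.comap P) := by
  intro s v hv
  refine ⟨⟨(hZ s v hv.1).1, ?_⟩, (hZ s v hv.1).2, ?_⟩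
  · show P (M.X s v) ∈ B
    rw [← Module.End.mul_apply, (hP s).1]
    exact (hB s _ hv.2).1
  · show P (M.D s v) ∈ B
    rw [← Module.End.mul_apply, (hP s).2]
    exact (hB s _ hv.2).2

theorem st_im (hP : ∀ s, P * M.X s = M.X s * P ∧ P * M.D s = M.D s * P) {B Z : Submodule ℂ M.V}
    (hB : M.Stable B) (hZ : M.Stable Z) : M.Stable (B ⊔ Z.map P) := by
  intro s v hv
  obtain ⟨b, hb, _, ⟨z, hz, rfl⟩, rfl⟩ := Submodule.mem_sup.1 hv
  constructor
  · rw [map_add, ← Module.End.mul_apply, ← (hP s).1]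
    exact Submodule.add_mem_sup (hB s b hb).1 ⟨_, (hZ s z hz).1, rfl⟩
  · rw [map_add, ← Module.End.mul_apply, ← (hP s).2]
    exact Submodule.add_mem_sup (hB s b hb).2 ⟨_, (hZ s z hz).2, rfl⟩

theorem iso_P (hP : ∀ s, P * M.X s = M.X s * P ∧ P * M.D s = M.D s * P) {B U Z : Submodule ℂ M.V}
    (hB : M.Stable B) (hU : M.Stable U) (hZ : M.Stable Z) (hUZ : U ≤ Z)
    (hK : Z ⊓ B.comap P ≤ U) : PIso Set.univ M (Z ⊓ B.comap P) U M B (B ⊔ U.map P) := by
  refine ⟨P, hK, (stOn_univ _ _).2 (st_ker hP hB hZ), (stOn_univ _ _).2 hU, le_sup_left,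
    (stOn_univ _ _).2 hB, (stOn_univ _ _).2 (st_im hP hB hU), fun z hz => ?_, fun z hz => ?_,
    (sup_comm _ _).le, fun s _ z _ => ⟨?_, ?_⟩⟩
  · exact Submodule.mem_sup_right ⟨z, hz, rfl⟩
  · exact ⟨fun h => ⟨hUZ hz, h⟩, fun h => h.2⟩
  · rw [← Module.End.mul_apply, (hP s).1, Module.End.mul_apply, sub_self]
    exact B.zero_mem
  · rw [← Module.End.mul_apply, (hP s).2, Module.End.mul_apply, sub_self]
    exact B.zero_mem

theorem hol_U [Finite σ] (hPISO : S_PISO) (hHSUB : S_HSUB) (hEXT : S_EXT)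
    (hP : ∀ s, P * M.X s = M.X s * P ∧ P * M.D s = M.D s * P) {B U Z K : Submodule ℂ M.V}
    (hU : M.Stable U) (hZ : M.Stable Z) (hUZ : U ≤ Z) (hK : Z ⊓ B.comap P ≤ U)
    (h1 : Hol Set.univ M B (Z ⊓ B.comap P)) (h2 : Hol Set.univ M B K) (h3 : U.map P ≤ K) :
    Hol Set.univ M B U := by
  have hB : M.Stable B := (stOn_univ _ _).1 h1.2.2.1
  have h4 := ((hHSUB σ Set.univ).1 M B (B ⊔ U.map P) K h2 le_sup_left (sup_le h2.2.1 h3)
    ((stOn_univ _ _).2 (st_im hP hB hU))).1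
  have h5 := (hPISO σ Set.univ).2.1 _ _ _ _ _ _ (iso_P hP hB hU hZ hUZ hK)
  exact hEXT σ Set.univ M B _ U h1 ((hHSUB σ Set.univ).2.1 _ _ _ _ _ _ h4 h1.1 h5)

theorem index_eq (hPISO : S_PISO) (hHSUB : S_HSUB) {φ : Fn σ} (hφ : Additive φ)
    (hP : ∀ s, P * M.X s = M.X s * P ∧ P * M.D s = M.D s * P) {B U W Z : Submodule ℂ M.V}
    (hZ : M.Stable Z) (hUZ : U ≤ Z) (hK : Z ⊓ B.comap P ≤ U) (hPB : B ≤ Z ⊓ B.comap P)
    (hU : Hol Set.univ M B U) (hW : Hol Set.univ M B W) (h1 : B ⊔ Z.map P ⊔ W = Z)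
    (h2 : (B ⊔ Z.map P) ⊓ W = B ⊔ U.map P) :
    iter φ M [P] B Z = φ M B U - φ M B W := by
  have sB : M.Stable B := (stOn_univ _ _).1 hU.2.2.1
  have sU : M.Stable U := (stOn_univ _ _).1 hU.2.2.2.1
  have sK := st_ker hP sB hZ
  have sI := st_im hP sB sU
  have hI : B ⊔ U.map P ≤ W := h2 ▸ inf_le_right
  have e1 := hφ.add M B _ U hU hPB hK sK
  have e2 := hφ.iso M _ U M B _
    ((hHSUB σ Set.univ).1 M B _ U hU hPB hK ((stOn_univ _ _).2 sK)).2 hU.1 (iso_P hP sB sU hZ hUZ hK)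
  have e3 := hφ.add M B _ W hW le_sup_left hI sI
  have e4 := (hPISO σ Set.univ).2.2.2.1 M (B ⊔ Z.map P) W ((stOn_univ _ _).2 (st_im hP sB hZ))
    hW.2.2.2.1
  rw [h1, h2] at e4
  have e5 := hφ.iso M _ W M _ Z
    ((hHSUB σ Set.univ).1 M B _ W hW le_sup_left hI ((stOn_univ _ _).2 sI)).2 hU.1 e4
  show φ M B (Z ⊓ B.comap P) - φ M (B ⊔ Z.map P) Z = _
  omega

section Eig

variable {V : Type} [AddCommGroup V] [Module ℂ V]

/-- Eigenvectors modulo `B`. -/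
def eig (T : Module.End ℂ V) (B Z : Submodule ℂ V) (a : ℂ) : Submodule ℂ V :=
  Z ⊓ B.comap (T - a • (1 : Module.End ℂ V))

theorem mem_eig {T : Module.End ℂ V} {B Z : Submodule ℂ V} {a : ℂ} {v : V} :
    v ∈ eig T B Z a ↔ v ∈ Z ∧ T v - a • v ∈ B := Iff.rfl

theorem indep {T : Module.End ℂ V} {B Z : Submodule ℂ V} (hB : ∀ v ∈ B, T v ∈ B) (a : ℂ) {v w : V}
    (hv : v ∈ eig T B Z a) (hw : w ∈ ⨆ b, ⨆ _ : b ≠ a, eig T B Z b) (h : v - w ∈ B) : v ∈ B := by
  let T' : Module.End ℂ (V ⧸ B) := B.mapQ B T hB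
  have h1 : ∀ b, ∀ u ∈ eig T B Z b, B.mkQ u ∈ T'.eigenspace b := by
    intro b u hu
    rw [Module.End.mem_eigenspace_iff, ← map_smul]
    exact (Submodule.Quotient.eq B).2 hu.2
  have h2 : B.mkQ w ∈ ⨆ b, ⨆ _ : b ≠ a, T'.eigenspace b := by
    have h3 : (⨆ b, ⨆ _ : b ≠ a, eig T B Z b) ≤
        (⨆ b, ⨆ _ : b ≠ a, T'.eigenspace b).comap B.mkQ :=
      iSup₂_le fun b hb u hu => Submodule.mem_iSup_of_mem b (Submodule.mem_iSup_of_mem hb (h1 b u hu))
    exact h3 hw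
  have h4 : B.mkQ v = B.mkQ w := (Submodule.Quotient.eq B).2 h
  have h5 := (Submodule.disjoint_def.1 (T'.eigenspaces_iSupIndep a)) _ (h1 a v hv) (h4 ▸ h2)
  exact (Submodule.Quotient.mk_eq_zero B).1 h5

theorem split {T : Module.End ℂ V} {B Z : Submodule ℂ V} (h : Z ≤ ⨆ a, eig T B Z a) (a : ℂ) :
    Z ≤ eig T B Z a ⊔ ⨆ b, ⨆ _ : b ≠ a, eig T B Z b :=
  h.trans (iSup_split_single _ a).le

/-- `P` shifts the eigenvalues by `c` and is onto outside the eigenvalue `a + c`. -/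
theorem coker {T P Q : Module.End ℂ V} {B Z : Submodule ℂ V} (hBZ : B ≤ Z) (hB : ∀ v ∈ B, T v ∈ B)
    (h : Z ≤ ⨆ a, eig T B Z a) (a c : ℂ) (hPZ : ∀ v ∈ Z, P v ∈ Z) (hQZ : ∀ v ∈ Z, Q v ∈ Z)
    (hP : ∀ b, ∀ v ∈ eig T B Z b, P v ∈ eig T B Z (b + c))
    (hPQ : ∀ v, P (Q v) = T v - (a + c) • v) :
    B ⊔ Z.map P ⊔ eig T B Z (a + c) = Z ∧
      (B ⊔ Z.map P) ⊓ eig T B Z (a + c) = B ⊔ (eig T B Z a).map P := by
  have hBe : ∀ b, B ≤ eig T B Z b := fun b v hv => ⟨hBZ hv, B.sub_mem (hB v hv) (B.smul_mem b hv)⟩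
  refine ⟨le_antisymm (sup_le (sup_le hBZ ?_) inf_le_left) ?_, le_antisymm ?_ ?_⟩
  · rintro _ ⟨v, hv, rfl⟩
    exact hPZ v hv
  · refine (split h (a + c)).trans (sup_le le_sup_right (iSup₂_le fun b hb v hv => ?_))
    have h1 : (b - (a + c)) • v ∈ B ⊔ Z.map P := by
      have h2 : (b - (a + c)) • v = -(T v - b • v) + P (Q v) := by
        rw [hPQ, sub_smul]; abel
      rw [h2]
      exact Submodule.add_mem_sup (B.neg_mem hv.2) ⟨_, hQZ v hv.1, rfl⟩
    exact Submodule.mem_sup_left ((Submodule.smul_mem_iff _ (sub_ne_zero.2 hb)).1 h1)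
  · rintro v ⟨hv, hv'⟩
    obtain ⟨b, hb, _, ⟨z, hz, rfl⟩, rfl⟩ := Submodule.mem_sup.1 hv
    obtain ⟨z₀, hz₀, z₁, hz₁, rfl⟩ := Submodule.mem_sup.1 (split h a hz)
    have h1 : P z₁ ∈ ⨆ b, ⨆ _ : b ≠ a + c, eig T B Z b := by
      have h3 : (⨆ b, ⨆ _ : b ≠ a, eig T B Z b) ≤
          (⨆ b, ⨆ _ : b ≠ a + c, eig T B Z b).comap P :=
        iSup₂_le fun b hb u hu => Submodule.mem_iSup_of_mem (b + c)
          (Submodule.mem_iSup_of_mem (fun h => hb (add_right_cancel h)) (hP b u hu))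
      exact h3 hz₁
    have h2 : b + P (z₀ + z₁) - P z₀ ∈ B := by
      refine indep hB (a + c) (Submodule.sub_mem _ hv' (hP a z₀ hz₀)) h1 ?_
      have : b + P (z₀ + z₁) - P z₀ - P z₁ = b := by rw [map_add]; abel
      rwa [this]
    have h3 : b + P (z₀ + z₁) = (b + P (z₀ + z₁) - P z₀) + P z₀ := by abel
    rw [h3]
    exact Submodule.add_mem_sup h2 ⟨z₀, hz₀, rfl⟩
  · refine sup_le (le_inf le_sup_left (hBe _)) (le_inf ?_ ?_)
    · exact (Submodule.map_mono inf_le_left).trans le_sup_right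
    · rintro _ ⟨v, hv, rfl⟩
      exact hP a v hv

end Eig

theorem hol_congr {ι : Type} (N : WM ι) {X₁ D₁ X₂ D₂ : σ → Module.End ℂ N.V} (hX : X₁ = X₂)
    (hD : D₁ = D₂) {B Z : Submodule ℂ N.V} (h : Hol Set.univ (N.ops X₁ D₁) B Z) :
    Hol Set.univ (N.ops X₂ D₂) B Z := by
  subst hX hD
  exact h

theorem hol_ker {ι : Type} [Finite ι] (hHSUB : S_HSUB) (hRED : S_RED) {r : σ → ι} {t : ι}
    {N : WM ι} {B Z : Submodule ℂ N.V} (hr : Function.Injective r) (ht : t ∉ Set.range r)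
    (h : Hol (Set.range r ∪ {t}) N B Z) :
    Hol Set.univ (N.res r) B (Z ⊓ B.comap (N.D t)) := by
  have h1 := (hRED ι _ N B Z h t (Or.inr rfl)).1
  rw [Set.union_sdiff_right, Set.sdiff_singleton_eq_self ht, ← Set.image_univ] at h1
  exact ((hHSUB ι Set.univ).2.2.2.1 σ r Set.univ N B _ hr h.1).1 h1

theorem hol_kerX {ι : Type} [Finite ι] (hHSUB : S_HSUB) (hRED : S_RED) {r : σ → ι} {t : ι}
    {N : WM ι} {B Z : Submodule ℂ N.V} (hr : Function.Injective r) (ht : t ∉ Set.range r)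
    (h : Hol (Set.range r ∪ {t}) N B Z) :
    Hol Set.univ (N.res r) B (Z ⊓ B.comap (N.X t)) := by
  classical
  obtain ⟨w1, w2, w3, w4⟩ := h.1
  have hW : (N.ops (fun s => if s = t then -N.D t else N.X s)
      fun s => if s = t then N.X t else N.D s).IsW := by
    refine ⟨fun s u => ?_, fun s u => ?_, fun s => ?_, fun s u hsu => ?_⟩
    · dsimp only
      split_ifs with h1 h2 h2
      · rfl
      · exact ((show Commute (N.D t) (N.X u) from w4 t u (Ne.symm h2)).neg_left).eq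
      · exact ((show Commute (N.D t) (N.X s) from w4 t s (Ne.symm h1)).neg_left).eq.symm
      · exact w1 s u
    · dsimp only
      split_ifs with h1 h2 h2
      · rfl
      · exact (w4 u t h2).symm
      · exact w4 s t h1
      · exact w2 s u
    · dsimp only
      split_ifs with h1
      · rw [← w3 t]
        noncomm_ring
      · exact w3 s
    · dsimp only
      split_ifs with h1 h2 h2
      · exact absurd (h1.trans h2.symm) hsu
      · exact w1 t u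
      · exact ((show Commute (N.D s) (N.D t) from w2 s t).neg_right).eq
      · exact w4 s u hsu
  have h1 := (hHSUB ι (Set.range r ∪ {t})).2.2.2.2.2 N _ _ B Z hW (fun s hs => by
    have hX : N.X s ∈ Submodule.span ℂ (insert 1 (N.X '' (Set.range r ∪ {t}) ∪
        N.D '' (Set.range r ∪ {t}))) := Submodule.subset_span (Or.inr (Or.inl ⟨s, hs, rfl⟩))
    have hD : N.D s ∈ Submodule.span ℂ (insert 1 (N.X '' (Set.range r ∪ {t}) ∪
        N.D '' (Set.range r ∪ {t}))) := Submodule.subset_span (Or.inr (Or.inr ⟨s, hs, rfl⟩))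
    by_cases h1 : s = t
    · subst h1
      simp only [if_true]
      exact ⟨Submodule.neg_mem _ hD, hX⟩
    · simp only [if_neg h1]
      exact ⟨hX, hD⟩) h
  have h2 := hol_ker hHSUB hRED hr ht h1
  have h3 : ∀ s, r s ≠ t := fun s hs => ht ⟨s, hs⟩
  have h4 : Hol Set.univ (N.ops (fun s => if r s = t then -N.D t else N.X (r s))
      fun s => if r s = t then N.X t else N.D (r s)) B
      (Z ⊓ B.comap (if t = t then N.X t else N.D t)) := h2
  rw [if_pos rfl] at h4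
  exact hol_congr N (funext fun s => if_neg (h3 s)) (funext fun s => if_neg (h3 s)) h4

end FoneAux

open FoneAux

set_option linter.unusedVariables false in
theorem p_FONE (hPISO : S_PISO) (hHSUB : S_HSUB) (hRED : S_RED) (hDIAG : S_DIAG) (hEXT : S_EXT) :
    S_FONE := by
  intro σ ι _ r t φ N B Z hφ hr ht h hZ
  have : Finite σ := Finite.of_injective r hr
  obtain ⟨w1, w2, w3, w4⟩ := h.1
  have h3 : ∀ s, r s ≠ t := fun s hs => ht ⟨s, hs⟩
  have hBZ := h.2.1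
  have tB := h.2.2.1 t (Or.inr rfl)
  have tZ := h.2.2.2.1 t (Or.inr rfl)
  have sB : (N.res r).Stable B := fun s => h.2.2.1 (r s) (Or.inl ⟨s, rfl⟩)
  have sZ : (N.res r).Stable Z := fun s => h.2.2.2.1 (r s) (Or.inl ⟨s, rfl⟩)
  have cD : ∀ s, N.D t * (N.res r).X s = (N.res r).X s * N.D t ∧
      N.D t * (N.res r).D s = (N.res r).D s * N.D t := fun s => ⟨w4 _ _ (h3 s).symm, w2 _ _⟩
  have cX : ∀ s, N.X t * (N.res r).X s = (N.res r).X s * N.X t ∧
      N.X t * (N.res r).D s = (N.res r).D s * N.X t := fun s => ⟨w1 _ _, (w4 _ _ (h3 s)).symm⟩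
  have hDX : ∀ v, N.D t (N.X t v) = N.X t (N.D t v) + v := by
    intro v
    have h1 := LinearMap.congr_fun (w3 t) v
    simp only [LinearMap.sub_apply, Module.End.mul_apply, Module.End.one_apply] at h1
    exact eq_add_of_sub_eq' h1
  set T := N.X t * N.D t with hT
  have hTv : ∀ v, T v = N.X t (N.D t v) := fun v => rfl
  have hTB : ∀ v ∈ B, T v ∈ B := fun v hv => (tB _ (tB v hv).2).1
  have sE : ∀ a : ℂ, (N.res r).Stable (eig T B Z a) := by
    intro a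
    refine st_ker (M := N.res r) (P := T - a • (1 : Module.End ℂ N.V)) (fun s => ⟨?_, ?_⟩) sB sZ
    · exact (((show Commute (N.X t) _ from (cX s).1).mul_left
        (show Commute (N.D t) _ from (cD s).1)).sub_left ((Commute.one_left _).smul_left a)).eq
    · exact (((show Commute (N.X t) _ from (cX s).2).mul_left
        (show Commute (N.D t) _ from (cD s).2)).sub_left ((Commute.one_left _).smul_left a)).eq
  have kD : Z ⊓ B.comap (N.D t) ≤ eig T B Z 0 := fun v hv =>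
    mem_eig.2 ⟨hv.1, by rw [zero_smul, sub_zero]; exact (tB _ hv.2).1⟩
  have kX : Z ⊓ B.comap (N.X t) ≤ eig T B Z (-1) := fun v hv =>
    mem_eig.2 ⟨hv.1, by rw [neg_smul, one_smul, sub_neg_eq_add, hTv, ← hDX]; exact (tB _ hv.2).2⟩
  have iD : (eig T B Z 0).map (N.D t) ≤ Z ⊓ B.comap (N.X t) := by
    rintro _ ⟨v, hv, rfl⟩
    have h1 := (mem_eig.1 hv).2
    rw [zero_smul, sub_zero] at h1
    exact ⟨(tZ v hv.1).2, h1⟩
  have iX : (eig T B Z (-1)).map (N.X t) ≤ Z ⊓ B.comap (N.D t) := by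
    rintro _ ⟨v, hv, rfl⟩
    have h1 := (mem_eig.1 hv).2
    rw [neg_smul, one_smul, sub_neg_eq_add, hTv, ← hDX] at h1
    exact ⟨(tZ v hv.1).1, h1⟩
  have hD := hol_ker hHSUB hRED hr ht h
  have hX := hol_kerX hHSUB hRED hr ht h
  have h0 := hol_U (M := N.res r) hPISO hHSUB hEXT cD (sE 0) sZ inf_le_left kD hD hX iD
  have h1 := hol_U (M := N.res r) hPISO hHSUB hEXT cX (sE (-1)) sZ inf_le_left kX hX hD iX
  have qD := coker (T := T) (P := N.D t) (Q := N.X t) hBZ hTB hZ 0 (-1) (fun v hv => (tZ v hv).2)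
    (fun v hv => (tZ v hv).1) (fun b v hv => mem_eig.2 ⟨(tZ v hv.1).2, by
      have h2 : T (N.D t v) - (b + -1) • N.D t v = N.D t (T v - b • v) := by
        rw [map_sub, map_smul, hTv, hTv, hDX, add_smul, neg_smul, one_smul]; abel
      rw [h2]
      exact (tB _ (mem_eig.1 hv).2).2⟩) (fun v => by rw [hDX, hTv]; simp)
  have qX := coker (T := T) (P := N.X t) (Q := N.D t) hBZ hTB hZ (-1) 1 (fun v hv => (tZ v hv).1)
    (fun v hv => (tZ v hv).2) (fun b v hv => mem_eig.2 ⟨(tZ v hv.1).1, by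
      have h2 : T (N.X t v) - (b + 1) • N.X t v = N.X t (T v - b • v) := by
        rw [map_sub, map_smul, hTv, hTv, hDX, map_add, add_smul, one_smul]; abel
      rw [h2]
      exact (tB _ (mem_eig.1 hv).2).1⟩) (fun v => by rw [hTv]; simp)
  rw [zero_add] at qD
  rw [neg_add_cancel] at qX
  rw [index_eq (M := N.res r) hPISO hHSUB hφ cD sZ inf_le_left kD hD.2.1 h0 h1 qD.1 qD.2,
    index_eq (M := N.res r) hPISO hHSUB hφ cX sZ inf_le_left kX hX.2.1 h1 h0 qX.1 qX.2]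
  exact (neg_sub _ _).symm

end Pool.Agent.P.MP_52ab5a_al
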