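import Pool.Agent.P.MP_52ab5a_al.A.Iface

/-! Step FOUR of the open orbit project. -/

namespace Pool.Agent.P.MP_52ab5a_al

open MvPolynomial
open WM

namespace FourAux

theorem comp_mem {V : Type} [AddCommGroup V] [Module ℂ V] (T : Module.End ℂ V)
    (Y : Submodule ℂ V) (hY : ∀ v ∈ Y, T v ∈ Y) (s : Finset ℂ) :
    ∀ c : ℂ → V, (∀ a ∈ s, T (c a) - a • c a ∈ Y) → ∑ a ∈ s, c a ∈ Y → ∀ a ∈ s, c a ∈ Y := by
  classical
  induction s using Finset.induction_on with
  | empty => intro c _ _ a ha; simp at ha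
  | insert b s hb ih =>
    intro c hc hs
    have key : ∀ a ∈ s, c a ∈ Y := by
      have h1 : ∑ a ∈ insert b s, (a - b) • c a ∈ Y := by
        have e : ∑ a ∈ insert b s, (a - b) • c a =
            (T (∑ a ∈ insert b s, c a) - b • ∑ a ∈ insert b s, c a) -
              ∑ a ∈ insert b s, (T (c a) - a • c a) := by
          rw [map_sum, Finset.smul_sum, ← Finset.sum_sub_distrib, ← Finset.sum_sub_distrib]
          refine Finset.sum_congr rfl fun a _ => ?_
          rw [sub_smul]; abel
        rw [e]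
        exact Y.sub_mem (Y.sub_mem (hY _ hs) (Y.smul_mem _ hs)) (Y.sum_mem hc)
      rw [Finset.sum_insert hb, sub_self, zero_smul, zero_add] at h1
      have h2 := ih (fun a => (a - b) • c a) (fun a ha => by
        have := Y.smul_mem (a - b) (hc a (Finset.mem_insert_of_mem ha))
        rw [smul_sub, smul_comm (a - b) a] at this
        simpa only [map_smul] using this) h1
      intro a ha
      have hab : a - b ≠ 0 := sub_ne_zero.2 fun h => hb (h ▸ ha)
      exact (Y.smul_mem_iff hab).1 (h2 a ha)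
    intro a ha
    rcases Finset.mem_insert.1 ha with rfl | ha
    · rw [Finset.sum_insert hb] at hs
      have := Y.sub_mem hs (Y.sum_mem key)
      simpa using this
    · exact key a ha

/-- The Euler operator of a list of variables. -/
noncomputable def eul {ι : Type} (M : WM ι) (c : ι → ℂ) (l : List ι) : Module.End ℂ M.V :=
  (l.map fun i => c i • (M.X i * M.D i)).sum

theorem eul_cons {ι : Type} (M : WM ι) (c : ι → ℂ) (i : ι) (l : List ι) (v : M.V) :
    eul M c (i :: l) v = c i • M.X i (M.D i v) + eul M c l v := by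
  simp [eul]

theorem eul_mem {ι : Type} (M : WM ι) (c : ι → ℂ) (S : Set ι) (Y : Submodule ℂ M.V)
    (hY : StOn S M Y) (l : List ι) (hl : ∀ i ∈ l, i ∈ S) : ∀ v ∈ Y, eul M c l v ∈ Y := by
  induction l with
  | nil => intro v _; simp [eul]
  | cons i l ih =>
    intro v hv
    rw [eul_cons]
    have hi := hl i List.mem_cons_self
    exact Y.add_mem (Y.smul_mem _ (hY i hi _ (hY i hi v hv).2).1)
      (ih (fun j hj => hl j (List.mem_cons_of_mem _ hj)) v hv)

theorem mem_piece {V : Type} [AddCommGroup V] [Module ℂ V] (T : Module.End ℂ V)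
    (B Z : Submodule ℂ V) (a : ℂ) (v : V) :
    v ∈ Z ⊓ B.comap (T - a • (1 : Module.End ℂ V)) ↔ v ∈ Z ∧ T v - a • v ∈ B := by
  simp [Submodule.mem_inf, Submodule.mem_comap]

theorem key (hRED : S_RED) (hFONE : S_FONE) {σ ι : Type} [Finite ι] (r : σ → ι)
    (hr : Function.Injective r) (φ : Fn σ) (hφ : Additive φ) (M : WM ι) (c : ι → ℂ) (t : ι)
    (hc : c t ≠ 0) (l : List ι) : (l ++ [t]).Nodup → (∀ s ∈ l ++ [t], s ∉ Set.range r) →
    ∀ B Z : Submodule ℂ M.V, Hol (Set.range r ∪ {s | s ∈ l ++ [t]}) M B Z →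
      Z ≤ (⨆ a : ℂ, Z ⊓ B.comap (eul M c (l ++ [t]) - a • (1 : Module.End ℂ M.V))) →
      iter φ (M.res r) (l.map M.D ++ [M.D t]) B Z =
        -iter φ (M.res r) (l.map M.D ++ [M.X t]) B Z := by
  induction l with
  | nil =>
    intro _ hl B Z hH hE
    have hS : (Set.range r ∪ {s | s ∈ ([] : List ι) ++ [t]}) = Set.range r ∪ {t} := by
      ext s; simp
    rw [hS] at hH
    refine hFONE σ ι r t φ M B Z hφ hr (hl t (by simp)) hH (hE.trans (iSup_le fun a => ?_))
    refine le_trans ?_ (le_iSup _ (a / c t))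
    intro v hv
    rw [mem_piece] at hv ⊢
    refine ⟨hv.1, ?_⟩
    have h2 := hv.2
    rw [List.nil_append, eul_cons] at h2
    have e : c t • ((M.X t * M.D t) v - (a / c t) • v) =
        c t • M.X t (M.D t v) + eul M c [] v - a • v := by
      rw [smul_sub, smul_smul, mul_div_cancel₀ _ hc]
      simp [eul]
    rw [← e] at h2
    exact (B.smul_mem_iff hc).1 h2
  | cons i l ih =>
    intro hnd hl B Z hH hE
    rw [List.cons_append] at hnd hl hH hE
    have hi : i ∉ l ++ [t] := (List.nodup_cons.1 hnd).1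
    have hnd' := (List.nodup_cons.1 hnd).2
    have hl' : ∀ s ∈ l ++ [t], s ∉ Set.range r := fun s hs => hl s (List.mem_cons_of_mem _ hs)
    have hiS : i ∈ Set.range r ∪ {s | s ∈ i :: (l ++ [t])} := Or.inr List.mem_cons_self
    have hS : (Set.range r ∪ {s | s ∈ i :: (l ++ [t])}) \ {i} =
        Set.range r ∪ {s | s ∈ l ++ [t]} := by
      ext s
      simp only [Set.mem_sdiff, Set.mem_union, Set.mem_ofPred_eq, List.mem_cons,
        Set.mem_singleton_iff]
      constructor
      · rintro ⟨h | h | h, h'⟩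
        · exact Or.inl h
        · exact absurd h h'
        · exact Or.inr h
      · rintro (h | h)
        · exact ⟨Or.inl h, fun e => hl i List.mem_cons_self (e ▸ h)⟩
        · exact ⟨Or.inr (Or.inr h), fun e => hi (e ▸ h)⟩
    obtain ⟨h1, h2⟩ := hRED ι _ M B Z hH i hiS
    rw [hS] at h1 h2
    obtain ⟨hW, hBZ, hB, hZ, -⟩ := hH
    have e1 := ih hnd' hl' _ _ h1 (by
      intro z hz
      have hz' := hE (Submodule.mem_inf.1 hz).1
      rw [Submodule.mem_iSup_iff_exists_finsupp] at hz'
      obtain ⟨f, hf, hsum⟩ := hz'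
      have hBY := h1.2.1
      have hst : ∀ v ∈ Z ⊓ B.comap (M.D i), eul M c (i :: (l ++ [t])) v ∈ Z ⊓ B.comap (M.D i) := by
        intro v hv
        rw [eul_cons]
        refine Submodule.add_mem _ (Submodule.smul_mem _ _ (hBY (hB i hiS _ ?_).1))
          (eul_mem M c _ _ h1.2.2.2.1 _ (fun j hj => Or.inr hj) v hv)
        exact (Submodule.mem_inf.1 hv).2
      have hall := comp_mem _ _ hst f.support f
        (fun a _ => hBY ((mem_piece _ _ _ _ _).1 (hf a)).2) (by
          have : ∑ a ∈ f.support, f a = z := hsum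
          rw [this]; exact hz)
      rw [← hsum]
      refine Submodule.sum_mem _ fun a ha => Submodule.mem_iSup_of_mem a ?_
      rw [mem_piece]
      refine ⟨hall a ha, ?_⟩
      have h3 := ((mem_piece _ _ _ _ _).1 (hf a)).2
      rw [eul_cons] at h3
      have h4 : c i • M.X i (M.D i (f a)) ∈ B :=
        B.smul_mem _ (hB i hiS _ (Submodule.mem_inf.1 (hall a ha)).2).1
      have := B.sub_mem h3 h4
      convert this using 1
      abel)
    have e2 := ih hnd' hl' _ _ h2 (by
      refine hE.trans (iSup_le fun a => ?_)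
      refine le_trans ?_ (le_iSup _ (a + c i))
      intro v hv
      rw [mem_piece] at hv ⊢
      refine ⟨hv.1, ?_⟩
      have h3 := hv.2
      rw [eul_cons] at h3
      have h5 : M.D i (M.X i v) - M.X i (M.D i v) = v := by
        simpa using LinearMap.congr_fun (hW.2.2.1 i) v
      have h4 : c i • M.D i (M.X i v) ∈ Z.map (M.D i) :=
        Submodule.smul_mem _ _ (Submodule.mem_map_of_mem (hZ i hiS v hv.1).1)
      have := (B ⊔ Z.map (M.D i)).sub_mem (Submodule.mem_sup_left h3) (Submodule.mem_sup_right h4)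
      convert this using 1
      have h6 : M.D i (M.X i v) = M.X i (M.D i v) + v := by rw [← sub_eq_iff_eq_add', h5]
      rw [h6, add_smul, smul_add]
      abel)
    simp only [List.map_cons, List.cons_append, iter]
    rw [e1, e2]
    ring

theorem iter_congr {σ ι : Type} (φ : Fn σ) (M : WM ι) (X₁ D₁ X₂ D₂ : σ → Module.End ℂ M.V)
    (L₁ L₂ : List (Module.End ℂ M.V)) (B Z : Submodule ℂ M.V) (hX : X₁ = X₂) (hD : D₁ = D₂)
    (hL : L₁ = L₂) : iter φ (M.ops X₁ D₁) L₁ B Z = iter φ (M.ops X₂ D₂) L₂ B Z := by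
  subst hX hD hL; rfl

theorem push_congr {σ ι : Type} [Fintype ι] (r : σ → ι) (φ : Fn σ) (M : WM ι)
    (X₁ D₁ X₂ D₂ : ι → Module.End ℂ M.V) (hX : X₁ = X₂) (hD : D₁ = D₂) :
    push r φ (M.ops X₁ D₁) ⊥ ⊤ = push r φ (M.ops X₂ D₂) ⊥ ⊤ := by
  subst hX hD; rfl

theorem isW_step {ι : Type} (M : WM ι) (hW : M.IsW) (t : ι) (X' D' : ι → Module.End ℂ M.V)
    (hXt : X' t = -M.D t) (hDt : D' t = M.X t) (hne : ∀ s, s ≠ t → X' s = M.X s ∧ D' s = M.D s) :
    (M.ops X' D').IsW := by
  obtain ⟨hxx, hdd, hdx, hn⟩ := hW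
  refine ⟨fun s u => ?_, fun s u => ?_, fun s => ?_, fun s u hsu => ?_⟩
  · change X' s * X' u = X' u * X' s
    by_cases hs : s = t <;> by_cases hu : u = t
    · rw [hs, hu]
    · rw [hs, hXt, (hne u hu).1, neg_mul, mul_neg, hn t u (Ne.symm hu)]
    · rw [hu, hXt, (hne s hs).1, neg_mul, mul_neg, hn t s (Ne.symm hs)]
    · rw [(hne u hu).1, (hne s hs).1, hxx]
  · change D' s * D' u = D' u * D' s
    by_cases hs : s = t <;> by_cases hu : u = t
    · rw [hs, hu]
    · rw [hs, hDt, (hne u hu).2, hn u t hu]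
    · rw [hu, hDt, (hne s hs).2, hn s t hs]
    · rw [(hne u hu).2, (hne s hs).2, hdd]
  · change D' s * X' s - X' s * D' s = 1
    by_cases hs : s = t
    · rw [hs, hXt, hDt, ← hdx t, mul_neg, neg_mul]; abel
    · rw [(hne s hs).1, (hne s hs).2, hdx]
  · change D' s * X' u = X' u * D' s
    by_cases hs : s = t <;> by_cases hu : u = t
    · exact absurd (hs.trans hu.symm) hsu
    · rw [hs, hDt, (hne u hu).1, hxx]
    · rw [hu, hXt, (hne s hs).2, neg_mul, mul_neg, hdd]
    · rw [(hne u hu).1, (hne s hs).2, hn s u hsu]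

theorem step (hHSUB : S_HSUB) (hRED : S_RED) (hPUSH : S_PUSH) (hFONE : S_FONE) {σ ι : Type}
    [Fintype ι] [DecidableEq ι] (r : σ → ι) (hr : Function.Injective r) (φ : Fn σ)
    (hφ : Additive φ) (M : WM ι)
    (c : ι → ℤ) (hc : ∀ s, c s = 0 ↔ s ∈ Set.range r) (hM : M.Holo) (hD : Diag (M.eu c))
    (t : ι) (ht : t ∉ Set.range r) (X' D' : ι → Module.End ℂ M.V)
    (hXt : X' t = -M.D t) (hDt : D' t = M.X t) (hne : ∀ s, s ≠ t → X' s = M.X s ∧ D' s = M.D s) :
    (M.ops X' D').Holo ∧ Diag ((M.ops X' D').eu (Function.update c t (-c t))) ∧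
      push r φ M ⊥ ⊤ = -push r φ (M.ops X' D') ⊥ ⊤ := by
  classical
  have hW : M.IsW := hM.1
  have hH : (M.ops X' D').Holo := by
    refine (hHSUB ι Set.univ).2.2.2.2.2 M X' D' ⊥ ⊤ (isW_step M hW t X' D' hXt hDt hne)
      (fun s _ => ?_) hM
    have hx : ∀ u, M.X u ∈ Submodule.span ℂ
        (insert 1 (M.X '' Set.univ ∪ M.D '' Set.univ)) := fun u =>
      Submodule.subset_span (Or.inr (Or.inl ⟨u, trivial, rfl⟩))
    have hd : ∀ u, M.D u ∈ Submodule.span ℂ
        (insert 1 (M.X '' Set.univ ∪ M.D '' Set.univ)) := fun u =>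
      Submodule.subset_span (Or.inr (Or.inr ⟨u, trivial, rfl⟩))
    by_cases hs : s = t
    · rw [hs, hXt, hDt]; exact ⟨Submodule.neg_mem _ (hd t), hx t⟩
    · rw [(hne s hs).1, (hne s hs).2]; exact ⟨hx s, hd s⟩
  refine ⟨hH, ?_, ?_⟩
  · have e : (M.ops X' D').eu (Function.update c t (-c t)) =
        M.eu c + (c t : ℂ) • (1 : Module.End ℂ M.V) := by
      change ∑ s, ((Function.update c t (-c t) s : ℤ) : ℂ) • (X' s * D' s) =
        ∑ s, (c s : ℂ) • (M.X s * M.D s) + _
      rw [← Finset.add_sum_erase _ _ (Finset.mem_univ t),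
        ← Finset.add_sum_erase _ (fun s => (c s : ℂ) • (M.X s * M.D s)) (Finset.mem_univ t),
        Function.update_self, hXt, hDt, ← hW.2.2.1 t]
      have : ∑ s ∈ Finset.univ.erase t, ((Function.update c t (-c t) s : ℤ) : ℂ) • (X' s * D' s) =
          ∑ s ∈ Finset.univ.erase t, (c s : ℂ) • (M.X s * M.D s) := by
        refine Finset.sum_congr rfl fun s hs => ?_
        have hs' := (Finset.mem_erase.1 hs).1
        rw [Function.update_of_ne hs', (hne s hs').1, (hne s hs').2]
      rw [this, Int.cast_neg, neg_mul, smul_neg, neg_smul, neg_neg, smul_sub]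
      abel
    rw [e]
    unfold Diag at hD ⊢
    rw [eq_top_iff, ← hD]
    refine iSup_le fun a => le_trans ?_ (le_iSup _ (a + c t))
    intro v hv
    rw [Module.End.mem_eigenspace_iff] at hv ⊢
    simp [hv, add_smul]
  · set l := (Finset.univ.filter fun s : ι => s ∉ Set.range r ∧ s ≠ t).toList with hl
    have hmem : ∀ s, s ∈ l ↔ s ∉ Set.range r ∧ s ≠ t := fun s => by simp [hl]
    have hnd : (l ++ [t]).Nodup := by
      rw [List.nodup_append]
      refine ⟨Finset.nodup_toList _, List.nodup_singleton _, fun a ha b hb => ?_⟩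
      rw [List.mem_singleton.1 hb]
      exact ((hmem a).1 ha).2
    have hmem' : ∀ s, s ∈ l ++ [t] ↔ s ∉ Set.range r := fun s => by
      rw [List.mem_append, hmem, List.mem_singleton]
      constructor
      · rintro (h | h)
        · exact h.1
        · exact h ▸ ht
      · intro h
        by_cases hs : s = t
        · exact Or.inr hs
        · exact Or.inl ⟨h, hs⟩
    have hS : (Set.range r ∪ {s | s ∈ l ++ [t]}) = Set.univ := by
      ext s
      simp only [Set.mem_union, Set.mem_ofPred_eq, hmem', Set.mem_univ, iff_true]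
      exact Classical.em _
    have hE : eul M (fun s => (c s : ℂ)) (l ++ [t]) = M.eu c := by
      unfold eul WM.eu
      rw [← List.sum_toFinset _ hnd]
      refine Finset.sum_subset (Finset.subset_univ _) fun s _ hs => ?_
      rw [List.mem_toFinset, hmem', not_not, ← hc] at hs
      simp [hs]
    have hk := key hRED hFONE r hr φ hφ M (fun s => (c s : ℂ)) t
      (by simpa using fun h => ht ((hc t).1 h)) l hnd (fun s hs => (hmem' s).1 hs) ⊥ ⊤
      (by rw [hS]; exact hM) (by
        rw [hE]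
        unfold Diag at hD
        refine hD.ge.trans (iSup_mono fun a v hv => ?_)
        rw [mem_piece]
        rw [Module.End.mem_eigenspace_iff] at hv
        simp [hv])
    rw [(hPUSH σ ι r hr).2.1 φ _ hφ hnd hmem' M ⊥ ⊤ hM,
      (hPUSH σ ι r hr).2.1 φ _ hφ hnd hmem' _ ⊥ ⊤ hH, List.map_append, List.map_singleton, hk]
    congr 1
    have hrt : ∀ s, r s ≠ t := fun s h => ht ⟨s, h⟩
    refine iter_congr φ M _ _ _ _ _ _ ⊥ ⊤ (funext fun s => ((hne _ (hrt s)).1).symm)
      (funext fun s => ((hne _ (hrt s)).2).symm) ?_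
    change _ = (l ++ [t]).map D'
    rw [List.map_append, List.map_singleton, hDt]
    congr 1
    exact List.map_congr_left fun s hs => ((hne s ((hmem s).1 hs).2).2).symm

open Classical in
/-- First operators of the partial Fourier transform in the variables of `J`. -/
noncomputable def fX {ν σ : Type} (N : WM (ν ⊕ σ)) (J : Finset ν) : ν ⊕ σ → Module.End ℂ N.V :=
  Sum.elim (fun j => if j ∈ J then -N.D (Sum.inl j) else N.X (Sum.inl j)) fun s => N.X (Sum.inr s)

open Classical in
/-- Second operators of the partial Fourier transform in the variables of `J`. -/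
noncomputable def fD {ν σ : Type} (N : WM (ν ⊕ σ)) (J : Finset ν) : ν ⊕ σ → Module.End ℂ N.V :=
  Sum.elim (fun j => if j ∈ J then N.X (Sum.inl j) else N.D (Sum.inl j)) fun s => N.D (Sum.inr s)

end FourAux

open FourAux in
theorem p_FOUR (hHSUB : S_HSUB) (hRED : S_RED) (hPUSH : S_PUSH) (hDIAG : S_DIAG) (hFONE : S_FONE) :
    S_FOUR := by
  classical
  intro ν σ _ _ φ w N hφ hw hN hD
  have main : ∀ J : Finset ν, ∃ c : ν ⊕ σ → ℤ, (∀ s, c s = 0 ↔ s ∈ Set.range Sum.inr) ∧
      (N.ops (fX N J) (fD N J)).Holo ∧ Diag ((N.ops (fX N J) (fD N J)).eu c) ∧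
      push Sum.inr φ N ⊥ ⊤ = (-1) ^ J.card * push Sum.inr φ (N.ops (fX N J) (fD N J)) ⊥ ⊤ := by
    intro J
    induction J using Finset.induction_on with
    | empty =>
      have hX : fX N ∅ = N.X := by funext s; cases s <;> simp [fX]
      have hD' : fD N ∅ = N.D := by funext s; cases s <;> simp [fD]
      rw [hX, hD']
      refine ⟨Sum.elim w 0, fun s => ?_, hN, hD, by simp⟩
      cases s <;> simp [hw]
    | insert j J hj ih =>
      obtain ⟨c, hc, hH, hE, he⟩ := ih
      obtain ⟨h1, h2, h3⟩ := FourAux.step hHSUB hRED hPUSH hFONE Sum.inr Sum.inr_injective φ hφ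
        (N.ops (fX N J) (fD N J)) c hc hH hE (Sum.inl j) (by simp)
        (fX N (insert j J)) (fD N (insert j J)) (by simp [fX, fD, hj]) (by simp [fX, fD, hj])
        (fun s hs => by
          cases s with
          | inl i =>
            have : i ≠ j := fun h => hs (by rw [h])
            simp [fX, fD, this]
          | inr s => simp [fX, fD])
      refine ⟨_, fun s => ?_, h1, h2, ?_⟩
      · by_cases hs : s = Sum.inl j
        · rw [hs, Function.update_self, neg_eq_zero, hc]
        · rw [Function.update_of_ne hs, hc]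
      · rw [he, h3, Finset.card_insert_of_notMem hj, pow_succ]
        ring
  obtain ⟨-, -, -, -, he⟩ := main Finset.univ
  rw [he, Finset.card_univ]
  congr 1
  refine push_congr Sum.inr φ N _ _ _ _ ?_ ?_
  · funext s; cases s <;> simp [fX]
  · funext s; cases s <;> simp [fD]

end Pool.Agent.P.MP_52ab5a_al
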