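import Pool.Agent.P.MP_52ab5a_al.A.Iface

/-! Step HSUB of the open orbit project. -/

namespace Pool.Agent.P.MP_52ab5a_al

open MvPolynomial
open WM

namespace HsubAux

variable {ι σ : Type}

theorem span_maps (S : Set ι) (N : WM ι) {Y Y' : Submodule ℂ N.V} (hY : Y ≤ Y')
    (h : ∀ s ∈ S, ∀ v ∈ Y, N.X s v ∈ Y' ∧ N.D s v ∈ Y') {T : Module.End ℂ N.V}
    (hT : T ∈ Submodule.span ℂ (insert 1 (N.X '' S ∪ N.D '' S))) : ∀ v ∈ Y, T v ∈ Y' := by
  induction hT using Submodule.span_induction with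
  | mem T hT =>
    rcases hT with rfl | ⟨s, hs, rfl⟩ | ⟨s, hs, rfl⟩
    · exact fun v hv => hY hv
    · exact fun v hv => (h s hs v hv).1
    · exact fun v hv => (h s hs v hv).2
  | zero => exact fun v _ => Y'.zero_mem
  | add T U _ _ hT hU => exact fun v hv => Y'.add_mem (hT v hv) (hU v hv)
  | smul a T _ hT => exact fun v hv => Y'.smul_mem a (hT v hv)

theorem ops_hol (S : Set ι) (T : Set σ) (N : WM ι) (X' D' : σ → Module.End ℂ N.V)
    (B Z : Submodule ℂ N.V) (hc : S.ncard ≤ T.ncard) (hW : (N.ops X' D').IsW)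
    (hs : ∀ s ∈ T, X' s ∈ Submodule.span ℂ (insert 1 (N.X '' S ∪ N.D '' S)) ∧
      D' s ∈ Submodule.span ℂ (insert 1 (N.X '' S ∪ N.D '' S))) (h : Hol S N B Z) :
    Hol T (N.ops X' D') B Z := by
  obtain ⟨-, hBZ, hB, hZ, Γ, c, hm, hb, hst, hex, hrk⟩ := h
  refine ⟨hW, hBZ, fun s hsT v hv => ⟨span_maps S N le_rfl hB (hs s hsT).1 v hv,
    span_maps S N le_rfl hB (hs s hsT).2 v hv⟩, fun s hsT v hv =>
    ⟨span_maps S N le_rfl hZ (hs s hsT).1 v hv, span_maps S N le_rfl hZ (hs s hsT).2 v hv⟩,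
    Γ, c, hm, hb, fun k s hsT v hv =>
    ⟨span_maps S N (hm k.le_succ) (hst k) (hs s hsT).1 v hv,
      span_maps S N (hm k.le_succ) (hst k) (hs s hsT).2 v hv⟩, hex, fun k => (hrk k).trans ?_⟩
  exact Nat.cast_le.2 (Nat.mul_le_mul_left c (Nat.pow_le_pow_right k.succ_pos hc))

theorem res_isW (r : σ → ι) (hr : Function.Injective r) (N : WM ι) (h : N.IsW) :
    (N.res r).IsW :=
  ⟨fun _ _ => h.1 _ _, fun _ _ => h.2.1 _ _, fun _ => h.2.2.1 _,
    fun _ _ hst => h.2.2.2 _ _ fun e => hst (hr e)⟩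

theorem sup_maps {V : Type} [AddCommGroup V] [Module ℂ V] {T : Module.End ℂ V}
    {A A' Y : Submodule ℂ V} (hA : ∀ v ∈ A, T v ∈ A' ⊔ Y) (hY : ∀ v ∈ Y, T v ∈ Y) :
    ∀ v ∈ A ⊔ Y, T v ∈ A' ⊔ Y := by
  intro v hv
  obtain ⟨a, ha, y, hy, rfl⟩ := Submodule.mem_sup.1 hv
  rw [map_add]
  exact Submodule.add_mem _ (hA a ha) (Submodule.mem_sup_right (hY y hy))

end HsubAux

open HsubAux in
theorem p_HSUB (hRK : S_RK) (hPISO : S_PISO) :
    S_HSUB := by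
  have _ := hPISO
  intro ι S
  refine ⟨?_, ?_, ?_, ?_, ?_, ?_⟩
  · rintro N B Y Z ⟨hW, -, hB, hZ, Γ, c, hm, hb, hst, hex, hrk⟩ hBY hYZ hY
    refine ⟨⟨hW, hBY, hB, hY, fun k => Γ k ⊓ Y, c, fun _ _ h => inf_le_inf_right Y (hm h),
      fun k => ⟨le_inf (hb k).1 hBY, inf_le_right⟩, fun k s hs v hv =>
        ⟨⟨(hst k s hs v hv.1).1, (hY s hs v hv.2).1⟩, (hst k s hs v hv.1).2, (hY s hs v hv.2).2⟩,
      fun z hz => (hex z (hYZ hz)).imp fun k hk => ⟨hk, hz⟩,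
      fun k => ((hRK N.V).2.1 B B _ _ le_rfl inf_le_left).trans (hrk k)⟩,
      ⟨hW, hYZ, hY, hZ, fun k => Γ k ⊔ Y, c, fun _ _ h => sup_le_sup_right (hm h) Y,
      fun k => ⟨le_sup_right, sup_le (hb k).2 hYZ⟩, fun k s hs v hv => ⟨?_, ?_⟩,
      fun z hz => (hex z hz).imp fun k hk => Submodule.mem_sup_left hk, fun k => ?_⟩⟩
    · exact sup_maps (fun a ha => Submodule.mem_sup_left (hst k s hs a ha).1)
        (fun y hy => (hY s hs y hy).1) v hv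
    · exact sup_maps (fun a ha => Submodule.mem_sup_left (hst k s hs a ha).2)
        (fun y hy => (hY s hs y hy).2) v hv
    · exact ((hRK N.V).2.2.1 Y (Γ k)).1.le.trans
        (((hRK N.V).2.1 Y B _ _ hBY le_rfl).trans (hrk k))
  · rintro N B Z N' B' Z' ⟨-, hBZ, -, -, Γ, c, hm, hb, hst, hex, hrk⟩ hW ⟨f, hf⟩
    refine ⟨hW, hf.le', hf.stB', hf.stZ', fun k => (Γ k).map f ⊔ B', c,
      fun _ _ h => sup_le_sup_right (Submodule.map_mono (hm h)) B',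
      fun k => ⟨le_sup_right, sup_le ?_ hf.le'⟩, fun k s hs v hv => ⟨?_, ?_⟩, fun z hz => ?_,
      fun k => ?_⟩
    · rintro _ ⟨z, hz, rfl⟩
      exact hf.maps z ((hb k).2 hz)
    · refine sup_maps ?_ (fun y hy => (hf.stB' s hs y hy).1) v hv
      rintro _ ⟨z, hz, rfl⟩
      rw [← sub_sub_cancel (f (N.X s z)) (N'.X s (f z))]
      exact Submodule.sub_mem _ (Submodule.mem_sup_left ⟨_, (hst k s hs z hz).1, rfl⟩)
        (Submodule.mem_sup_right (hf.comm s hs z ((hb k).2 hz)).1)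
    · refine sup_maps ?_ (fun y hy => (hf.stB' s hs y hy).2) v hv
      rintro _ ⟨z, hz, rfl⟩
      rw [← sub_sub_cancel (f (N.D s z)) (N'.D s (f z))]
      exact Submodule.sub_mem _ (Submodule.mem_sup_left ⟨_, (hst k s hs z hz).2, rfl⟩)
        (Submodule.mem_sup_right (hf.comm s hs z ((hb k).2 hz)).2)
    · obtain ⟨_, ⟨a, ha, rfl⟩, y, hy, rfl⟩ := Submodule.mem_sup.1 (hf.onto hz)
      obtain ⟨k, hk⟩ := hex a ha
      exact ⟨k, Submodule.add_mem _ (Submodule.mem_sup_left ⟨a, hk, rfl⟩)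
        (Submodule.mem_sup_right hy)⟩
    · refine ((hRK N'.V).2.2.1 B' _).1.le.trans (((hRK N.V).2.2.2.2 N'.V f B' (Γ k)).le.trans
        (((hRK N.V).2.1 _ B _ _ (fun b hb' => ?_) le_rfl).trans (hrk k)))
      exact (hf.ker b (hBZ hb')).2 hb'
  · intro N B hW hB
    exact ⟨hW, le_rfl, hB, hB, fun _ => B, 0, monotone_const, fun _ => ⟨le_rfl, le_rfl⟩,
      fun _ => hB, fun z hz => ⟨0, hz⟩,
      fun _ => (((hRK N.V).2.2.1 B B).2.2.2 le_rfl).le.trans zero_le⟩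
  · intro σ r T N B Z hr hW
    have hc := Set.ncard_image_of_injective T hr
    constructor
    · rintro ⟨-, hBZ, hB, hZ, Γ, c, hm, hb, hst, hex, hrk⟩
      exact ⟨res_isW r hr N hW, hBZ, fun s hs => hB _ ⟨s, hs, rfl⟩, fun s hs => hZ _ ⟨s, hs, rfl⟩,
        Γ, c, hm, hb, fun k s hs => hst k _ ⟨s, hs, rfl⟩, hex, fun k => hc ▸ hrk k⟩
    · rintro ⟨-, hBZ, hB, hZ, Γ, c, hm, hb, hst, hex, hrk⟩
      refine ⟨hW, hBZ, ?_, ?_, Γ, c, hm, hb, fun k => ?_, hex, fun k => hc.symm ▸ hrk k⟩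
      · rintro _ ⟨s, hs, rfl⟩
        exact hB s hs
      · rintro _ ⟨s, hs, rfl⟩
        exact hZ s hs
      · rintro _ ⟨s, hs, rfl⟩
        exact hst k s hs
  · intro σ N X' D' B Z hc _ hW hs h
    refine ops_hol Set.univ Set.univ N X' D' B Z ?_ hW (fun s _ => ?_) h
    · rwa [Set.ncard_univ, Set.ncard_univ]
    · rw [Set.image_univ, Set.image_univ]
      exact hs s
  · intro N X' D' B Z hW hs h
    exact ops_hol S S N X' D' B Z le_rfl hW hs h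

end Pool.Agent.P.MP_52ab5a_al
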