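import Pool.Agent.P.MP_52ab5a_al.A.Iface

/-! Step IADD of the open orbit project. -/

namespace Pool.Agent.P.MP_52ab5a_al

open MvPolynomial
open WM

namespace IaddAux

variable {ι : Type}

/-- Additivity for the variables in `S`. -/
structure AddOn (S : Set ι) (ψ : Fn ι) : Prop where
  add : ∀ (N : WM ι) B Y Z, Hol S N B Z → B ≤ Y → Y ≤ Z → StOn S N Y →
    ψ N B Z = ψ N B Y + ψ N Y Z
  iso : ∀ (N : WM ι) B Z (N' : WM ι) B' Z', Hol S N B Z → N'.IsW →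
    PIso S N B Z N' B' Z' → ψ N B Z = ψ N' B' Z'

variable {S : Set ι} {N N' : WM ι} {t : ι}

theorem st_sup {A B : Submodule ℂ N.V} (hA : StOn S N A) (hB : StOn S N B) :
    StOn S N (A ⊔ B) := by
  intro s hs v hv
  obtain ⟨a, ha, b, hb, rfl⟩ := Submodule.mem_sup.1 hv
  rw [map_add, map_add]
  exact ⟨Submodule.add_mem_sup (hA s hs a ha).1 (hB s hs b hb).1,
    Submodule.add_mem_sup (hA s hs a ha).2 (hB s hs b hb).2⟩

theorem st_inf {A B : Submodule ℂ N.V} (hA : StOn S N A) (hB : StOn S N B) :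
    StOn S N (A ⊓ B) := fun s hs v hv =>
  ⟨⟨(hA s hs v hv.1).1, (hB s hs v hv.2).1⟩, (hA s hs v hv.1).2, (hB s hs v hv.2).2⟩

/-- The connecting map of the snake lemma. -/
theorem snake {B Y Z : Submodule ℂ N.V} (hW : N.IsW) (hBY : B ≤ Y) (hYZ : Y ≤ Z)
    (l1 : Y ⊔ Z ⊓ B.comap (N.D t) ≤ Z ⊓ Y.comap (N.D t))
    (s1 : StOn (S \ {t}) N (Y ⊔ Z ⊓ B.comap (N.D t))) (s2 : StOn (S \ {t}) N (Z ⊓ Y.comap (N.D t)))
    (l2 : B ⊔ Y.map (N.D t) ≤ (B ⊔ Z.map (N.D t)) ⊓ Y)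
    (s3 : StOn (S \ {t}) N (B ⊔ Y.map (N.D t)))
    (s4 : StOn (S \ {t}) N ((B ⊔ Z.map (N.D t)) ⊓ Y)) :
    PIsoBy (S \ {t}) N (Y ⊔ Z ⊓ B.comap (N.D t)) (Z ⊓ Y.comap (N.D t)) N (B ⊔ Y.map (N.D t))
      ((B ⊔ Z.map (N.D t)) ⊓ Y) (N.D t) := by
  refine ⟨l1, s1, s2, l2, s3, s4, fun z hz => ⟨Submodule.mem_sup_right ⟨z, hz.1, rfl⟩, hz.2⟩,
    fun z hz => ⟨fun h => ?_, fun h => ?_⟩, fun w hw => ?_, fun s hs z _ => ⟨?_, ?_⟩⟩
  · obtain ⟨b, hb, _, ⟨y, hy, rfl⟩, e⟩ := Submodule.mem_sup.1 h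
    refine Submodule.mem_sup.2 ⟨y, hy, z - y, ⟨Z.sub_mem hz.1 (hYZ hy), ?_⟩, add_sub_cancel _ _⟩
    change N.D t (z - y) ∈ B
    rwa [map_sub, ← e, add_sub_cancel_right]
  · obtain ⟨y, hy, k, hk, rfl⟩ := Submodule.mem_sup.1 h
    rw [map_add, add_comm]
    exact Submodule.add_mem_sup hk.2 ⟨y, hy, rfl⟩
  · obtain ⟨b, hb, _, ⟨z, hz, rfl⟩, rfl⟩ := Submodule.mem_sup.1 hw.1
    rw [add_comm]
    refine Submodule.add_mem_sup ⟨z, ⟨hz, ?_⟩, rfl⟩ (Submodule.mem_sup_left hb)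
    exact (Y.add_mem_iff_right (hBY hb)).1 hw.2
  · have e : N.D t (N.X s z) = N.X s (N.D t z) :=
      LinearMap.congr_fun (hW.2.2.2 t s fun h => hs.2 h.symm) z
    rw [e, sub_self]
    exact zero_mem _
  · have e : N.D t (N.D s z) = N.D s (N.D t z) := LinearMap.congr_fun (hW.2.1 t s) z
    rw [e, sub_self]
    exact zero_mem _

variable {B Z : Submodule ℂ N.V} {B' Z' : Submodule ℂ N'.V} {f : N.V →ₗ[ℂ] N'.V}

theorem iso_ker (ht : t ∈ S) (h : PIsoBy S N B Z N' B' Z' f)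
    (H : Hol (S \ {t}) N B (Z ⊓ B.comap (N.D t)))
    (H' : Hol (S \ {t}) N' B' (Z' ⊓ B'.comap (N'.D t))) :
    PIsoBy (S \ {t}) N B (Z ⊓ B.comap (N.D t)) N' B' (Z' ⊓ B'.comap (N'.D t)) f := by
  have key : ∀ z ∈ Z, N'.D t (f z) ∈ B' ↔ N.D t z ∈ B := fun z hz => by
    rw [← h.ker _ (h.stZ t ht z hz).2]
    exact ⟨fun h1 => (B'.sub_mem_iff_left h1).1 (h.comm t ht z hz).2,
      fun h1 => (B'.sub_mem_iff_right h1).1 (h.comm t ht z hz).2⟩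
  refine ⟨H.2.1, H.2.2.1, H.2.2.2.1, H'.2.1, H'.2.2.1, H'.2.2.2.1,
    fun z hz => ⟨h.maps z hz.1, (key z hz.1).2 hz.2⟩, fun z hz => h.ker z hz.1, fun w hw => ?_,
    fun s hs z hz => h.comm s hs.1 z hz.1⟩
  obtain ⟨_, ⟨z, hz, rfl⟩, b, hb, rfl⟩ := Submodule.mem_sup.1 (h.onto hw.1)
  refine Submodule.add_mem_sup ⟨z, ⟨hz, (key z hz).1 ?_⟩, rfl⟩ hb
  have h1 : N'.D t (f z + b) ∈ B' := hw.2
  rw [map_add] at h1
  exact (B'.add_mem_iff_left (h.stB' t ht b hb).2).1 h1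

theorem iso_coker (ht : t ∈ S) (h : PIsoBy S N B Z N' B' Z' f)
    (H : Hol (S \ {t}) N (B ⊔ Z.map (N.D t)) Z)
    (H' : Hol (S \ {t}) N' (B' ⊔ Z'.map (N'.D t)) Z') :
    PIsoBy (S \ {t}) N (B ⊔ Z.map (N.D t)) Z N' (B' ⊔ Z'.map (N'.D t)) Z' f := by
  refine ⟨H.2.1, H.2.2.1, H.2.2.2.1, H'.2.1, H'.2.2.1, H'.2.2.2.1, h.maps,
    fun z hz => ⟨fun h1 => ?_, fun h1 => ?_⟩, h.onto.trans (sup_le_sup_left le_sup_left _),
    fun s hs z hz => ⟨Submodule.mem_sup_left (h.comm s hs.1 z hz).1,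
      Submodule.mem_sup_left (h.comm s hs.1 z hz).2⟩⟩
  · obtain ⟨b, hb, _, ⟨w, hw, rfl⟩, e⟩ := Submodule.mem_sup.1 h1
    obtain ⟨_, ⟨u, hu, rfl⟩, c, hc, rfl⟩ := Submodule.mem_sup.1 (h.onto hw)
    refine Submodule.mem_sup.2 ⟨z - N.D t u, ?_, _, ⟨u, hu, rfl⟩, sub_add_cancel _ _⟩
    refine (h.ker _ (Z.sub_mem hz (h.stZ t ht u hu).2)).1 ?_
    have e1 : f (z - N.D t u) = b + N'.D t c - (f (N.D t u) - N'.D t (f u)) := by
      rw [map_sub, ← e, map_add]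
      abel
    rw [e1]
    exact B'.sub_mem (B'.add_mem hb (h.stB' t ht c hc).2) (h.comm t ht u hu).2
  · obtain ⟨b, hb, _, ⟨u, hu, rfl⟩, rfl⟩ := Submodule.mem_sup.1 h1
    refine Submodule.mem_sup.2 ⟨f b + (f (N.D t u) - N'.D t (f u)),
      B'.add_mem ((h.ker b (h.le hb)).2 hb) (h.comm t ht u hu).2, _, ⟨f u, h.maps u hu, rfl⟩, ?_⟩
    rw [map_add]
    abel

theorem step (hPISO : S_PISO) (hHSUB : S_HSUB) (hRED : S_RED) [Finite ι] {ψ : Fn ι} (ht : t ∈ S)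
    (h : AddOn (S \ {t}) ψ) :
    AddOn S fun N B Z => ψ N B (Z ⊓ B.comap (N.D t)) - ψ N (B ⊔ Z.map (N.D t)) Z := by
  refine ⟨fun N B Y Z H hBY hYZ hY => ?_, fun N B Z N' B' Z' H hW ⟨f, hf⟩ => ?_⟩
  · obtain ⟨H1, H2⟩ := (hHSUB ι S).1 N B Y Z H hBY hYZ hY
    obtain ⟨hK, hC⟩ := hRED ι S N B Z H t ht
    obtain ⟨hK1, hC1⟩ := hRED ι S N B Y H1 t ht
    obtain ⟨hK2, hC2⟩ := hRED ι S N Y Z H2 t ht
    have sub := (hHSUB ι (S \ {t})).1 N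
    have p4 := (hPISO ι (S \ {t})).2.2.2.1 N
    have sY := hK2.2.2.1
    have l0 : Y ⊓ B.comap (N.D t) ≤ Z ⊓ B.comap (N.D t) := inf_le_inf_right _ hYZ
    have l1 : Y ⊔ Z ⊓ B.comap (N.D t) ≤ Z ⊓ Y.comap (N.D t) :=
      sup_le hK2.2.1 (inf_le_inf_left _ (Submodule.comap_mono hBY))
    have s1 := st_sup sY hK.2.2.2.1
    have l2 : B ⊔ Y.map (N.D t) ≤ (B ⊔ Z.map (N.D t)) ⊓ Y :=
      le_inf (sup_le_sup_left (Submodule.map_mono hYZ) _) hC1.2.1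
    have s4 := st_inf hC.2.2.1 sY
    have e1 := h.add N _ _ _ hK hK1.2.1 l0 hK1.2.2.2.1
    have q2 := p4 Y _ sY hK.2.2.2.1
    rw [← inf_assoc, inf_eq_left.2 hYZ] at q2
    have e2 := h.iso N _ _ N _ _ (sub _ _ _ hK hK1.2.1 l0 hK1.2.2.2.1).2 H.1 q2
    have e3 := h.add N _ _ _ hK2 le_sup_left l1 s1
    have e4 := h.iso N _ _ N _ _ (sub _ _ _ hK2 le_sup_left l1 s1).2 H.1
      ⟨_, snake H.1 hBY hYZ l1 s1 hK2.2.2.2.1 l2 hC1.2.2.1 s4⟩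
    have e5 := h.add N _ _ _ hC1 l2 inf_le_right s4
    have q6 := p4 _ Y hC.2.2.1 sY
    rw [sup_right_comm, sup_eq_right.2 hBY] at q6
    have e6 := h.iso N _ _ N _ _ (sub _ _ _ hC1 l2 inf_le_right s4).2 H.1 q6
    have e7 := h.add N _ _ _ hC (sup_le_sup_right hBY _) hC2.2.1 hC2.2.2.1
    omega
  · obtain ⟨hK, hC⟩ := hRED ι S N B Z H t ht
    obtain ⟨hK', hC'⟩ := hRED ι S N' B' Z' ((hHSUB ι S).2.1 N B Z N' B' Z' H hW ⟨f, hf⟩) t ht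
    rw [h.iso N _ _ N' _ _ hK hW ⟨f, iso_ker ht hf hK hK'⟩,
      h.iso N _ _ N' _ _ hC hW ⟨f, iso_coker ht hf hC hC'⟩]

theorem base (hHSUB : S_HSUB) {σ : Type} {r : σ → ι} {φ : Fn σ} (hr : Function.Injective r)
    (hφ : Additive φ) : AddOn (Set.range r) fun N B Z => φ (N.res r) B Z := by
  have hol : ∀ (N : WM ι) B Z, Hol (Set.range r) N B Z → Hol Set.univ (N.res r) B Z :=
    fun N B Z H => ((hHSUB ι Set.univ).2.2.2.1 σ r Set.univ N B Z hr H.1).1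
      (by rwa [Set.image_univ])
  have st : ∀ (N : WM ι) B, StOn (Set.range r) N B → StOn Set.univ (N.res r) B :=
    fun N B H s _ => H (r s) ⟨s, rfl⟩
  refine ⟨fun N B Y Z H h1 h2 h3 => hφ.add (N.res r) B Y Z (hol N B Z H) h1 h2
      fun s => h3 (r s) ⟨s, rfl⟩,
    fun N B Z N' B' Z' H hW ⟨f, hf⟩ => hφ.iso (N.res r) B Z (N'.res r) B' Z' (hol N B Z H)
      ⟨fun s t => hW.1 _ _, fun s t => hW.2.1 _ _, fun s => hW.2.2.1 _,
        fun s t h => hW.2.2.2 _ _ (hr.ne h)⟩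
      ⟨f, hf.le, st _ _ hf.stB, st _ _ hf.stZ, hf.le', st _ _ hf.stB', st _ _ hf.stZ', hf.maps,
        hf.ker, hf.onto, fun s _ => hf.comm (r s) ⟨s, rfl⟩⟩⟩

end IaddAux

open IaddAux in
theorem p_IADD (hPISO : S_PISO) (hHSUB : S_HSUB) (hRED : S_RED) :
    S_IADD := by
  intro σ ι _ r φ hr hφ l hl hn
  suffices H : AddOn (Set.range r ∪ {t | t ∈ l})
      fun N B Z => iter φ (N.res r) (l.map N.D) B Z from ⟨H.add, H.iso⟩
  induction l with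
  | nil =>
    have e : Set.range r ∪ {t | t ∈ ([] : List ι)} = Set.range r := by simp
    rw [e]
    exact IaddAux.base hHSUB hr hφ
  | cons t l ih =>
    have h1 := List.nodup_cons.1 hl
    have e : (Set.range r ∪ {x | x ∈ t :: l}) \ {t} = Set.range r ∪ {x | x ∈ l} := by
      ext x
      constructor
      · rintro ⟨h | h, h'⟩
        · exact Or.inl h
        · exact Or.inr ((List.mem_cons.1 h).resolve_left h')
      · rintro (h | h)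
        · exact ⟨Or.inl h, fun h' => hn t List.mem_cons_self (h' ▸ h)⟩
        · exact ⟨Or.inr (List.mem_cons_of_mem _ h), fun h' => h1.1 (h' ▸ h)⟩
    have h2 := ih h1.2 fun x hx => hn x (List.mem_cons_of_mem _ hx)
    rw [← e] at h2
    exact IaddAux.step hPISO hHSUB hRED (Or.inr List.mem_cons_self) h2

end Pool.Agent.P.MP_52ab5a_al
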