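import Pool.Agent.P.MP_52ab5a_al.Defs

/-! Holonomic modules over Weyl algebras: definitions and statements. A subquotient `Z / B` of a
module `N` is always given as the triple `N, B, Z`. -/

namespace Pool.Agent.P.MP_52ab5a_al

open MvPolynomial

/-- Integer valued functions of subquotients. -/
abbrev Fn (ι : Type) : Type 1 := (M : WM ι) → Submodule ℂ M.V → Submodule ℂ M.V → ℤ

/-- The dimension of the image of `Y` in the quotient by `B`. -/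
noncomputable def rk {V : Type} [AddCommGroup V] [Module ℂ V] (B Y : Submodule ℂ V) : Cardinal :=
  Module.rank ℂ (Y.map B.mkQ)

/-- The smallest subspace containing `G` and stable under the operators of `O`. -/
def gen {V : Type} [AddCommGroup V] [Module ℂ V] (O : Set (Module.End ℂ V)) (G : Set V) :
    Submodule ℂ V := sInf {Y | G ⊆ Y ∧ ∀ T ∈ O, ∀ v ∈ Y, T v ∈ Y}

/-- A diagonalisable operator. -/
def Diag {V : Type} [AddCommGroup V] [Module ℂ V] (T : Module.End ℂ V) : Prop :=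
  ⨆ a : ℂ, T.eigenspace a = ⊤

/-- The ordered monomial in a family of operators. -/
noncomputable def mon {ι V : Type} [Fintype ι] [AddCommGroup V] [Module ℂ V]
    (A : ι → Module.End ℂ V) (α : ι → ℕ) : Module.End ℂ V :=
  (Finset.univ.toList.map fun s => A s ^ α s).prod

/-- Normal ordering: the operators `A` to the left, the operators `B` to the right. -/
noncomputable def nord {ι V : Type} [Fintype ι] [AddCommGroup V] [Module ℂ V]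
    (A B : ι → Module.End ℂ V) : MvPolynomial (ι ⊕ ι) ℂ →ₗ[ℂ] Module.End ℂ V :=
  (basisMonomials (ι ⊕ ι) ℂ).constr ℂ fun α =>
    mon A (fun s => α (Sum.inl s)) * mon B fun s => α (Sum.inr s)

/-- Commutation relations `[B s, A s] = h` with `h` central. -/
structure CCR {ι V : Type} [AddCommGroup V] [Module ℂ V] (A B : ι → Module.End ℂ V)
    (h : Module.End ℂ V) : Prop where
  aa : ∀ s t, A s * A t = A t * A s
  bb : ∀ s t, B s * B t = B t * B s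
  ba : ∀ s, B s * A s - A s * B s = h
  ne : ∀ s t, s ≠ t → B s * A t = A t * B s
  ha : ∀ s, h * A s = A s * h
  hb : ∀ s, h * B s = B s * h

namespace WM

variable {ι σ : Type}

/-- The same space with other operators. -/
@[reducible] def ops (N : WM ι) (X' D' : σ → Module.End ℂ N.V) : WM σ := { V := N.V, X := X', D := D' }

/-- Restriction to a subfamily of variables. -/
@[reducible] def res (N : WM ι) (r : σ → ι) : WM σ := N.ops (fun s => N.X (r s)) fun s => N.D (r s)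

/-- Stability under the operators with index in `S`. -/
def StOn (S : Set ι) (N : WM ι) (B : Submodule ℂ N.V) : Prop :=
  ∀ s ∈ S, ∀ v ∈ B, N.X s v ∈ B ∧ N.D s v ∈ B

theorem stOn_univ (N : WM ι) (B : Submodule ℂ N.V) : StOn Set.univ N B ↔ N.Stable B :=
  ⟨fun h s => h s trivial, fun h s _ => h s⟩

theorem isW_iff (N : WM ι) : N.IsW ↔ CCR N.X N.D 1 :=
  ⟨fun h => ⟨h.1, h.2.1, h.2.2.1, h.2.2.2, fun _ => by simp, fun _ => by simp⟩,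
    fun h => ⟨h.aa, h.bb, h.ba, h.ne⟩⟩

/-- `Z / B` is holonomic for the variables in `S` (Bernstein's growth condition). -/
def Hol (S : Set ι) (N : WM ι) (B Z : Submodule ℂ N.V) : Prop :=
  N.IsW ∧ B ≤ Z ∧ StOn S N B ∧ StOn S N Z ∧ ∃ (Γ : ℕ → Submodule ℂ N.V) (c : ℕ), Monotone Γ ∧
    (∀ k, B ≤ Γ k ∧ Γ k ≤ Z) ∧
    (∀ k, ∀ s ∈ S, ∀ v ∈ Γ k, N.X s v ∈ Γ (k + 1) ∧ N.D s v ∈ Γ (k + 1)) ∧
    (∀ z ∈ Z, ∃ k, z ∈ Γ k) ∧ ∀ k, rk B (Γ k) ≤ ((c * (k + 1) ^ S.ncard : ℕ) : Cardinal)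

/-- The linear map `f` induces an isomorphism `Z / B → Z' / B'` for the variables in `S`. -/
structure PIsoBy (S : Set ι) (N : WM ι) (B Z : Submodule ℂ N.V) (N' : WM ι)
    (B' Z' : Submodule ℂ N'.V) (f : N.V →ₗ[ℂ] N'.V) : Prop where
  le : B ≤ Z
  stB : StOn S N B
  stZ : StOn S N Z
  le' : B' ≤ Z'
  stB' : StOn S N' B'
  stZ' : StOn S N' Z'
  maps : ∀ z ∈ Z, f z ∈ Z'
  ker : ∀ z ∈ Z, f z ∈ B' ↔ z ∈ B
  onto : Z' ≤ Z.map f ⊔ B'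
  comm : ∀ s ∈ S, ∀ z ∈ Z, f (N.X s z) - N'.X s (f z) ∈ B' ∧ f (N.D s z) - N'.D s (f z) ∈ B'

/-- `Z / B` and `Z' / B'` are isomorphic for the variables in `S`. -/
def PIso (S : Set ι) (N : WM ι) (B Z : Submodule ℂ N.V) (N' : WM ι)
    (B' Z' : Submodule ℂ N'.V) : Prop := ∃ f, PIsoBy S N B Z N' B' Z' f

/-- Isomorphic modules. -/
def Iso (L L' : WM ι) : Prop := PIso Set.univ L ⊥ ⊤ L' ⊥ ⊤

/-- A holonomic module. -/
def Holo (N : WM ι) : Prop := Hol Set.univ N ⊥ ⊤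

/-- `Z / B` is a simple subquotient. -/
def SP (N : WM ι) (B Z : Submodule ℂ N.V) : Prop :=
  B < Z ∧ N.Stable B ∧ N.Stable Z ∧ ∀ T, N.Stable T → B ≤ T → T ≤ Z → T = B ∨ T = Z

/-- The twist by the affine map `x ↦ γ x + a`, where `δ` is the inverse of `γ`. -/
@[reducible] noncomputable def aff [Fintype ι] (N : WM ι) (γ : Matrix σ ι ℂ) (δ : Matrix ι σ ℂ) (a : σ → ℂ) :
    WM σ :=
  N.ops (fun s => ∑ t, γ s t • N.X t + a s • (1 : Module.End ℂ N.V)) fun s => ∑ t, δ t s • N.D t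

/-- The twist by a one parameter torus with weights `w`. -/
@[reducible] noncomputable def scale (N : WM ι) (w : ι → ℤ) (u : ℂ) : WM ι :=
  N.ops (fun s => u ^ w s • N.X s) fun s => u ^ (-w s) • N.D s

/-- The Euler operator of the weights `w`. -/
noncomputable def eu [Fintype ι] (N : WM ι) (w : ι → ℤ) : Module.End ℂ N.V :=
  ∑ s, (w s : ℂ) • (N.X s * N.D s)

/-- Partial Fourier transform. -/
@[reducible] def fou {ν : Type} (N : WM (ν ⊕ σ)) : WM (ν ⊕ σ) :=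
  N.ops (Sum.elim (fun j => -N.D (Sum.inl j)) fun s => N.X (Sum.inr s))
    (Sum.elim (fun j => N.X (Sum.inl j)) fun s => N.D (Sum.inr s))

/-- External tensor product. -/
@[reducible] noncomputable def box (M : WM ι) (N : WM σ) : WM (ι ⊕ σ) where
  V := TensorProduct ℂ M.V N.V
  X := Sum.elim (fun s => (M.X s).rTensor N.V) fun s => (N.X s).lTensor M.V
  D := Sum.elim (fun s => (M.D s).rTensor N.V) fun s => (N.D s).lTensor M.V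

end WM

open WM

/-- Functions that are additive on holonomic modules. -/
structure Additive {ι : Type} (φ : Fn ι) : Prop where
  add : ∀ (N : WM ι) B Y Z, Hol Set.univ N B Z → B ≤ Y → Y ≤ Z → N.Stable Y →
    φ N B Z = φ N B Y + φ N Y Z
  iso : ∀ (N : WM ι) B Z (N' : WM ι) B' Z', Hol Set.univ N B Z → N'.IsW →
    PIso Set.univ N B Z N' B' Z' → φ N B Z = φ N' B' Z'

/-- Iterated kernels and cokernels of a list of operators. -/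
def iter {σ : Type} (φ : Fn σ) (M : WM σ) :
    List (Module.End ℂ M.V) → Submodule ℂ M.V → Submodule ℂ M.V → ℤ
  | [], B, Z => φ M B Z
  | T :: l, B, Z => iter φ M l B (Z ⊓ B.comap T) - iter φ M l (B ⊔ Z.map T) Z

open Classical in
/-- Direct image along the coordinate projection given by `r`, one variable at a time. -/
noncomputable def push {σ ι : Type} [Fintype ι] (r : σ → ι) (φ : Fn σ) : Fn ι := fun N B Z =>
  iter φ (N.res r) ((Finset.univ.filter fun t => t ∉ Set.range r).toList.map N.D) B Z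

/-- `T` is evaluation on a fixed class of the Grothendieck group. -/
def IsClass {ι : Type} (T : Fn ι → ℤ) : Prop :=
  ∃ (m : ℕ) (M : Fin m → WM ι) (B Z : ∀ a, Submodule ℂ (M a).V) (n : Fin m → ℤ),
    (∀ a, Hol Set.univ (M a) (B a) (Z a)) ∧ ∀ φ, T φ = ∑ a, n a * φ (M a) (B a) (Z a)

/-- `φ` is the product of `φ₁` and `φ₂` on external tensor products. -/
def ProdType {ι σ : Type} (φ : Fn (ι ⊕ σ)) (φ₁ : Fn ι) (φ₂ : Fn σ) : Prop :=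
  ∀ (M : WM ι) (N : WM σ), M.Holo → N.Holo → φ (M.box N) ⊥ ⊤ = φ₁ M ⊥ ⊤ * φ₂ N ⊥ ⊤

-- deps:
def S_PISO : Prop := ∀ (ι : Type) (S : Set ι),
  (∀ (N : WM ι) B Z, B ≤ Z → StOn S N B → StOn S N Z → PIso S N B Z N B Z) ∧
  (∀ (N : WM ι) B Z (N' : WM ι) B' Z', PIso S N B Z N' B' Z' → PIso S N' B' Z' N B Z) ∧
  (∀ (N : WM ι) B Z (N' : WM ι) B' Z' (N'' : WM ι) B'' Z'', PIso S N B Z N' B' Z' →
    PIso S N' B' Z' N'' B'' Z'' → PIso S N B Z N'' B'' Z'') ∧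
  (∀ (N : WM ι) Y Z, StOn S N Y → StOn S N Z → PIso S N (Y ⊓ Z) Z N Y (Y ⊔ Z)) ∧
  (∀ (N : WM ι) B Z (N' : WM ι) B' Z' f Y₁ Y₂, PIsoBy S N B Z N' B' Z' f → B ≤ Y₁ → Y₁ ≤ Y₂ →
    Y₂ ≤ Z → StOn S N Y₁ → StOn S N Y₂ →
    PIsoBy S N Y₁ Y₂ N' (Y₁.map f ⊔ B') (Y₂.map f ⊔ B') f) ∧
  (∀ (L N : WM ι) B Z, L.IsFactor N B Z ↔ PIso Set.univ N B Z L ⊥ ⊤) ∧
  (∀ (N : WM ι) B Z, N.IsW → B ≤ Z → N.Stable B → N.Stable Z →
    ∃ M : WM ι, M.IsW ∧ PIso Set.univ N B Z M ⊥ ⊤) ∧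
  (∀ (N : WM ι) B Z (N' : WM ι) B' Z', PIso Set.univ N B Z N' B' Z' → SP N B Z → SP N' B' Z') ∧
  (∀ L : WM ι, L.Simple ↔ L.IsW ∧ SP L ⊥ ⊤)

-- deps:
def S_DESC : Prop := ∀ (V : Type) [AddCommGroup V] [Module ℂ V] (B Z : Submodule ℂ V),
  (∃ (V' : Type) (_ : AddCommGroup V') (_ : Module ℂ V') (f : V →ₗ[ℂ] V'),
    (∀ z ∈ Z, f z = 0 ↔ z ∈ B) ∧ Z.map f = ⊤) ∧
  ∀ (V' : Type) [AddCommGroup V'] [Module ℂ V'] (f : V →ₗ[ℂ] V'),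
    (∀ z ∈ Z, f z = 0 ↔ z ∈ B) → Z.map f = ⊤ →
    ∀ T : Module.End ℂ V, (∀ z ∈ Z, T z ∈ Z) → (∀ z ∈ Z, z ∈ B → T z ∈ B) →
      ∃ T' : Module.End ℂ V', ∀ z ∈ Z, T' (f z) = f (T z)

-- deps:
def S_RK : Prop := ∀ (V : Type) [AddCommGroup V] [Module ℂ V],
  (∀ B Y Z : Submodule ℂ V, B ≤ Y → Y ≤ Z → rk B Z = rk B Y + rk Y Z) ∧
  (∀ B B' Y Y' : Submodule ℂ V, B' ≤ B → Y ≤ Y' → rk B Y ≤ rk B' Y') ∧
  (∀ B Y : Submodule ℂ V, rk B (Y ⊔ B) = rk B Y ∧ rk (B ⊓ Y) Y = rk B Y ∧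
    (rk B Y = 0 ↔ Y ≤ B)) ∧
  (∀ B Y Y' : Submodule ℂ V, rk B (Y ⊔ Y') ≤ rk B Y + rk B Y') ∧
  (∀ (V' : Type) [AddCommGroup V'] [Module ℂ V'] (f : V →ₗ[ℂ] V') (B' : Submodule ℂ V')
    (Y : Submodule ℂ V), rk B' (Y.map f) = rk (B'.comap f) Y)

-- deps: RK PISO
def S_HSUB : Prop := ∀ (ι : Type) (S : Set ι),
  (∀ (N : WM ι) B Y Z, Hol S N B Z → B ≤ Y → Y ≤ Z → StOn S N Y → Hol S N B Y ∧ Hol S N Y Z) ∧
  (∀ (N : WM ι) B Z (N' : WM ι) B' Z', Hol S N B Z → N'.IsW → PIso S N B Z N' B' Z' →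
    Hol S N' B' Z') ∧
  (∀ (N : WM ι) B, N.IsW → StOn S N B → Hol S N B B) ∧
  (∀ (σ : Type) (r : σ → ι) (T : Set σ) (N : WM ι) B Z, Function.Injective r → N.IsW →
    (Hol (r '' T) N B Z ↔ Hol T (N.res r) B Z)) ∧
  (∀ (σ : Type) (N : WM ι) (X' D' : σ → Module.End ℂ N.V) B Z, Nat.card ι ≤ Nat.card σ →
    Finite ι → (N.ops X' D').IsW →
    (∀ s, X' s ∈ Submodule.span ℂ (insert 1 (Set.range N.X ∪ Set.range N.D)) ∧
      D' s ∈ Submodule.span ℂ (insert 1 (Set.range N.X ∪ Set.range N.D))) →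
    Hol Set.univ N B Z → Hol Set.univ (N.ops X' D') B Z) ∧
  (∀ (N : WM ι) (X' D' : ι → Module.End ℂ N.V) B Z, (N.ops X' D').IsW →
    (∀ s ∈ S, X' s ∈ Submodule.span ℂ (insert 1 (N.X '' S ∪ N.D '' S)) ∧
      D' s ∈ Submodule.span ℂ (insert 1 (N.X '' S ∪ N.D '' S))) →
    Hol S N B Z → Hol S (N.ops X' D') B Z)

-- deps:
def S_NORD : Prop := ∀ (ι V : Type) [Fintype ι] [AddCommGroup V] [Module ℂ V]
  (A B : ι → Module.End ℂ V) (h : Module.End ℂ V), CCR A B h →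
    nord A B 1 = 1 ∧
    (∀ s f, nord A B (X (Sum.inl s) * f) = A s * nord A B f) ∧
    (∀ s f, nord A B (X (Sum.inr s) * f) = nord A B f * B s) ∧
    (∀ s f, nord A B f * A s = A s * nord A B f + h * nord A B (pderiv (Sum.inr s) f)) ∧
    (∀ s f, B s * nord A B f = nord A B f * B s + h * nord A B (pderiv (Sum.inl s) f)) ∧
    (∀ T : Module.End ℂ V, (∀ s, T * A s = A s * T ∧ T * B s = B s * T) →
      ∀ f, T * nord A B f = nord A B f * T) ∧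
    (∀ Y : Submodule ℂ V, (∀ s, ∀ v ∈ Y, A s v ∈ Y ∧ B s v ∈ Y) → ∀ f, ∀ v ∈ Y, nord A B f v ∈ Y) ∧
    (∀ Γ : ℕ → Submodule ℂ V, Monotone Γ →
      (∀ k s, ∀ v ∈ Γ k, A s v ∈ Γ (k + 1) ∧ B s v ∈ Γ (k + 1)) →
      ∀ f k, ∀ v ∈ Γ k, nord A B f v ∈ Γ (k + f.totalDegree))

-- deps: NORD RK HSUB
def S_BERN : Prop := ∀ (ι : Type) [Finite ι] (N : WM ι) B Z, Hol Set.univ N B Z →
  ∃ l : ℕ, ∀ (n : ℕ) (Y : Fin (n + 1) → Submodule ℂ N.V), StrictMono Y →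
    (∀ j, N.Stable (Y j) ∧ B ≤ Y j ∧ Y j ≤ Z) → n ≤ l

-- deps: BERN
def S_LEN : Prop := ∀ (ι : Type) [Finite ι] (N : WM ι) B Z, Hol Set.univ N B Z →
  (∀ p : Submodule ℂ N.V → Prop, p B →
    (∀ Y Y', B ≤ Y → Y' ≤ Z → SP N Y Y' → p Y → p Y') → p Z) ∧
  (∀ C : Set (Submodule ℂ N.V), C.Nonempty → (∀ Y ∈ C, N.Stable Y ∧ B ≤ Y ∧ Y ≤ Z) →
    (∃ Y ∈ C, ∀ Y' ∈ C, Y ≤ Y' → Y' = Y) ∧ ∃ Y ∈ C, ∀ Y' ∈ C, Y' ≤ Y → Y' = Y) ∧
  (B ≠ Z → ∃ Y, Y ≤ Z ∧ SP N B Y) ∧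
  ∃ G : Finset N.V, (G : Set N.V) ⊆ Z ∧ Z = B ⊔ gen (Set.range N.X ∪ Set.range N.D) G

-- deps: RK HSUB
def S_RED : Prop := ∀ (ι : Type) [Finite ι] (S : Set ι) (N : WM ι) B Z, Hol S N B Z → ∀ t ∈ S,
  Hol (S \ {t}) N B (Z ⊓ B.comap (N.D t)) ∧ Hol (S \ {t}) N (B ⊔ Z.map (N.D t)) Z

-- deps: RK HSUB LEN NORD PISO
def S_EXT : Prop := ∀ (ι : Type) [Finite ι] (S : Set ι) (N : WM ι) B Y Z,
  Hol S N B Y → Hol S N Y Z → Hol S N B Z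

-- deps: RK PISO
def S_DIM : Prop := ∀ (ι : Type) [IsEmpty ι],
  Additive (WM.dim : Fn ι) ∧
  (∀ (N : WM ι) B Z, Hol Set.univ N B Z ↔ B ≤ Z ∧ Module.Finite ℂ (Z.map B.mkQ)) ∧
  (∀ (N : WM ι) B Z, Z ≤ B → N.dim B Z = 0) ∧
  ∀ (σ ρ : Type) [IsEmpty σ] (r : ρ → ι ⊕ σ),
    ProdType (fun N B Z => WM.dim (N.res r) B Z) (WM.dim : Fn ι) (WM.dim : Fn σ)

-- deps: PISO HSUB BERN
def S_MULT : Prop := ∀ (ι : Type) [Finite ι] (L : WM ι), L.Simple →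
  Additive L.mult ∧
  (∀ (N : WM ι) B Z, SP N B Z →
    (L.IsFactor N B Z → L.mult N B Z = 1) ∧ (¬L.IsFactor N B Z → L.mult N B Z = 0)) ∧
  (∀ L' : WM ι, Iso L L' → L.mult = L'.mult) ∧
  (∀ (N : WM ι) B Z, L.mult N B Z ≠ 0 → ∃ B' Z', B ≤ B' ∧ Z' ≤ Z ∧ L.IsFactor N B' Z') ∧
  ∀ (N : WM ι) B Z B' Z', Hol Set.univ N B Z → B ≤ B' → Z' ≤ Z → L.IsFactor N B' Z' →
    0 < L.mult N B Z

-- deps: PISO HSUB LEN MULT
def S_DEC : Prop := ∀ (ι : Type) [Finite ι],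
  (∀ T : Fn ι → ℤ, IsClass T → ∃ (m : ℕ) (L : Fin m → WM ι), (∀ j, (L j).Simple ∧ (L j).Holo) ∧
    (∀ j k, Iso (L j) (L k) → j = k) ∧
    (∀ φ, Additive φ → T φ = ∑ j, T (L j).mult * φ (L j) ⊥ ⊤) ∧
    ∀ L' : WM ι, L'.Simple → T L'.mult ≠ 0 → ∃ j, Iso L' (L j)) ∧
  ∀ φ ψ : Fn ι, Additive φ → Additive ψ → (∀ L : WM ι, L.Simple → L.Holo → φ L ⊥ ⊤ = ψ L ⊥ ⊤) →
    ∀ (N : WM ι) B Z, Hol Set.univ N B Z → φ N B Z = ψ N B Z

-- deps: PISO HSUB RED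
def S_IADD : Prop := ∀ (σ ι : Type) [Finite ι] (r : σ → ι) (φ : Fn σ), Function.Injective r →
  Additive φ → ∀ l : List ι, l.Nodup → (∀ t ∈ l, t ∉ Set.range r) →
    (∀ (N : WM ι) B Y Z, Hol (Set.range r ∪ {t | t ∈ l}) N B Z → B ≤ Y → Y ≤ Z →
      StOn (Set.range r ∪ {t | t ∈ l}) N Y →
      iter φ (N.res r) (l.map N.D) B Z =
        iter φ (N.res r) (l.map N.D) B Y + iter φ (N.res r) (l.map N.D) Y Z) ∧
    (∀ (N : WM ι) B Z (N' : WM ι) B' Z', Hol (Set.range r ∪ {t | t ∈ l}) N B Z → N'.IsW →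
      PIso (Set.range r ∪ {t | t ∈ l}) N B Z N' B' Z' →
      iter φ (N.res r) (l.map N.D) B Z = iter φ (N'.res r) (l.map N'.D) B' Z')

-- deps: PISO HSUB RED IADD
def S_IPERM : Prop := ∀ (σ ι : Type) [Finite ι] (r : σ → ι) (φ : Fn σ), Function.Injective r →
  Additive φ → ∀ l l' : List ι, l.Perm l' → l.Nodup → (∀ t ∈ l, t ∉ Set.range r) →
    ∀ (N : WM ι) B Z, Hol (Set.range r ∪ {t | t ∈ l}) N B Z →
      iter φ (N.res r) (l.map N.D) B Z = iter φ (N.res r) (l'.map N.D) B Z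

-- deps: HSUB RED IADD IPERM
def S_PUSH : Prop := ∀ (σ ι : Type) [Fintype ι] (r : σ → ι), Function.Injective r →
  (∀ φ : Fn σ, Additive φ → Additive (push r φ)) ∧
  (∀ (φ : Fn σ) (l : List ι), Additive φ → l.Nodup → (∀ t, t ∈ l ↔ t ∉ Set.range r) →
    ∀ (N : WM ι) B Z, Hol Set.univ N B Z →
      push r φ N B Z = iter φ (N.res r) (l.map N.D) B Z) ∧
  (∀ (φ : Fn σ) (ι' : Type) [Fintype ι'] (r' : ι → ι'), Additive φ → Function.Injective r' →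
    ∀ (N : WM ι') B Z, Hol Set.univ N B Z →
      push (r' ∘ r) φ N B Z = push r' (push r φ) N B Z) ∧
  (∀ φ : Fn σ, Function.Surjective r → ∀ (N : WM ι) B Z, push r φ N B Z = φ (N.res r) B Z) ∧
  ∀ (N : WM ι) B Z, Hol Set.univ N B Z → IsClass fun φ => push r φ N B Z

-- deps:
def S_SCHUR : Prop := ∀ (ι : Type) (L : WM ι), L.Simple → L.Holo → ∀ T : Module.End ℂ L.V,
  (∀ s, T * L.X s = L.X s * T ∧ T * L.D s = L.D s * T) → ∃ c : ℂ, T = c • (1 : Module.End ℂ L.V)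

-- deps:
def S_DIAG : Prop := ∀ (V : Type) [AddCommGroup V] [Module ℂ V] (T : Module.End ℂ V), Diag T →
  (∀ v, ∃ c : ℂ →₀ V, (∀ a, T (c a) = a • c a) ∧ (c.sum fun _ u => u) = v) ∧
  (∀ (Y : Submodule ℂ V), (∀ v ∈ Y, T v ∈ Y) → ∀ c : ℂ →₀ V, (∀ a, T (c a) - a • c a ∈ Y) →
    (c.sum fun _ u => u) ∈ Y → ∀ a, c a ∈ Y) ∧
  ∀ g : ℂ → ℂ, ∃ U : Module.End ℂ V, (∀ a v, T v = a • v → U v = g a • v) ∧
    ∀ (Y : Submodule ℂ V), (∀ v ∈ Y, T v ∈ Y) → ∀ v ∈ Y, U v ∈ Y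

-- deps:
def S_EIG : Prop := ∀ (ι : Type) (L : WM ι), L.Simple → ∀ T : Module.End ℂ L.V,
  (∀ s, ∀ A ∈ ({L.X s, L.D s} : Set (Module.End ℂ L.V)),
    A ∈ ⨆ k : ℤ, Module.End.eigenspace (LinearMap.mulLeft ℂ T - LinearMap.mulRight ℂ T) (k : ℂ)) →
  (∃ W : Submodule ℂ L.V, W ≠ ⊥ ∧ Module.Finite ℂ W ∧ ∀ v ∈ W, T v ∈ W) →
  Diag T ∧ ∃ a₀ : ℂ, ∀ (a : ℂ) (v : L.V), v ≠ 0 → T v = a • v → ∃ k : ℤ, a = a₀ + k

/-- The solutions at the point `u` of a linear system with polynomial coefficients. -/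
noncomputable def kerAt {α r : Type} [Fintype r] (ρ : α → r → Polynomial ℂ) (u : ℂ) :
    Submodule ℂ (r → ℂ) :=
  ⨅ a, LinearMap.ker (∑ j, (ρ a j).eval u • (LinearMap.proj j : (r → ℂ) →ₗ[ℂ] ℂ))

-- deps:
def S_PSOL : Prop := ∀ (α r : Type) [Fintype r] (ρ : α → r → Polynomial ℂ),
  (∀ u v, v ∈ kerAt ρ u ↔ ∀ a, ∑ j, (ρ a j).eval u * v j = 0) ∧
  ∀ u₀ : ℂ, ∃ (d : ℕ) (m : Fin d → r → Polynomial ℂ), (∀ i a, ∑ j, ρ a j * m i j = 0) ∧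
    LinearIndependent ℂ (fun i j => (m i j).eval u₀) ∧
    {u | d < Module.finrank ℂ (kerAt ρ u)}.Finite

-- deps: PISO NORD SCHUR EIG PSOL
def S_INT : Prop := ∀ (ι : Type) [Fintype ι] (L : WM ι) (w : ι → ℤ), L.Simple → L.Holo →
  ∀ (m : ℕ) (M : Fin m → WM ι), (∀ u : ℂ, u ≠ 0 → ∃ j, Iso (L.scale w u) (M j)) → Diag (L.eu w)

-- deps: PISO HSUB RED DIAG EXT
def S_FONE : Prop := ∀ (σ ι : Type) [Finite ι] (r : σ → ι) (t : ι) (φ : Fn σ) (N : WM ι) B Z,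
  Additive φ → Function.Injective r → t ∉ Set.range r → Hol (Set.range r ∪ {t}) N B Z →
    Z ≤ ⨆ a : ℂ, Z ⊓ B.comap (N.X t * N.D t - a • (1 : Module.End ℂ N.V)) →
    iter φ (N.res r) [N.D t] B Z = -iter φ (N.res r) [N.X t] B Z

-- deps: HSUB RED PUSH DIAG FONE
def S_FOUR : Prop := ∀ (ν σ : Type) [Fintype ν] [Fintype σ] (φ : Fn σ) (w : ν → ℤ)
  (N : WM (ν ⊕ σ)), Additive φ → (∀ j, w j ≠ 0) → N.Holo → Diag (N.eu (Sum.elim w 0)) →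
    push Sum.inr φ N ⊥ ⊤ = (-1) ^ Fintype.card ν * push Sum.inr φ N.fou ⊥ ⊤

-- deps: HSUB
def S_AFFM : Prop := ∀ (ι σ : Type) [Fintype ι] [Fintype σ] [DecidableEq ι] [DecidableEq σ]
  (γ : Matrix σ ι ℂ) (δ : Matrix ι σ ℂ) (a : σ → ℂ), γ * δ = 1 → δ * γ = 1 →
    (∀ N : WM ι, N.IsW → (N.aff γ δ a).IsW) ∧
    (∀ (N : WM ι) B, (N.aff γ δ a).Stable B ↔ N.Stable B) ∧
    (∀ N : WM ι, N.Simple → (N.aff γ δ a).Simple) ∧
    (∀ (N : WM ι) B Z, Hol Set.univ N B Z → Hol Set.univ (N.aff γ δ a) B Z) ∧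
    (∀ (N : WM ι) B Z (N' : WM ι) B' Z', PIso Set.univ (N.aff γ δ a) B Z (N'.aff γ δ a) B' Z' ↔
      PIso Set.univ N B Z N' B' Z') ∧
    (∀ (L N : WM ι) B Z, (L.aff γ δ a).mult (N.aff γ δ a) B Z = L.mult N B Z) ∧
    (∀ N : WM ι, (N.aff γ δ a).aff δ γ (-δ.mulVec a) = N) ∧
    ∀ φ : Fn σ, Additive φ → Additive fun (N : WM ι) B Z => φ (N.aff γ δ a) B Z

-- deps: HSUB
def S_RESM : Prop := ∀ (ι σ : Type) (e : σ ≃ ι),
    (∀ N : WM ι, N.IsW → (N.res e).IsW) ∧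
    (∀ (N : WM ι) B, (N.res e).Stable B ↔ N.Stable B) ∧
    (∀ N : WM ι, N.Simple → (N.res e).Simple) ∧
    (∀ (N : WM ι) B Z, Hol Set.univ N B Z → Hol Set.univ (N.res e) B Z) ∧
    (∀ (N : WM ι) B Z (N' : WM ι) B' Z', PIso Set.univ (N.res e) B Z (N'.res e) B' Z' ↔
      PIso Set.univ N B Z N' B' Z') ∧
    (∀ (L N : WM ι) B Z, (L.res e).mult (N.res e) B Z = L.mult N B Z) ∧
    ∀ φ : Fn σ, Additive φ → Additive fun (N : WM ι) B Z => φ (N.res e) B Z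

-- deps: RK HSUB
def S_BOXH : Prop := ∀ (ι σ : Type) [Finite ι] [Finite σ] (M : WM ι) (N : WM σ),
  (M.IsW → N.IsW → (M.box N).IsW) ∧ (M.Holo → N.Holo → (M.box N).Holo) ∧
  Iso ((M.box N).res Sum.swap) (N.box M) ∧
  ∀ (M' : WM ι) (N' : WM σ), Iso M M' → Iso N N' → Iso (M.box N) (M'.box N')

-- deps: PISO HSUB BOXH
def S_BOXA : Prop := ∀ (ι σ : Type) [Finite ι] [Finite σ] (φ : Fn (ι ⊕ σ)) (N : WM σ),
  Additive φ → N.Holo → Additive fun (M : WM ι) B Z => φ (M.box N)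
    (LinearMap.range (B.subtype.rTensor N.V)) (LinearMap.range (Z.subtype.rTensor N.V))

-- deps: PISO SCHUR BOXH
def S_BOXS : Prop := ∀ (ι σ : Type) [Finite ι] [Finite σ] (M : WM ι) (N : WM σ), M.Simple →
  M.Holo → N.Simple → N.Holo → (M.box N).Simple ∧
    ∀ (M' : WM ι) (N' : WM σ), M'.Simple → M'.Holo → N'.Simple → N'.Holo →
      Iso (M.box N) (M'.box N') → Iso M M' ∧ Iso N N'

-- deps: PISO HSUB MULT DEC RESM BOXH BOXA BOXS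
def S_BOXM : Prop := ∀ (ι σ : Type) [Finite ι] [Finite σ] (M : WM ι) (N : WM σ), M.Simple →
  M.Holo → N.Simple → N.Holo → ProdType (M.box N).mult M.mult N.mult

-- deps: PISO HSUB RED PUSH RESM BOXH BOXA
def S_BOXP : Prop := ∀ (σ₁ σ₂ ι₁ ι₂ : Type) [Fintype ι₁] [Fintype ι₂] (r₁ : σ₁ → ι₁) (r₂ : σ₂ → ι₂)
  (φ : Fn (σ₁ ⊕ σ₂)) (φ₁ : Fn σ₁) (φ₂ : Fn σ₂), Function.Injective r₁ → Function.Injective r₂ →
  Additive φ → Additive φ₁ → Additive φ₂ → ProdType φ φ₁ φ₂ →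
    ProdType (push (Sum.map r₁ r₂) φ) (push r₁ φ₁) (push r₂ φ₂)

end Pool.Agent.P.MP_52ab5a_al
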