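import Pool.Agent.P.MP_52ab5a_al.A.Iface

/-! Step INT of the open orbit project. -/

namespace Pool.Agent.P.MP_52ab5a_al

open MvPolynomial
open WM

namespace IntAux

section lin
variable {V : Type} [AddCommGroup V] [Module ℂ V]

/-- Differentiation of a Laurent identity. -/
theorem dz {J : Type} (s : Finset J) (e : J → ℤ) (y : J → V)
    (h : ∀ t : ℂ, t ≠ 0 → ∑ j ∈ s, t ^ e j • y j = 0) (t : ℂ) (ht : t ≠ 0) :
    ∑ j ∈ s, t ^ e j • (e j : ℂ) • y j = 0 := by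
  refine (Module.forall_dual_apply_eq_zero_iff ℂ _).1 fun l => ?_
  have h1 : HasDerivAt (fun t : ℂ => ∑ j ∈ s, t ^ e j * l (y j))
      (∑ j ∈ s, (e j * t ^ (e j - 1)) * l (y j)) t :=
    HasDerivAt.fun_sum fun j _ => (hasDerivAt_zpow (e j) t (Or.inl ht)).mul_const _
  have h2 : (fun t : ℂ => ∑ j ∈ s, t ^ e j * l (y j)) =ᶠ[nhds t] fun _ => 0 := by
    filter_upwards [isOpen_ne.mem_nhds ht] with u hu
    simpa using congrArg l (h u hu)
  have h3 := h1.unique ((hasDerivAt_const t (0 : ℂ)).congr_of_eventuallyEq h2)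
  have h4 := congrArg (t * ·) h3
  simp only [Finset.mul_sum, mul_zero] at h4
  rw [map_sum, ← h4]
  refine Finset.sum_congr rfl fun j _ => ?_
  rw [map_smul, map_smul, zpow_sub_one₀ ht, smul_eq_mul, smul_eq_mul]
  field_simp

theorem pow_mem (E : Module.End ℂ V) (v : V) (W : Submodule ℂ V) (s : Finset ℕ)
    (Q : (ℕ → V) → Prop) (h1 : ∀ m, Q m → Q fun i => (i : ℂ) • m i - E (m i))
    (h2 : ∀ m, Q m → ∃ c : ℂ, ∑ i ∈ s, m i = c • v) {m : ℕ → V} (hm : Q m) (hW : ∀ i, m i ∈ W)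
    (h0 : ∑ i ∈ s, m i ≠ 0) (j : ℕ) : (E ^ j) v ∈ W := by
  let F : ℕ → Submodule ℂ V := fun j => Submodule.span ℂ {x | ∃ i < j, x = (E ^ i) v}
  have f1 : ∀ j, F j ≤ F (j + 1) := fun j =>
    Submodule.span_mono fun x ⟨i, hi, hx⟩ => ⟨i, by omega, hx⟩
  have f2 : ∀ j, F j ≤ (F (j + 1)).comap E := fun j => Submodule.span_le.2 (by
    rintro _ ⟨i, hi, rfl⟩
    exact Submodule.subset_span ⟨i + 1, by omega, by rw [pow_succ']; rfl⟩)
  have key : ∀ (j : ℕ) (m : ℕ → V), Q m → ∀ c : ℂ, ∑ i ∈ s, m i = c • v →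
      ∑ i ∈ s, (i : ℂ) ^ j • m i - c • (E ^ j) v ∈ F j := by
    intro j
    induction j with
    | zero => intro m _ c hc; simp [hc]
    | succ j ih =>
      intro m hm c hc
      obtain ⟨c', hc'⟩ := h2 _ (h1 m hm)
      have h3 := add_mem (add_mem (f1 j (ih _ (h1 m hm) c' hc'))
        ((F (j + 1)).smul_mem c' (Submodule.subset_span ⟨j, by omega, rfl⟩))) (f2 j (ih m hm c hc))
      have e : ∑ i ∈ s, (i : ℂ) ^ (j + 1) • m i = ∑ i ∈ s, (i : ℂ) ^ j • ((i : ℂ) • m i - E (m i)) +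
          E (∑ i ∈ s, (i : ℂ) ^ j • m i) := by
        rw [map_sum, ← Finset.sum_add_distrib]
        exact Finset.sum_congr rfl fun i _ => by
          rw [map_smul, smul_sub, sub_add_cancel, smul_smul, pow_succ]
      rwa [sub_add_cancel, map_sub, map_smul, ← add_sub_assoc, ← e, ← Module.End.mul_apply,
        ← pow_succ'] at h3
  obtain ⟨c, hc⟩ := h2 m hm
  have hc0 : c ≠ 0 := fun h => h0 (by rw [hc, h, zero_smul])
  induction j using Nat.strong_induction_on with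
  | _ j ih =>
    have h3 : F j ≤ W := Submodule.span_le.2 (by rintro _ ⟨i, hi, rfl⟩; exact ih i hi)
    have h4 := sub_mem (W.sum_mem fun i (_ : i ∈ s) => W.smul_mem ((i : ℂ) ^ j) (hW i))
      (h3 (key j m hm c hc))
    rwa [sub_sub_cancel, W.smul_mem_iff hc0] at h4

theorem shift (S : Finset ℤ) : ∃ (N : ℕ) (g : ℤ → ℕ), ∀ d ∈ S, (g d : ℤ) = N + d := by
  refine ⟨∑ d ∈ S, d.natAbs, fun d => ((∑ d ∈ S, d.natAbs : ℕ) + d).toNat, fun d hd => ?_⟩
  have := Finset.single_le_sum (f := fun d : ℤ => d.natAbs) (fun _ _ => Nat.zero_le _) hd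
  exact Int.toNat_of_nonneg (by omega)

/-- Polynomial families of solutions. -/
theorem fam (hP : S_PSOL) {α : Type} (S : α → Finset ℤ) (P : α → ℤ → Module.End ℂ V)
    (W : Submodule ℂ V) [Module.Finite ℂ W] (h : {t : ℂ | t ≠ 0 ∧ ∃ x ∈ W, x ≠ 0 ∧
      ∀ a, ∑ d ∈ S a, t ^ d • P a d x = 0}.Infinite) :
    ∃ (s : Finset ℕ) (m : ℕ → V), (∀ i, m i ∈ W) ∧ ∑ i ∈ s, m i ≠ 0 ∧
      ∀ a (t : ℂ), t ≠ 0 → ∑ d ∈ S a, t ^ d • P a d (∑ i ∈ s, t ^ i • m i) = 0 := by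
  let e := Module.finBasis ℂ W
  choose N g hg using shift
  let ρ : α × Module.Dual ℂ V → Fin (Module.finrank ℂ W) → Polynomial ℂ := fun a j =>
    ∑ d ∈ S a.1, Polynomial.C (a.2 (P a.1 d (e j))) * Polynomial.X ^ g (S a.1) d
  have key : ∀ (t : ℂ), t ≠ 0 → ∀ x : Fin (Module.finrank ℂ W) → ℂ,
      (∀ a, ∑ j, (ρ a j).eval t * x j = 0) ↔
        ∀ a, ∑ d ∈ S a, t ^ d • P a d (∑ j, x j • (e j : V)) = 0 := by
    intro t ht x
    rw [Prod.forall]
    refine forall_congr' fun a => ?_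
    rw [← Module.forall_dual_apply_eq_zero_iff ℂ]
    refine forall_congr' fun l => ?_
    rw [← mul_right_inj' (zpow_ne_zero (N (S a)) ht) (b := l _), mul_zero]
    refine iff_of_eq (congrArg (· = 0) ?_)
    simp only [ρ, Polynomial.eval_finsetSum, Polynomial.eval_mul, Polynomial.eval_C,
      Polynomial.eval_pow, Polynomial.eval_X, map_sum, map_smul, smul_eq_mul, Finset.mul_sum,
      Finset.sum_mul]
    rw [Finset.sum_comm]
    refine Finset.sum_congr rfl fun d hd => Finset.sum_congr rfl fun j _ => ?_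
    rw [← zpow_natCast, hg _ d hd, zpow_add₀ ht]
    ring
  obtain ⟨h1, h2⟩ := hP _ _ ρ
  obtain ⟨d, q, h3, h4, h5⟩ := h2 1
  rcases Nat.eq_zero_or_pos d with rfl | hd
  · refine absurd (h5.subset ?_) h
    rintro t ⟨ht, x, hx, h6, h7⟩
    have h8 : ∑ j, e.repr ⟨x, hx⟩ j • (e j : V) = x := by
      simpa only [map_sum, map_smul, Submodule.subtype_apply] using
        congrArg W.subtype (e.sum_repr ⟨x, hx⟩)
    refine Module.finrank_pos_iff_exists_ne_zero.2 ⟨⟨e.repr ⟨x, hx⟩, (h1 _ _).2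
      ((key t ht _).2 (by rw [h8]; exact h7))⟩, fun h9 => h6 ?_⟩
    rw [← h8, show (e.repr ⟨x, hx⟩ : _ → ℂ) = 0 from congrArg Subtype.val h9]
    simp
  let n := Finset.univ.sup (fun j => (q ⟨0, hd⟩ j).natDegree) + 1
  have h6 : ∀ t : ℂ, ∑ i ∈ Finset.range n, t ^ i • ∑ j, (q ⟨0, hd⟩ j).coeff i • (e j : V) =
      ∑ j, (q ⟨0, hd⟩ j).eval t • (e j : V) := fun t => by
    simp only [Finset.smul_sum, smul_smul]
    rw [Finset.sum_comm]
    refine Finset.sum_congr rfl fun j _ => ?_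
    rw [Polynomial.eval_eq_sum_range' (n := n) (Nat.lt_succ_of_le (Finset.le_sup
      (f := fun j => (q ⟨0, hd⟩ j).natDegree) (Finset.mem_univ j))), Finset.sum_smul]
    exact Finset.sum_congr rfl fun i _ => by rw [mul_comm]
  refine ⟨Finset.range n, fun i => ∑ j, (q ⟨0, hd⟩ j).coeff i • (e j : V),
    fun i => W.sum_mem fun j _ => W.smul_mem _ (e j).2, fun h7 => h4.ne_zero ⟨0, hd⟩ ?_,
    fun a t ht => ?_⟩
  · have h8 := h6 1
    simp only [one_pow, one_smul, h7] at h8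
    exact funext (Fintype.linearIndependent_iff.1
      (e.linearIndependent.map' W.subtype W.ker_subtype) _ h8.symm)
  · rw [h6]
    refine (key t ht _).1 (fun a => ?_) a
    simpa [Polynomial.eval_finsetSum] using congrArg (Polynomial.eval t) (h3 ⟨0, hd⟩ a)

end lin

variable {ι : Type} [Fintype ι] {L : WM ι} (w : ι → ℤ)

theorem eu_X (h : L.IsW) (s : ι) : L.eu w * L.X s = L.X s * L.eu w + (w s : ℂ) • L.X s := by
  rw [eu, Finset.sum_mul, Finset.mul_sum, ← sub_eq_iff_eq_add', ← Finset.sum_sub_distrib,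
    Finset.sum_eq_single s]
  · rw [smul_mul_assoc, mul_smul_comm, ← smul_sub, mul_assoc, ← mul_sub, h.2.2.1, mul_one]
  · intro t _ ht
    rw [smul_mul_assoc, mul_smul_comm, mul_assoc, h.2.2.2 t s ht, ← mul_assoc, h.1, mul_assoc,
      sub_self]
  · simp

theorem eu_D (h : L.IsW) (s : ι) :
    L.eu w * L.D s = L.D s * L.eu w + ((-w s : ℤ) : ℂ) • L.D s := by
  rw [eu, Finset.sum_mul, Finset.mul_sum, ← sub_eq_iff_eq_add', ← Finset.sum_sub_distrib,
    Finset.sum_eq_single s]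
  · rw [smul_mul_assoc, mul_smul_comm, ← smul_sub, ← mul_assoc, ← sub_mul, ← neg_sub, h.2.2.1,
      neg_one_mul, smul_neg, Int.cast_neg, neg_smul]
  · intro t _ ht
    rw [smul_mul_assoc, mul_smul_comm, ← mul_assoc, h.2.2.2 s t ht.symm, mul_assoc, h.2.1,
      mul_assoc, sub_self]
  · simp

/-- Twisted endomorphisms. -/
def Tw (t : ℂ) (f : Module.End ℂ L.V) : Prop :=
  ∀ s, f * L.X s = t ^ w s • (L.X s * f) ∧ f * L.D s = t ^ (-w s) • (L.D s * f)

variable (L) in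
/-- Homogeneous operators. -/
def H (d : ℤ) : Submodule ℂ (Module.End ℂ L.V) where
  carrier := {P | L.eu w * P = P * L.eu w + (d : ℂ) • P ∧
    ∀ t, t ≠ 0 → ∀ f, Tw w t f → f * P = t ^ d • (P * f)}
  add_mem' {P P'} h h' := ⟨by rw [mul_add, add_mul, h.1, h'.1, smul_add]; abel,
    fun t ht f hf => by rw [mul_add, add_mul, h.2 t ht f hf, h'.2 t ht f hf, smul_add]⟩
  zero_mem' := by simp
  smul_mem' c P h := ⟨by rw [mul_smul_comm, smul_mul_assoc, h.1, smul_add, smul_comm],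
    fun t ht f hf => by rw [mul_smul_comm, smul_mul_assoc, h.2 t ht f hf, smul_comm]⟩

variable {w}

theorem H_mul {d e : ℤ} {P P' : Module.End ℂ L.V} (h : P ∈ H L w d) (h' : P' ∈ H L w e) :
    P * P' ∈ H L w (d + e) := by
  refine ⟨?_, fun t ht f hf => ?_⟩
  · rw [← mul_assoc, h.1, add_mul, mul_assoc, h'.1, mul_add, mul_smul_comm, smul_mul_assoc,
      Int.cast_add, add_smul, mul_assoc]
    abel
  · rw [← mul_assoc, h.2 t ht f hf, smul_mul_assoc, mul_assoc, h'.2 t ht f hf, mul_smul_comm,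
      smul_smul, zpow_add₀ ht, mul_assoc]

theorem A_mul {d : ℤ} {P P' : Module.End ℂ L.V} (h : P ∈ H L w d) (h' : P' ∈ ⨆ e, H L w e) :
    P * P' ∈ ⨆ e, H L w e :=
  (iSup_le fun _ _ hQ => Submodule.mem_iSup_of_mem _ (H_mul h hQ) :
    ⨆ e, H L w e ≤ (⨆ e, H L w e).comap (LinearMap.mulLeft ℂ P)) h'

theorem schur (hS : S_SCHUR) (h : L.Simple) (h' : L.Holo) {v x : L.V} (hv : v ≠ 0)
    (hx : ∀ P ∈ ⨆ e, H L w e, P v = 0 → P x = 0) : ∃ c : ℂ, x = c • v := by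
  have hX : ∀ s, ∀ P ∈ ⨆ e, H L w e, L.X s * P ∈ ⨆ e, H L w e := fun s P =>
    A_mul ⟨eu_X w h.1 s, fun _ _ _ hf => (hf s).1⟩
  have hD : ∀ s, ∀ P ∈ ⨆ e, H L w e, L.D s * P ∈ ⨆ e, H L w e := fun s P =>
    A_mul ⟨eu_D w h.1 s, fun _ _ _ hf => (hf s).2⟩
  have h1 : (1 : Module.End ℂ L.V) ∈ ⨆ e, H L w e := Submodule.mem_iSup_of_mem 0 ⟨by simp, by simp⟩
  let ev : L.V → ↥(⨆ e, H L w e) →ₗ[ℂ] L.V := fun y =>
    (LinearMap.applyₗ y).comp (⨆ e, H L w e).subtype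
  have h2 : LinearMap.range (ev v) = ⊤ := by
    refine (h.2.2 _ ?_).resolve_left fun h2 => hv ?_
    · rintro s _ ⟨P, rfl⟩
      exact ⟨⟨⟨_, hX s _ P.2⟩, rfl⟩, ⟨⟨_, hD s _ P.2⟩, rfl⟩⟩
    · exact (Submodule.mem_bot ℂ).1 (h2 ▸ ⟨⟨1, h1⟩, rfl⟩)
  obtain ⟨g, hg⟩ := (ev v).exists_rightInverse_of_surjective h2
  have h3 : ∀ P, ev x (g (ev v P)) = ev x P := fun P => by
    rw [← sub_eq_zero, ← map_sub]
    refine hx _ (g (ev v P) - P).2 ?_
    change ev v (g (ev v P) - P) = 0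
    rw [map_sub, sub_eq_zero]
    exact LinearMap.congr_fun hg _
  obtain ⟨c, hc⟩ := hS ι L h h' ((ev x).comp g) fun s => by
    constructor <;> refine LinearMap.ext fun z => ?_ <;>
      obtain ⟨P, rfl⟩ := LinearMap.range_eq_top.1 h2 z
    · exact (h3 ⟨_, hX s _ P.2⟩).trans (congrArg (L.X s) (h3 P).symm)
    · exact (h3 ⟨_, hD s _ P.2⟩).trans (congrArg (L.D s) (h3 P).symm)
  exact ⟨c, (h3 ⟨1, h1⟩).symm.trans (LinearMap.congr_fun hc v)⟩

omit [Fintype ι] in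
theorem tw_of_iso {u u' : ℂ} (hu : u ≠ 0) (h : Iso (L.scale w u) (L.scale w u'))
    {v : L.V} (hv : v ≠ 0) : ∃ f : Module.End ℂ L.V, Tw w (u' / u) f ∧ f v ≠ 0 := by
  obtain ⟨f, hf⟩ := h
  refine ⟨f, fun s => ?_, fun h => hv ((hf.ker v trivial).1 h)⟩
  constructor <;> refine LinearMap.ext fun z => ?_
  · have h1 : f (u ^ w s • L.X s z) = u' ^ w s • L.X s (f z) :=
      sub_eq_zero.1 (hf.comm s trivial z trivial).1
    rw [map_smul, ← eq_inv_smul_iff₀ (zpow_ne_zero _ hu), smul_smul] at h1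
    rw [div_zpow, div_eq_inv_mul]
    exact h1
  · have h1 : f (u ^ (-w s) • L.D s z) = u' ^ (-w s) • L.D s (f z) :=
      sub_eq_zero.1 (hf.comm s trivial z trivial).2
    rw [map_smul, ← eq_inv_smul_iff₀ (zpow_ne_zero _ hu), smul_smul] at h1
    rw [div_zpow, div_eq_inv_mul]
    exact h1

omit [Fintype ι] in
theorem pigeon (hP : S_PISO) (h : L.Holo) {m : ℕ} {M : Fin m → WM ι}
    (hM : ∀ u : ℂ, u ≠ 0 → ∃ j, Iso (L.scale w u) (M j)) {v : L.V} (hv : v ≠ 0) :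
    ∃ W : Submodule ℂ L.V, Module.Finite ℂ W ∧
      {t : ℂ | t ≠ 0 ∧ ∃ f : Module.End ℂ L.V, Tw w t f ∧ f v ≠ 0 ∧ f v ∈ W}.Infinite := by
  obtain ⟨-, -, -, -, Γ, c, -, -, -, h1, h2⟩ := h
  have h3 : ∀ k, Module.Finite ℂ (Γ k) := fun k => by
    have := Module.rank_lt_aleph0_iff.1 ((h2 k).trans_lt Cardinal.natCast_lt_aleph0)
    exact .equiv (Submodule.equivMapOfInjective _
      (LinearMap.ker_eq_bot.1 (Submodule.ker_mkQ ⊥)) (Γ k)).symm
  by_contra h4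
  have h5 : {t : ℂ | t ≠ 0 ∧ ∃ f : Module.End ℂ L.V, Tw w t f ∧ f v ≠ 0}.Countable := by
    refine (Set.countable_iUnion fun k =>
      (Set.not_infinite.1 fun h5 => h4 ⟨Γ k, h3 k, h5⟩).countable).mono ?_
    rintro t ⟨ht, f, h5, h6⟩
    obtain ⟨k, hk⟩ := h1 (f v) trivial
    exact Set.mem_iUnion.2 ⟨k, ht, f, h5, h6, hk⟩
  have h6 : ∀ j, {u : ℂ | u ≠ 0 ∧ Iso (L.scale w u) (M j)}.Countable := fun j => by
    rcases Set.eq_empty_or_nonempty {u : ℂ | u ≠ 0 ∧ Iso (L.scale w u) (M j)} with h6 | ⟨u, hu, h6⟩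
    · rw [h6]
      exact Set.countable_empty
    · refine Set.Countable.mono (fun u' hu' => ?_) (h5.image (· * u))
      exact ⟨u' / u, ⟨div_ne_zero hu'.1 hu, tw_of_iso hu
        ((hP ι _).2.2.1 _ _ _ _ _ _ _ _ _ h6 ((hP ι _).2.1 _ _ _ _ _ _ hu'.2)) hv⟩,
        div_mul_cancel₀ _ hu⟩
  refine not_countable_complex (((Set.countable_iUnion h6).insert 0).mono fun u _ => ?_)
  by_cases hu : u = 0
  · exact Or.inl hu
  · obtain ⟨j, hj⟩ := hM u hu
    exact Or.inr (Set.mem_iUnion.2 ⟨j, hu, hj⟩)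

end IntAux

open IntAux in
theorem p_INT (hPISO : S_PISO) (hNORD : S_NORD) (hSCHUR : S_SCHUR) (hEIG : S_EIG) (hPSOL : S_PSOL) :
    S_INT := by
  intro ι _ L w h h' m M hM
  have := h.2.1
  obtain ⟨v, hv⟩ := exists_ne (0 : L.V)
  obtain ⟨W, _, hW⟩ := pigeon hPISO h' hM hv
  let α := {c : ℤ →₀ Module.End ℂ L.V // (∀ d, c d ∈ H L w d) ∧ (c.sum fun _ P => P) v = 0}
  obtain ⟨s, x, h1, h2, h3⟩ := fam hPSOL (fun c : α => c.1.support) (fun c => c.1) W (hW.mono (by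
    rintro t ⟨ht, f, h1, h2, h3⟩
    refine ⟨ht, f v, h3, h2, fun c => ?_⟩
    have h4 := congrArg f c.2.2
    rw [Finsupp.sum, LinearMap.sum_apply, map_sum, map_zero] at h4
    exact (Finset.sum_congr rfl fun d _ =>
      (LinearMap.congr_fun ((c.2.1 d).2 t ht f h1) v).symm).trans h4))
  have h4 : ∀ (c : α) (t : ℂ), t ≠ 0 → ∀ y : ℕ → L.V,
      ∑ d ∈ c.1.support, t ^ d • c.1 d (∑ i ∈ s, t ^ i • y i) =
        ∑ p ∈ c.1.support ×ˢ s, t ^ (p.1 + p.2) • c.1 p.1 (y p.2) := fun c t ht y => by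
    simp only [Finset.sum_product, map_sum, map_smul, Finset.smul_sum, smul_smul, zpow_add₀ ht,
      zpow_natCast]
  have h5 := pow_mem (L.eu w) v W s (fun y => ∀ (c : α) (t : ℂ), t ≠ 0 →
    ∑ d ∈ c.1.support, t ^ d • c.1 d (∑ i ∈ s, t ^ i • y i) = 0) (fun y hy c t ht => ?_)
    (fun y hy => schur (w := w) hSCHUR h h' hv fun P hP h5 => ?_) h3 h1 h2
  · refine (hEIG ι L h (L.eu w) (fun s A hA => ?_) ⟨Submodule.span ℂ (Set.range fun j : ℕ =>
      (L.eu w ^ j) v), fun h6 => hv ?_, ?_, ?_⟩).1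
    · rcases hA with rfl | rfl
      · exact Submodule.mem_iSup_of_mem (w s) (Module.End.mem_eigenspace_iff.2
          (sub_eq_iff_eq_add'.2 (eu_X w h.1 s)))
      · exact Submodule.mem_iSup_of_mem (-w s) (Module.End.mem_eigenspace_iff.2
          (sub_eq_iff_eq_add'.2 (eu_D w h.1 s)))
    · exact (Submodule.mem_bot ℂ).1 (h6 ▸ Submodule.subset_span ⟨0, rfl⟩)
    · exact Submodule.finiteDimensional_of_le (S₂ := W)
        (Submodule.span_le.2 (by rintro _ ⟨j, rfl⟩; exact h5 j))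
    · refine fun y hy => (Submodule.span_le (p := Submodule.comap (L.eu w) (Submodule.span ℂ
        (Set.range fun j : ℕ => (L.eu w ^ j) v)))).2 ?_ hy
      rintro _ ⟨j, rfl⟩
      exact Submodule.subset_span ⟨j + 1, by simp only [pow_succ']; rfl⟩
  · have h5 := dz _ _ _ (fun t ht => (h4 c t ht y).symm.trans (hy c t ht)) t ht
    have h6 := congrArg (L.eu w) ((h4 c t ht y).symm.trans (hy c t ht))
    rw [map_sum, map_zero] at h6
    refine (h4 c t ht _).trans (Eq.trans ?_ (sub_eq_zero.2 (h5.trans h6.symm)))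
    rw [← Finset.sum_sub_distrib]
    refine Finset.sum_congr rfl fun p _ => ?_
    have h7 : L.eu w (c.1 p.1 (y p.2)) = c.1 p.1 (L.eu w (y p.2)) + (p.1 : ℂ) • c.1 p.1 (y p.2) :=
      LinearMap.congr_fun (c.2.1 p.1).1 (y p.2)
    rw [map_smul, ← smul_sub, h7, map_sub, map_smul]
    push_cast
    module
  · obtain ⟨c, h6, rfl⟩ := (Submodule.mem_iSup_iff_exists_finsupp _ _).1 hP
    simpa only [Finsupp.sum, LinearMap.sum_apply, one_zpow, one_pow, one_smul] using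
      hy ⟨c, h6, h5⟩ 1 one_ne_zero

end Pool.Agent.P.MP_52ab5a_al
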