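import Pool.Agent.P.MP_52ab5a_al.A.Iadd

/-! Step IPERM of the open orbit project. -/

namespace Pool.Agent.P.MP_52ab5a_al

open MvPolynomial
open WM

namespace IpermAux

open IaddAux

variable {ι : Type} {S : Set ι} {N : WM ι} {t u : ι}

theorem comm (hW : N.IsW) {s : ι} (hs : s ∈ S \ {t}) (z : N.V) :
    N.D t (N.X s z) = N.X s (N.D t z) ∧ N.D t (N.D s z) = N.D s (N.D t z) :=
  ⟨LinearMap.congr_fun (hW.2.2.2 t s fun h => hs.2 h.symm) z, LinearMap.congr_fun (hW.2.1 t s) z⟩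

theorem st_map (hW : N.IsW) {Y : Submodule ℂ N.V} (h : StOn (S \ {t}) N Y) :
    StOn (S \ {t}) N (Y.map (N.D t)) := by
  rintro s hs _ ⟨y, hy, rfl⟩
  exact ⟨⟨_, (h s hs y hy).1, (comm hW hs y).1⟩, _, (h s hs y hy).2, (comm hW hs y).2⟩

theorem st_comap (hW : N.IsW) {Y : Submodule ℂ N.V} (h : StOn (S \ {t}) N Y) :
    StOn (S \ {t}) N (Y.comap (N.D t)) := by
  intro s hs y hy
  rw [Submodule.mem_comap, Submodule.mem_comap, (comm hW hs y).1, (comm hW hs y).2]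
  exact h s hs _ hy

theorem st_mono {S' : Set ι} {Y : Submodule ℂ N.V} (h : StOn S N Y) (hS : S' ⊆ S) : StOn S' N Y :=
  fun s hs => h s (hS hs)

theorem half (hPISO : S_PISO) (hHSUB : S_HSUB) (hRED : S_RED) [Finite ι] {ψ : Fn ι} (ht : t ∈ S)
    (hu : u ∈ S) (htu : u ≠ t) (h : AddOn ((S \ {t}) \ {u}) ψ) {B Z : Submodule ℂ N.V}
    (H : Hol S N B Z) :
    ψ N (B ⊔ (Z ⊓ B.comap (N.D t)).map (N.D u)) (Z ⊓ B.comap (N.D t)) +
      ψ N (B ⊔ Z.map (N.D t)) (Z ⊓ (B ⊔ Z.map (N.D t)).comap (N.D u)) =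
    ψ N (Z ⊓ B.comap (N.D t) ⊔ Z ⊓ B.comap (N.D u)) (Z ⊓ B.comap (N.D t * N.D u)) +
      ψ N ((B ⊔ Z.map (N.D u)) ⊓ (Z ⊓ B.comap (N.D t))) (Z ⊓ B.comap (N.D t)) +
      ψ N ((B ⊔ Z.map (N.D t)) ⊓ (Z ⊓ B.comap (N.D u))) (Z ⊓ B.comap (N.D u)) +
      ψ N (B ⊔ Z.map (N.D u * N.D t)) ((B ⊔ Z.map (N.D u)) ⊓ (B ⊔ Z.map (N.D t))) := by
  have hu' : u ∈ S \ {t} := ⟨hu, htu⟩
  obtain ⟨hK, hC⟩ := hRED ι S N B Z H t ht
  obtain ⟨hK', hC'⟩ := hRED ι S N B Z H u hu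
  have H1 := (hRED ι _ N _ _ hK u hu').2
  have H2 := (hRED ι _ N _ _ hC u hu').1
  have hS : (S \ {t}) \ {u} ⊆ S \ {u} := fun x hx => ⟨hx.1.1, hx.2⟩
  have sK := H1.2.2.2.1
  have sC := H2.2.2.1
  have sK' := st_mono hK'.2.2.2.1 hS
  have sC' := st_mono hC'.2.2.1 hS
  have sB := st_mono hK'.2.2.1 hS
  have sZ := st_mono hC'.2.2.2.1 hS
  have sub := (hHSUB ι ((S \ {t}) \ {u})).1 N
  obtain ⟨-, sym, -, p4, -⟩ := hPISO ι ((S \ {t}) \ {u})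
  have l1 : B ⊔ (Z ⊓ B.comap (N.D t)).map (N.D u) ≤ (B ⊔ Z.map (N.D u)) ⊓ (Z ⊓ B.comap (N.D t)) :=
    le_inf (sup_le_sup_left (Submodule.map_mono inf_le_left) _) H1.2.1
  have l2 : B ⊔ Z.map (N.D t) ⊔ Z ⊓ B.comap (N.D u) ≤ Z ⊓ (B ⊔ Z.map (N.D t)).comap (N.D u) :=
    sup_le H2.2.1 (inf_le_inf_left _ (Submodule.comap_mono le_sup_left))
  have l3 : Z ⊓ B.comap (N.D t) ⊔ Z ⊓ B.comap (N.D u) ≤ Z ⊓ (Z ⊓ B.comap (N.D t)).comap (N.D u) :=
    sup_le (fun z hz => ⟨hz.1, (hK.2.2.2.1 u hu' z hz).2⟩)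
      (inf_le_inf_left _ (Submodule.comap_mono hK.2.1))
  have l4 : B ⊔ (B ⊔ Z.map (N.D t)).map (N.D u) ≤ (B ⊔ Z.map (N.D u)) ⊓ (B ⊔ Z.map (N.D t)) :=
    le_inf (sup_le_sup_left (Submodule.map_mono hC.2.1) _) (sup_le le_sup_left
      (Submodule.map_le_iff_le_comap.2 fun z hz => (hC.2.2.1 u hu' z hz).2))
  have e1 := h.add N _ _ _ H1 l1 inf_le_right (st_inf sC' sK)
  have e2 := h.add N _ _ _ H2 le_sup_left l2 (st_sup sC sK')
  have e3 := h.iso N _ _ N _ _ (sub _ _ _ H2 le_sup_left l2 (st_sup sC sK')).1 H.1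
    (sym _ _ _ _ _ _ (p4 N _ _ sC sK'))
  have e4 := h.iso N _ _ N _ _ (sub _ _ _ H2 le_sup_left l2 (st_sup sC sK')).2 H.1
    ⟨_, snake H.1 le_sup_left hC.2.1 l2 (st_sup sC sK') H2.2.2.2.1 l4
      (st_sup sB (st_map H.1 sC)) (st_inf sC' sC)⟩
  have e5 := h.iso N _ _ N _ _ (sub _ _ _ H1 l1 inf_le_right (st_inf sC' sK)).1 H.1
    (sym _ _ _ _ _ _ ⟨_, snake H.1 hK.2.1 inf_le_left l3 (st_sup sK sK')
      (st_inf sZ (st_comap H.1 sK)) l1 H1.2.2.1 (st_inf sC' sK)⟩)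
  have q1 : Z ⊓ (Z ⊓ B.comap (N.D t)).comap (N.D u) = Z ⊓ B.comap (N.D t * N.D u) :=
    le_antisymm (fun z hz => ⟨hz.1, hz.2.2⟩)
      fun z hz => ⟨hz.1, (H.2.2.2.1 u hu z hz.1).2, hz.2⟩
  have q2 : B ⊔ (B ⊔ Z.map (N.D t)).map (N.D u) = B ⊔ Z.map (N.D u * N.D t) := by
    rw [Submodule.map_sup, ← sup_assoc, sup_eq_left.2
      (Submodule.map_le_iff_le_comap.2 fun z hz => (H.2.2.1 u hu z hz).2), Module.End.mul_eq_comp,
      Submodule.map_comp]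
  rw [q1] at e5
  rw [q2] at e4
  omega

theorem diff_cons {σ : Type} {r : σ → ι} {l : List ι} (h1 : t ∉ l) (hn : t ∉ Set.range r) :
    (Set.range r ∪ {x | x ∈ t :: l}) \ {t} = Set.range r ∪ {x | x ∈ l} := by
  ext x
  constructor
  · rintro ⟨h | h, h'⟩
    · exact Or.inl h
    · exact Or.inr ((List.mem_cons.1 h).resolve_left h')
  · rintro (h | h)
    · exact ⟨Or.inl h, fun h' => hn (h' ▸ h)⟩
    · exact ⟨Or.inr (List.mem_cons_of_mem _ h), fun h' => h1 (h' ▸ h)⟩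

end IpermAux

open IpermAux in
theorem p_IPERM (hPISO : S_PISO) (hHSUB : S_HSUB) (hRED : S_RED) (hIADD : S_IADD) :
    S_IPERM := by
  intro σ ι _ r φ hr hφ l l' hp
  induction hp with
  | nil => exact fun _ _ _ _ _ _ => rfl
  | @cons t l l' hp ih =>
    intro hl hn N B Z H
    have h1 := List.nodup_cons.1 hl
    have h2 := ih h1.2 (fun x hx => hn x (List.mem_cons_of_mem _ hx)) N
    obtain ⟨hK, hC⟩ := hRED ι _ N B Z H t (Or.inr List.mem_cons_self)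
    rw [diff_cons h1.1 (hn t List.mem_cons_self)] at hK hC
    simp only [List.map_cons, iter]
    rw [h2 _ _ hK, h2 _ _ hC]
  | swap u t l =>
    intro hl hn N B Z H
    have h1 := List.nodup_cons.1 hl
    have h2 := List.nodup_cons.1 h1.2
    have ht : t ∈ t :: u :: l := List.mem_cons_self
    have hu : u ∈ t :: u :: l := List.mem_cons_of_mem _ List.mem_cons_self
    have htu : u ≠ t := fun e => h1.1 (e ▸ List.mem_cons_self)
    obtain ⟨a1, a2⟩ := hIADD σ ι r φ hr hφ l h2.2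
      fun x hx => hn x (List.mem_cons_of_mem _ (List.mem_cons_of_mem _ hx))
    have h : IaddAux.AddOn (Set.range r ∪ {x | x ∈ l})
        fun N B Z => iter φ (N.res r) (l.map N.D) B Z := ⟨a1, a2⟩
    rw [← diff_cons h2.1 (hn u hu), ← diff_cons h1.1 (hn t ht)] at h
    have e1 := half (t := t) (u := u) hPISO hHSUB hRED (by exact Or.inr ht) (by exact Or.inr hu) htu h H
    rw [Set.diff_diff_comm] at h
    have e2 := half (t := u) (u := t) hPISO hHSUB hRED (by exact Or.inr hu) (by exact Or.inr ht)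
      htu.symm h H
    rw [H.1.2.1 u t, sup_comm (Z ⊓ B.comap (N.D u)), inf_comm (B ⊔ Z.map (N.D t)) (B ⊔ Z.map (N.D u)),
      H.1.2.1 t u] at e2
    rw [H.1.2.1 t u] at e1
    simp only [List.map_cons, iter]
    rw [inf_right_comm Z (B.comap (N.D u)), sup_right_comm B (Z.map (N.D u))]
    omega
  | trans hp hq ih1 ih2 =>
    intro hl hn N B Z H
    rw [ih1 hl hn N B Z H]
    refine ih2 (hp.nodup_iff.1 hl) (fun x hx => hn x (hp.mem_iff.2 hx)) N B Z ?_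
    simpa only [hp.mem_iff] using H

end Pool.Agent.P.MP_52ab5a_al
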