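import Pool.Agent.P.MP_52ab5a_al.A.Iface

/-! Step LEN of the open orbit project. -/

namespace Pool.Agent.P.MP_52ab5a_al

open MvPolynomial
open WM

namespace LenAux

theorem ext_rel {α : Type} (r : α → α → Prop) (C : Set α) (hne : C.Nonempty)
    (h : ∀ Y ∈ C, ∃ Y' ∈ C, r Y Y') : ∃ f : ℕ → α, ∀ n, f n ∈ C ∧ r (f n) (f (n + 1)) := by
  choose! g hg using h
  obtain ⟨Y, hY⟩ := hne
  have key : ∀ n, g^[n] Y ∈ C := by
    intro n
    induction n with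
    | zero => exact hY
    | succ n ih => rw [Function.iterate_succ_apply']; exact (hg _ ih).1
  refine ⟨fun n => g^[n] Y, fun n => ⟨key n, ?_⟩⟩
  simp only [Function.iterate_succ_apply']
  exact (hg _ (key n)).2

theorem extrema {α : Type} [PartialOrder α] (P : α → Prop) (l : ℕ)
    (hl : ∀ (n : ℕ) (Y : Fin (n + 1) → α), StrictMono Y → (∀ j, P (Y j)) → n ≤ l)
    (C : Set α) (hne : C.Nonempty) (hC : ∀ Y ∈ C, P Y) :
    (∃ Y ∈ C, ∀ Y' ∈ C, Y ≤ Y' → Y' = Y) ∧ ∃ Y ∈ C, ∀ Y' ∈ C, Y' ≤ Y → Y' = Y := by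
  constructor
  · by_contra hn
    push Not at hn
    obtain ⟨f, hf⟩ := ext_rel (· < ·) C hne fun Y hY => by
      obtain ⟨Y', h1, h2, h3⟩ := hn Y hY
      exact ⟨Y', h1, lt_of_le_of_ne h2 h3.symm⟩
    have hm : StrictMono f := strictMono_nat_of_lt_succ fun n => (hf n).2
    have := hl (l + 1) (fun j => f j) (fun a b hab => hm hab) fun j => hC _ (hf j).1
    omega
  · by_contra hn
    push Not at hn
    obtain ⟨f, hf⟩ := ext_rel (· > ·) C hne fun Y hY => by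
      obtain ⟨Y', h1, h2, h3⟩ := hn Y hY
      exact ⟨Y', h1, lt_of_le_of_ne h2 h3⟩
    have hm : StrictAnti f := strictAnti_nat_of_succ_lt fun n => (hf n).2
    have := hl (l + 1) (fun j => f (l + 1 - j)) (fun a b hab => hm (by
      have := a.2
      have := b.2
      have : (a : ℕ) < b := hab
      omega)) fun j => hC _ (hf _).1
    omega

variable {V : Type} [AddCommGroup V] [Module ℂ V] {O : Set (Module.End ℂ V)} {G : Set V}

theorem subset_gen : G ⊆ gen O G := fun _ hv => Submodule.mem_sInf.2 fun _ hY => hY.1 hv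

theorem gen_stable {T : Module.End ℂ V} (hT : T ∈ O) {v : V} (hv : v ∈ gen O G) :
    T v ∈ gen O G :=
  Submodule.mem_sInf.2 fun Y hY => hY.2 T hT v (Submodule.mem_sInf.1 hv Y hY)

theorem gen_le {Y : Submodule ℂ V} (h1 : G ⊆ Y) (h2 : ∀ T ∈ O, ∀ v ∈ Y, T v ∈ Y) :
    gen O G ≤ Y := sInf_le ⟨h1, h2⟩

end LenAux

open LenAux in
theorem p_LEN (hBERN : S_BERN) :
    S_LEN := by
  intro ι _ N B Z hH
  obtain ⟨l, hl⟩ := hBERN ι N B Z hH
  have h2 := extrema (fun Y => N.Stable Y ∧ B ≤ Y ∧ Y ≤ Z) l hl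
  have hBZ : B ≤ Z := hH.2.1
  have hB : N.Stable B := fun s v hv => hH.2.2.1 s trivial v hv
  have hZ : N.Stable Z := fun s v hv => hH.2.2.2.1 s trivial v hv
  have h3 : ∀ Y, N.Stable Y → B ≤ Y → Y < Z → ∃ Y', Y' ≤ Z ∧ SP N Y Y' := by
    intro Y hY hBY hYZ
    obtain ⟨Y', ⟨a1, a2, a3⟩, hm⟩ := (h2 {T | N.Stable T ∧ Y < T ∧ T ≤ Z} ⟨Z, hZ, hYZ, le_rfl⟩
      fun T hT => ⟨hT.1, hBY.trans hT.2.1.le, hT.2.2⟩).2
    refine ⟨Y', a3, a2, hY, a1, fun T hT b1 b2 => ?_⟩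
    rcases b1.eq_or_lt with h | h
    · exact Or.inl h.symm
    · exact Or.inr (hm T ⟨hT, h, b2.trans a3⟩ b2)
  have h1 : ∀ p : Submodule ℂ N.V → Prop, p B →
      (∀ Y Y', B ≤ Y → Y' ≤ Z → SP N Y Y' → p Y → p Y') → p Z := by
    intro p hp hs
    obtain ⟨Y, ⟨⟨a1, a2, a3⟩, a4⟩, hm⟩ := (h2 {T | (N.Stable T ∧ B ≤ T ∧ T ≤ Z) ∧ p T}
      ⟨B, ⟨hB, le_rfl, hBZ⟩, hp⟩ fun T hT => hT.1).1
    rcases a3.eq_or_lt with h | h
    · exact h ▸ a4
    · obtain ⟨Y', b1, b2⟩ := h3 Y a1 a2 h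
      exact absurd (hm Y' ⟨⟨b2.2.2.1, a2.trans b2.1.le, b1⟩, hs Y Y' a2 b1 b2 a4⟩ b2.1.le)
        b2.1.ne'
  have hst : ∀ Y, N.Stable Y → ∀ T ∈ Set.range N.X ∪ Set.range N.D, ∀ v ∈ Y, T v ∈ Y := by
    rintro Y hY _ (⟨s, rfl⟩ | ⟨s, rfl⟩) v hv
    · exact (hY s v hv).1
    · exact (hY s v hv).2
  refine ⟨h1, h2, fun h => h3 B hB le_rfl (lt_of_le_of_ne hBZ h), ?_⟩
  classical
  refine h1 (fun Y => ∃ G : Finset N.V, (G : Set N.V) ⊆ Y ∧
    Y = B ⊔ gen (Set.range N.X ∪ Set.range N.D) G) ⟨∅, by simp, ?_⟩ ?_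
  · exact (sup_eq_left.2 (gen_le (by simp) (hst B hB))).symm
  · rintro Y Y' hBY hY' hS ⟨G, hG, hY⟩
    obtain ⟨v, hv, hv'⟩ := SetLike.exists_of_lt hS.1
    have hG' : ((insert v G : Finset N.V) : Set N.V) ⊆ Y' := by
      rw [Finset.coe_insert]
      exact Set.insert_subset hv (hG.trans hS.1.le)
    refine ⟨insert v G, hG', ?_⟩
    have hT : N.Stable (B ⊔ gen (Set.range N.X ∪ Set.range N.D)
        ((insert v G : Finset N.V) : Set N.V)) := by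
      intro s u hu
      obtain ⟨a, ha, b, hb, rfl⟩ := Submodule.mem_sup.1 hu
      rw [map_add, map_add]
      exact ⟨Submodule.add_mem_sup (hB s a ha).1 (gen_stable (Or.inl ⟨s, rfl⟩) hb),
        Submodule.add_mem_sup (hB s a ha).2 (gen_stable (Or.inr ⟨s, rfl⟩) hb)⟩
    rcases hS.2.2.2 _ hT (by
      rw [hY]
      refine sup_le_sup_left (gen_le (subset_trans ?_ subset_gen) fun T hT u hu =>
        gen_stable hT hu) _
      rw [Finset.coe_insert]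
      exact Set.subset_insert _ _) (sup_le (hBY.trans hS.1.le) (gen_le hG' (hst _ hS.2.2.1)))
      with h | h
    · exact absurd (h ▸ Submodule.mem_sup_right (subset_gen (by simp))) hv'
    · exact h.symm

end Pool.Agent.P.MP_52ab5a_al
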