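import Pool.Agent.P.MP_52ab5a_al.A.Iface

/-! Step MULT of the open orbit project. -/

namespace Pool.Agent.P.MP_52ab5a_al

open MvPolynomial
open WM

namespace MultAux

variable {ι : Type}

/-- Chains of `n` factors isomorphic to `L` between `B` and `Z`. -/
def Ch (L N : WM ι) (Z : Submodule ℂ N.V) : ℕ → Submodule ℂ N.V → Prop
  | 0, _ => True
  | n + 1, B => ∃ lo hi, L.IsFactor N lo hi ∧ B ≤ lo ∧ hi ≤ Z ∧ Ch L N Z n hi

theorem ch_iff (L N : WM ι) (Z : Submodule ℂ N.V) (n : ℕ) : ∀ B : Submodule ℂ N.V,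
    (∃ lo hi : Fin n → Submodule ℂ N.V, (∀ j, L.IsFactor N (lo j) (hi j)) ∧
      (∀ j, B ≤ lo j ∧ hi j ≤ Z) ∧ ∀ j k, j < k → hi j ≤ lo k) ↔ Ch L N Z n B := by
  induction n with
  | zero =>
    intro B
    refine ⟨fun _ => trivial, fun _ => ⟨Fin.elim0, Fin.elim0, ?_, ?_, ?_⟩⟩
    · intro j; exact j.elim0
    · intro j; exact j.elim0
    · intro j; exact j.elim0
  | succ n ih =>
    intro B
    constructor
    · rintro ⟨lo, hi, h1, h2, h3⟩
      refine ⟨lo 0, hi 0, h1 0, (h2 0).1, (h2 0).2, (ih _).1 ⟨fun j => lo j.succ,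
        fun j => hi j.succ, fun j => h1 _, fun j => ⟨h3 _ _ (Fin.succ_pos j), (h2 _).2⟩,
        fun j k hjk => h3 _ _ (Fin.succ_lt_succ_iff.2 hjk)⟩⟩
    · rintro ⟨lo, hi, h1, h2, h3, h4⟩
      obtain ⟨lo', hi', k1, k2, k3⟩ := (ih _).2 h4
      refine ⟨Fin.cons lo lo', Fin.cons hi hi', ?_, ?_, ?_⟩
      · intro j
        refine Fin.cases ?_ (fun j => ?_) j
        · simpa using h1
        · simpa using k1 j
      · intro j
        refine Fin.cases ?_ (fun j => ?_) j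
        · simpa using ⟨h2, h3⟩
        · simpa using ⟨h2.trans (h1.1.trans (k2 j).1), (k2 j).2⟩
      · intro j k
        refine Fin.cases ?_ (fun k => ?_) k
        · intro h; exact absurd h (Fin.not_lt_zero j)
        · refine Fin.cases ?_ (fun j => ?_) j
          · intro _; simpa using (k2 k).1
          · intro h; simpa using k3 j k (Fin.succ_lt_succ_iff.1 h)

theorem mult_eq (L N : WM ι) (B Z : Submodule ℂ N.V) :
    L.mult N B Z = (sSup {n : ℕ | Ch L N Z n B} : ℕ) := by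
  unfold WM.mult
  simp only [ch_iff]

theorem ch_mono {L N : WM ι} {Z Z' : Submodule ℂ N.V} (hZ : Z ≤ Z') (n : ℕ) :
    ∀ {B B' : Submodule ℂ N.V}, B' ≤ B → Ch L N Z n B → Ch L N Z' n B' := by
  induction n with
  | zero => intro _ _ _ _; trivial
  | succ n ih =>
    rintro B B' hB ⟨lo, hi, h1, h2, h3, h4⟩
    exact ⟨lo, hi, h1, hB.trans h2, h3.trans hZ, ih le_rfl h4⟩

theorem ch_add {L N : WM ι} {Y Z : Submodule ℂ N.V} (hYZ : Y ≤ Z) {n : ℕ} (hn : Ch L N Z n Y)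
    (m : ℕ) : ∀ {B : Submodule ℂ N.V}, B ≤ Y → Ch L N Y m B → Ch L N Z (n + m) B := by
  induction m with
  | zero => intro B hB _; exact ch_mono le_rfl n hB hn
  | succ m ih =>
    rintro B hB ⟨lo, hi, h1, h2, h3, h4⟩
    exact ⟨lo, hi, h1, h2, h3.trans hYZ, ih h3 h4⟩

theorem st_inf {N : WM ι} {A B : Submodule ℂ N.V} (hA : N.Stable A) (hB : N.Stable B) :
    N.Stable (A ⊓ B) := fun s v hv =>
  ⟨⟨(hA s v hv.1).1, (hB s v hv.2).1⟩, ⟨(hA s v hv.1).2, (hB s v hv.2).2⟩⟩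

theorem st_sup {N : WM ι} {A B : Submodule ℂ N.V} (hA : N.Stable A) (hB : N.Stable B) :
    N.Stable (A ⊔ B) := by
  intro s v hv
  obtain ⟨a, ha, b, hb, rfl⟩ := Submodule.mem_sup.1 hv
  rw [map_add, map_add]
  exact ⟨Submodule.add_mem_sup (hA s a ha).1 (hB s b hb).1,
    Submodule.add_mem_sup (hA s a ha).2 (hB s b hb).2⟩

theorem fac_sp (hP : S_PISO) {L N : WM ι} (hL : L.Simple) {lo hi : Submodule ℂ N.V}
    (h : L.IsFactor N lo hi) : SP N lo hi := by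
  obtain ⟨-, p2, -, -, -, p6, -, p8, p9⟩ := hP ι Set.univ
  exact p8 _ _ _ _ _ _ (p2 _ _ _ _ _ _ ((p6 _ _ _ _).1 h)) ((p9 L).1 hL).2

theorem fac_iso (hP : S_PISO) {L N N' : WM ι} {lo hi : Submodule ℂ N.V}
    {lo' hi' : Submodule ℂ N'.V} (h : L.IsFactor N lo hi)
    (e : PIso Set.univ N' lo' hi' N lo hi) : L.IsFactor N' lo' hi' := by
  obtain ⟨-, -, p3, -, -, p6, -, -, -⟩ := hP ι Set.univ
  exact (p6 _ _ _ _).2 (p3 _ _ _ _ _ _ _ _ _ e ((p6 _ _ _ _).1 h))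

theorem fac_split (hP : S_PISO) {L N : WM ι} (hL : L.Simple) {lo hi Y : Submodule ℂ N.V}
    (h : L.IsFactor N lo hi) (hY : N.Stable Y) :
    L.IsFactor N (lo ⊓ Y) (hi ⊓ Y) ∨ L.IsFactor N (lo ⊔ Y) (hi ⊔ Y) := by
  obtain ⟨hlt, hlo, hhi, hs⟩ := fac_sp hP hL h
  obtain ⟨-, p2, -, p4, -, -, -, -, -⟩ := hP ι Set.univ
  rcases hs (lo ⊔ hi ⊓ Y) (st_sup hlo (st_inf hhi hY)) le_sup_left
    (sup_le hlt.le inf_le_left) with hT | hT
  · right
    refine fac_iso hP h (p2 _ _ _ _ _ _ ?_)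
    have := p4 N (lo ⊔ Y) hi ((stOn_univ _ _).2 (st_sup hlo hY)) ((stOn_univ _ _).2 hhi)
    have e1 : (lo ⊔ Y) ⊓ hi = lo := by
      rw [sup_inf_assoc_of_le Y hlt.le, inf_comm]; exact hT
    have e2 : lo ⊔ Y ⊔ hi = hi ⊔ Y := by
      rw [sup_right_comm, sup_eq_right.2 hlt.le]
    rwa [e1, e2] at this
  · left
    refine fac_iso hP h ?_
    have := p4 N lo (hi ⊓ Y) ((stOn_univ _ _).2 hlo) ((stOn_univ _ _).2 (st_inf hhi hY))
    have e1 : lo ⊓ (hi ⊓ Y) = lo ⊓ Y := by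
      rw [← inf_assoc, inf_eq_left.2 hlt.le]
    rwa [e1, hT] at this

theorem ch_split (hP : S_PISO) {L N : WM ι} (hL : L.Simple) {Y Z : Submodule ℂ N.V}
    (hY : N.Stable Y) (n : ℕ) : ∀ {B : Submodule ℂ N.V}, Ch L N Z n B →
      ∃ a b, a + b = n ∧ Ch L N (Z ⊓ Y) a (B ⊓ Y) ∧ Ch L N (Z ⊔ Y) b (B ⊔ Y) := by
  induction n with
  | zero => intro B _; exact ⟨0, 0, rfl, trivial, trivial⟩
  | succ n ih =>
    rintro B ⟨lo, hi, h1, h2, h3, h4⟩
    obtain ⟨a, b, hab, ha, hb⟩ := ih h4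
    have hB : B ≤ hi := h2.trans h1.1
    rcases fac_split hP hL h1 hY with h | h
    · exact ⟨a + 1, b, by omega, ⟨_, _, h, inf_le_inf_right _ h2, inf_le_inf_right _ h3, ha⟩,
        ch_mono le_rfl b (sup_le_sup_right hB _) hb⟩
    · exact ⟨a, b + 1, by omega, ch_mono le_rfl a (inf_le_inf_right _ hB) ha,
        ⟨_, _, h, sup_le_sup_right h2 _, sup_le_sup_right h3 _, hb⟩⟩

theorem ch_chain (hP : S_PISO) {L N : WM ι} (hL : L.Simple) {Z : Submodule ℂ N.V} (n : ℕ) :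
    ∀ {B : Submodule ℂ N.V}, N.Stable B → B ≤ Z → Ch L N Z n B →
      ∃ Y : Fin (n + 1) → Submodule ℂ N.V, StrictMono Y ∧
        (∀ j, N.Stable (Y j) ∧ B ≤ Y j ∧ Y j ≤ Z) ∧ Y 0 = B := by
  induction n with
  | zero =>
    intro B hB hBZ _
    refine ⟨fun _ => B, ?_, fun _ => ⟨hB, le_rfl, hBZ⟩, rfl⟩
    intro j k h
    exact absurd h (by omega)
  | succ n ih =>
    rintro B hB hBZ ⟨lo, hi, h1, h2, h3, h4⟩
    obtain ⟨hlt, -, hhi, -⟩ := fac_sp hP hL h1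
    obtain ⟨Y, hY, hs, h0⟩ := ih hhi h3 h4
    refine ⟨Fin.cons B Y, ?_, ?_, rfl⟩
    · rw [Fin.strictMono_iff_lt_succ]
      intro j
      refine Fin.cases ?_ (fun j => ?_) j
      · simpa [h0] using h2.trans_lt hlt
      · simpa using hY (Fin.castSucc_lt_succ (i := j))
    · intro j
      refine Fin.cases ?_ (fun j => ?_) j
      · simpa using ⟨hB, hBZ⟩
      · simpa using ⟨(hs j).1, (h2.trans hlt.le).trans (hs j).2.1, (hs j).2.2⟩

theorem ch_bdd (hP : S_PISO) (hB : S_BERN) [Finite ι] {L N : WM ι} (hL : L.Simple)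
    {B Z : Submodule ℂ N.V} (h : Hol Set.univ N B Z) : BddAbove {n : ℕ | Ch L N Z n B} := by
  obtain ⟨l, hl⟩ := hB ι N B Z h
  refine ⟨l, fun n hn => ?_⟩
  obtain ⟨Y, hY, hs, -⟩ := ch_chain hP hL n ((stOn_univ _ _).1 h.2.2.1) h.2.1 hn
  exact hl n Y hY hs

theorem ch_iso (hP : S_PISO) {L N N' : WM ι} {B Z : Submodule ℂ N.V} {B' Z' : Submodule ℂ N'.V}
    {f : N.V →ₗ[ℂ] N'.V} (hf : PIsoBy Set.univ N B Z N' B' Z' f) (n : ℕ) :
    ∀ {C : Submodule ℂ N.V}, B ≤ C → Ch L N Z n C → Ch L N' Z' n (C.map f ⊔ B') := by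
  induction n with
  | zero => intro _ _ _; trivial
  | succ n ih =>
    rintro C hC ⟨lo, hi, h1, h2, h3, h4⟩
    obtain ⟨-, p2, -, -, p5, -, -, -, -⟩ := hP ι Set.univ
    refine ⟨lo.map f ⊔ B', hi.map f ⊔ B', fac_iso hP h1 (p2 _ _ _ _ _ _ ⟨f, ?_⟩),
      sup_le_sup_right (Submodule.map_mono h2) _, sup_le ?_ hf.le',
      ih (hC.trans (h2.trans h1.1)) h4⟩
    · exact p5 _ _ _ _ _ _ f lo hi hf (hC.trans h2) h1.1 h3 ((stOn_univ _ _).2 h1.2.1)
        ((stOn_univ _ _).2 h1.2.2.1)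
    · rintro _ ⟨z, hz, rfl⟩
      exact hf.maps z (h3 hz)

theorem ch_iso' (hP : S_PISO) {L N N' : WM ι} {B Z : Submodule ℂ N.V} {B' Z' : Submodule ℂ N'.V}
    (hf : PIso Set.univ N B Z N' B' Z') (n : ℕ) (h : Ch L N Z n B) : Ch L N' Z' n B' := by
  obtain ⟨f, hf⟩ := hf
  exact ch_mono le_rfl n le_sup_right (ch_iso hP hf n le_rfl h)

theorem ch_congr {L L' N : WM ι} (h : ∀ lo hi, L.IsFactor N lo hi → L'.IsFactor N lo hi)
    {Z : Submodule ℂ N.V} (n : ℕ) : ∀ {B : Submodule ℂ N.V}, Ch L N Z n B → Ch L' N Z n B := by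
  induction n with
  | zero => intro _ _; trivial
  | succ n ih =>
    rintro B ⟨lo, hi, h1, h2, h3, h4⟩
    exact ⟨lo, hi, h _ _ h1, h2, h3, ih h4⟩

theorem sSup_zero {S : Set ℕ} (h : ∀ n ∈ S, n = 0) : sSup S = 0 := by
  rcases S.eq_empty_or_nonempty with rfl | hS
  · simp
  · exact Nat.le_zero.1 (csSup_le hS fun n hn => (h n hn).le)

end MultAux

open MultAux in
theorem p_MULT (hPISO : S_PISO) (hHSUB : S_HSUB) (hBERN : S_BERN) :
    S_MULT := by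
  intro ι _ L hL
  refine ⟨⟨?_, ?_⟩, ?_, ?_, ?_, ?_⟩
  · intro N B Y Z h hBY hYZ hY
    obtain ⟨h1, h2⟩ := (hHSUB ι Set.univ).1 N B Y Z h hBY hYZ ((stOn_univ _ _).2 hY)
    have b0 := ch_bdd hPISO hBERN hL h
    have b1 := ch_bdd hPISO hBERN hL h1
    have b2 := ch_bdd hPISO hBERN hL h2
    rw [mult_eq, mult_eq, mult_eq, ← Nat.cast_add, Nat.cast_inj]
    apply le_antisymm
    · refine csSup_le ⟨0, trivial⟩ fun n hn => ?_
      obtain ⟨a, b, rfl, ha, hb⟩ := ch_split hPISO hL hY n hn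
      rw [inf_eq_right.2 hYZ, inf_eq_left.2 hBY] at ha
      rw [sup_eq_left.2 hYZ, sup_eq_right.2 hBY] at hb
      exact add_le_add (le_csSup b1 ha) (le_csSup b2 hb)
    · have m1 := Nat.sSup_mem (s := {n : ℕ | Ch L N Y n B}) ⟨0, trivial⟩ b1
      have m2 := Nat.sSup_mem (s := {n : ℕ | Ch L N Z n Y}) ⟨0, trivial⟩ b2
      rw [add_comm]
      exact le_csSup b0 (ch_add hYZ m2 _ hBY m1)
  · intro N B Z N' B' Z' _ _ e
    rw [mult_eq, mult_eq]
    have : {n : ℕ | Ch L N Z n B} = {n : ℕ | Ch L N' Z' n B'} :=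
      Set.ext fun n => ⟨ch_iso' hPISO e n, ch_iso' hPISO ((hPISO ι Set.univ).2.1 _ _ _ _ _ _ e) n⟩
    rw [this]
  · intro N B Z hS
    obtain ⟨-, -, -, hs⟩ := hS
    have key : ∀ lo hi, L.IsFactor N lo hi → B ≤ lo → hi ≤ Z → lo = B ∧ hi = Z := by
      intro lo hi h h1 h2
      obtain ⟨hlt, hlo, hhi, -⟩ := fac_sp hPISO hL h
      constructor
      · rcases hs lo hlo h1 (hlt.le.trans h2) with e | e
        · exact e
        · exact absurd (hlt.trans_le h2) (by rw [e]; exact lt_irrefl _)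
      · rcases hs hi hhi (h1.trans hlt.le) h2 with e | e
        · exact absurd (h1.trans_lt hlt) (by rw [e]; exact lt_irrefl _)
        · exact e
    constructor
    · intro h
      rw [mult_eq]
      have hb : ∀ n ∈ {n : ℕ | Ch L N Z n B}, n ≤ 1 := by
        intro n hn
        match n, hn with
        | 0, _ => exact Nat.zero_le _
        | 1, _ => exact le_rfl
        | n + 2, ⟨lo, hi, h1, h2, h3, lo', hi', k1, k2, k3, _⟩ =>
          have e := (key lo hi h1 h2 h3).2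
          have hlt := (fac_sp hPISO hL k1).1
          exact absurd ((k2.trans_lt hlt).trans_le k3) (by rw [e]; exact lt_irrefl _)
      have h1 : 1 ∈ {n : ℕ | Ch L N Z n B} := ⟨B, Z, h, le_rfl, le_rfl, trivial⟩
      have : sSup {n : ℕ | Ch L N Z n B} = 1 :=
        le_antisymm (csSup_le ⟨1, h1⟩ hb) (le_csSup ⟨1, hb⟩ h1)
      rw [this]; rfl
    · intro h
      rw [mult_eq, sSup_zero]
      · rfl
      · intro n hn
        match n, hn with
        | 0, _ => rfl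
        | n + 1, ⟨lo, hi, h1, h2, h3, _⟩ =>
          obtain ⟨rfl, rfl⟩ := key lo hi h1 h2 h3
          exact absurd h1 h
  · intro L' e
    obtain ⟨-, p2, p3, -, -, p6, -, -, -⟩ := hPISO ι Set.univ
    funext N B Z
    rw [mult_eq, mult_eq]
    have : {n : ℕ | Ch L N Z n B} = {n : ℕ | Ch L' N Z n B} :=
      Set.ext fun n => ⟨ch_congr (fun lo hi h =>
        (p6 _ _ _ _).2 (p3 _ _ _ _ _ _ _ _ _ ((p6 _ _ _ _).1 h) e)) n, ch_congr (fun lo hi h =>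
        (p6 _ _ _ _).2 (p3 _ _ _ _ _ _ _ _ _ ((p6 _ _ _ _).1 h) (p2 _ _ _ _ _ _ e))) n⟩
    rw [this]
  · intro N B Z h
    by_contra hc
    apply h
    rw [mult_eq, sSup_zero]
    · rfl
    · intro n hn
      match n, hn with
      | 0, _ => rfl
      | n + 1, ⟨lo, hi, h1, h2, h3, _⟩ => exact absurd ⟨lo, hi, h2, h3, h1⟩ hc
  · intro N B Z B' Z' h h1 h2 h3
    rw [mult_eq]
    have m : 1 ∈ {n : ℕ | Ch L N Z n B} := ⟨B', Z', h3, h1, h2, trivial⟩
    have := le_csSup (ch_bdd hPISO hBERN hL h) m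
    exact_mod_cast this

end Pool.Agent.P.MP_52ab5a_al
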