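import Pool.Agent.P.MP_52ab5a_al.A.Iface

/-! Step NORD of the open orbit project. -/

namespace Pool.Agent.P.MP_52ab5a_al

open MvPolynomial
open WM

namespace NordAux

variable {ι V : Type} [AddCommGroup V] [Module ℂ V]

theorem list_succ [DecidableEq ι] {A : ι → Module.End ℂ V} (hA : ∀ s t, A s * A t = A t * A s)
    (α : ι → ℕ) (s : ι) (l : List ι) (hl : l.Nodup) (hs : s ∈ l) :
    (l.map fun t => A t ^ (α t + if s = t then 1 else 0)).prod =
      A s * (l.map fun t => A t ^ α t).prod := by
  induction l with
  | nil => simp at hs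
  | cons a l ih =>
    obtain ⟨h1, h2⟩ := List.nodup_cons.1 hl
    simp only [List.map_cons, List.prod_cons]
    by_cases h : s = a
    · subst h
      rw [if_pos rfl, pow_succ', mul_assoc]
      congr 3
      exact List.map_congr_left fun t ht => by rw [if_neg fun e => h1 (by rwa [e]), add_zero]
    · rw [if_neg h, add_zero, ih h2 ((List.mem_cons.1 hs).resolve_left h), ← mul_assoc,
        ← mul_assoc, (Commute.pow_left (hA a s) _).eq]

theorem list_mem {A : ι → Module.End ℂ V} {Γ : ℕ → Submodule ℂ V}
    (h : ∀ k s, ∀ v ∈ Γ k, A s v ∈ Γ (k + 1)) (α : ι → ℕ) (l : List ι) (k : ℕ) (v : V)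
    (hv : v ∈ Γ k) : (l.map fun t => A t ^ α t).prod v ∈ Γ (k + (l.map α).sum) := by
  have hp : ∀ (s : ι) (n k : ℕ), ∀ v ∈ Γ k, (A s ^ n) v ∈ Γ (k + n) := fun s n => by
    induction n with
    | zero => exact fun k v hv => hv
    | succ n ih => exact fun k v hv => by rw [pow_succ']; exact h _ s _ (ih k v hv)
  induction l with
  | nil => exact hv
  | cons a l ih =>
    simp only [List.map_cons, List.prod_cons, List.sum_cons]
    rw [add_comm (α a), ← add_assoc]
    exact hp a _ _ _ ih

variable [Fintype ι]

theorem mon_succ [DecidableEq ι] {A : ι → Module.End ℂ V} (hA : ∀ s t, A s * A t = A t * A s)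
    (α : ι → ℕ) (s : ι) : mon A (fun t => α t + if s = t then 1 else 0) = A s * mon A α :=
  list_succ hA α s _ (Finset.nodup_toList _) (Finset.mem_toList.2 (Finset.mem_univ _))

theorem mon_comm {A : ι → Module.End ℂ V} (hA : ∀ s t, A s * A t = A t * A s) (α : ι → ℕ)
    (s : ι) : A s * mon A α = mon A α * A s :=
  Commute.list_prod_right _ _ fun x hx => by
    obtain ⟨t, -, rfl⟩ := List.mem_map.1 hx
    exact Commute.pow_right (hA s t) _

theorem mon_mem {A : ι → Module.End ℂ V} {Γ : ℕ → Submodule ℂ V}
    (h : ∀ k s, ∀ v ∈ Γ k, A s v ∈ Γ (k + 1)) (α : ι → ℕ) (k : ℕ) (v : V) (hv : v ∈ Γ k) :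
    mon A α v ∈ Γ (k + ∑ s, α s) := by
  rw [← Finset.sum_map_toList]
  exact list_mem h α _ k v hv

theorem nord_mono (A B : ι → Module.End ℂ V) (α : ι ⊕ ι →₀ ℕ) (c : ℂ) :
    nord A B (monomial α c) =
      c • (mon A (fun s => α (Sum.inl s)) * mon B fun s => α (Sum.inr s)) := by
  have e : monomial α c = c • basisMonomials (ι ⊕ ι) ℂ α := by
    rw [coe_basisMonomials, smul_monomial, smul_eq_mul, mul_one]
  rw [e, map_smul, nord, Module.Basis.constr_basis]

theorem nord_C (A B : ι → Module.End ℂ V) (c : ℂ) : nord A B (C c) = c • 1 := by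
  rw [C_apply, nord_mono]
  simp [mon]

end NordAux

open NordAux in
theorem p_NORD :
    S_NORD := by
  intro ι V _ _ _ A B h H
  classical
  have h2 : ∀ s f, nord A B (X (Sum.inl s) * f) = A s * nord A B f := fun s f => by
    induction f using MvPolynomial.induction_on' with
    | monomial α c =>
      rw [X, monomial_mul, one_mul, nord_mono, nord_mono, mul_smul_comm, ← mul_assoc,
        ← mon_succ H.aa]
      simp [Finsupp.single_apply, add_comm]
    | add p q hp hq => rw [mul_add, map_add, map_add, hp, hq, mul_add]
  have h3 : ∀ s f, nord A B (X (Sum.inr s) * f) = nord A B f * B s := fun s f => by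
    induction f using MvPolynomial.induction_on' with
    | monomial α c =>
      rw [X, monomial_mul, one_mul, nord_mono, nord_mono, smul_mul_assoc, mul_assoc,
        ← mon_comm H.bb, ← mon_succ H.bb]
      simp [Finsupp.single_apply, add_comm]
    | add p q hp hq => rw [mul_add, map_add, map_add, hp, hq, add_mul]
  have h6 : ∀ T : Module.End ℂ V, (∀ s, T * A s = A s * T ∧ T * B s = B s * T) →
      ∀ f, T * nord A B f = nord A B f * T := fun T hT f => by
    induction f using MvPolynomial.induction_on with
    | C c => simp [nord_C]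
    | add p q hp hq => rw [map_add, mul_add, add_mul, hp, hq]
    | mul_X p s hp =>
      rw [mul_comm p]
      cases s with
      | inl s => rw [h2, ← mul_assoc, (hT s).1, mul_assoc, hp, mul_assoc]
      | inr s => rw [h3, ← mul_assoc, hp, mul_assoc, (hT s).2, mul_assoc]
  have hh := h6 h fun s => ⟨H.ha s, H.hb s⟩
  refine ⟨by rw [← C_1, nord_C, one_smul], h2, h3, fun s f => ?_, fun s f => ?_, h6,
    fun Y hY f => ?_, fun Γ hΓ hs f k v hv => ?_⟩
  · induction f using MvPolynomial.induction_on with
    | C c => simp [nord_C]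
    | add p q hp hq => simp only [map_add, mul_add, add_mul, hp, hq]; abel
    | mul_X p t hp =>
      rw [mul_comm p, pderiv_mul]
      cases t with
      | inl t =>
        rw [pderiv_X_of_ne (by simp), zero_mul, zero_add, h2, h2, mul_assoc, hp, mul_add,
          ← mul_assoc, ← mul_assoc, ← mul_assoc, ← mul_assoc, H.aa t s, H.ha]
      | inr t =>
        by_cases e : t = s
        · subst e
          rw [pderiv_X_self, one_mul, map_add, h3, h3, mul_assoc, sub_eq_iff_eq_add.1 (H.ba t),
            mul_add, ← mul_assoc, hp, ← hh]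
          noncomm_ring
        · rw [pderiv_X_of_ne (by simpa using e), zero_mul, zero_add, h3, h3, mul_assoc,
            H.ne t s e, ← mul_assoc, hp]
          noncomm_ring
  · induction f using MvPolynomial.induction_on with
    | C c => simp [nord_C]
    | add p q hp hq => simp only [map_add, mul_add, add_mul, hp, hq]; abel
    | mul_X p t hp =>
      rw [mul_comm p, pderiv_mul]
      cases t with
      | inr t =>
        rw [pderiv_X_of_ne (by simp), zero_mul, zero_add, h3, h3, ← mul_assoc, hp, add_mul,
          mul_assoc, mul_assoc, mul_assoc, H.bb s t]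
      | inl t =>
        by_cases e : t = s
        · subst e
          rw [pderiv_X_self, one_mul, map_add, h2, h2, ← mul_assoc, sub_eq_iff_eq_add.1 (H.ba t),
            add_mul, mul_assoc, hp, mul_add, mul_add, ← mul_assoc (A t) h, ← H.ha]
          noncomm_ring
        · rw [pderiv_X_of_ne (by simpa using e), zero_mul, zero_add, h2, h2, ← mul_assoc,
            H.ne s t (Ne.symm e), mul_assoc, hp, mul_add, ← mul_assoc (A t) h, ← H.ha]
          noncomm_ring
  · induction f using MvPolynomial.induction_on with
    | C c => exact fun v hv => by rw [nord_C]; exact Y.smul_mem c hv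
    | add p q hp hq => exact fun v hv => by rw [map_add]; exact Y.add_mem (hp v hv) (hq v hv)
    | mul_X p s hp =>
      intro v hv
      rw [mul_comm p]
      cases s with
      | inl s => rw [h2]; exact (hY s _ (hp v hv)).1
      | inr s => rw [h3]; exact hp _ (hY s v hv).2
  · conv_rhs => rw [f.as_sum]
    rw [map_sum, LinearMap.sum_apply]
    refine Submodule.sum_mem _ fun α hα => ?_
    rw [nord_mono]
    refine Submodule.smul_mem _ _ (hΓ ?_ (mon_mem (fun k s v hv => (hs k s v hv).1) _ _ _
      (mon_mem (fun k s v hv => (hs k s v hv).2) _ k v hv)))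
    have := le_totalDegree hα
    rw [Finsupp.sum_fintype _ _ fun _ => rfl, Fintype.sum_sum_type] at this
    omega

end Pool.Agent.P.MP_52ab5a_al
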