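import Pool.Agent.P.MP_52ab5a_al.A.Iface

/-! Step PISO of the open orbit project. -/

namespace Pool.Agent.P.MP_52ab5a_al

open MvPolynomial
open WM

namespace PisoAux

variable {V V' : Type} [AddCommGroup V] [Module ℂ V] [AddCommGroup V'] [Module ℂ V']

theorem exists_inv (Z : Submodule ℂ V) (B' Z' : Submodule ℂ V') (f : V →ₗ[ℂ] V')
    (h : Z' ≤ Z.map f ⊔ B') : ∃ g : V' →ₗ[ℂ] V, ∀ z ∈ Z', g z ∈ Z ∧ f (g z) - z ∈ B' := by
  let φ : (Z × B') →ₗ[ℂ] V' := (f ∘ₗ Z.subtype).coprod B'.subtype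
  obtain ⟨r, hr⟩ := φ.rangeRestrict.exists_rightInverse_of_surjective φ.range_rangeRestrict
  obtain ⟨e, he⟩ := LinearMap.exists_extend r
  refine ⟨Z.subtype ∘ₗ LinearMap.fst ℂ Z B' ∘ₗ e, fun z hz => ⟨(e z).1.2, ?_⟩⟩
  obtain ⟨_, ⟨y, hy, rfl⟩, b, hb, rfl⟩ := Submodule.mem_sup.1 (h hz)
  have hm : f y + b ∈ LinearMap.range φ := ⟨(⟨y, hy⟩, ⟨b, hb⟩), rfl⟩
  have h1 : e (f y + b) = r ⟨_, hm⟩ := LinearMap.congr_fun he ⟨_, hm⟩
  have h2 : f (r ⟨_, hm⟩).1 + (r ⟨_, hm⟩).2 = f y + b :=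
    congrArg Subtype.val (LinearMap.congr_fun hr ⟨_, hm⟩)
  change f (e (f y + b)).1 - (f y + b) ∈ B'
  rw [h1]
  nth_rewrite 2 [← h2]
  simp

theorem exists_quot (B Z : Submodule ℂ V) :
    ∃ f : V →ₗ[ℂ] (Z ⧸ B.comap Z.subtype), ∀ z : Z, f z = Submodule.Quotient.mk z := by
  obtain ⟨e, he⟩ := LinearMap.exists_extend (B.comap Z.subtype).mkQ
  exact ⟨e, fun z => LinearMap.congr_fun he z⟩

/-- The operator induced on a subquotient. -/
def ind (B Z : Submodule ℂ V) (T : Module.End ℂ V) (hB : ∀ v ∈ B, T v ∈ B)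
    (hZ : ∀ v ∈ Z, T v ∈ Z) : Module.End ℂ (Z ⧸ B.comap Z.subtype) :=
  Submodule.mapQ _ _ (T.restrict hZ) fun v hv => hB v.1 hv

theorem ind_mk (B Z : Submodule ℂ V) (T : Module.End ℂ V) (hB : ∀ v ∈ B, T v ∈ B)
    (hZ : ∀ v ∈ Z, T v ∈ Z) (z : Z) :
    ind B Z T hB hZ (Submodule.Quotient.mk z) = Submodule.Quotient.mk ⟨T z, hZ _ z.2⟩ := rfl

variable {ι : Type} {S : Set ι} {N N' N'' : WM ι} {B Z : Submodule ℂ N.V}
  {B' Z' : Submodule ℂ N'.V} {B'' Z'' : Submodule ℂ N''.V}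

theorem symm (h : PIso S N B Z N' B' Z') : PIso S N' B' Z' N B Z := by
  obtain ⟨f, h⟩ := h
  obtain ⟨g, hg⟩ := exists_inv Z B' Z' f h.onto
  have key : ∀ (T : Module.End ℂ N.V) (T' : Module.End ℂ N'.V), (∀ v ∈ Z, T v ∈ Z) →
      (∀ v ∈ Z', T' v ∈ Z') → (∀ v ∈ B', T' v ∈ B') → (∀ z ∈ Z, f (T z) - T' (f z) ∈ B') →
      ∀ z ∈ Z', g (T' z) - T (g z) ∈ B := by
    intro T T' h1 h2 h3 h4 z hz
    refine (h.ker _ (sub_mem (hg _ (h2 z hz)).1 (h1 _ (hg z hz).1))).1 ?_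
    have := sub_mem (sub_mem (hg _ (h2 z hz)).2 (h4 _ (hg z hz).1)) (h3 _ (hg z hz).2)
    rwa [map_sub, show f (g (T' z)) - T' z - (f (T (g z)) - T' (f (g z))) - (T' (f (g z)) - T' z) =
      f (g (T' z)) - f (T (g z)) by abel, ← map_sub] at this
  refine ⟨g, h.le', h.stB', h.stZ', h.le, h.stB, h.stZ, fun z hz => (hg z hz).1, fun z hz => ?_,
    fun z hz => ?_, fun s hs z hz => ⟨?_, ?_⟩⟩
  · rw [← h.ker _ (hg z hz).1]
    exact ⟨fun h1 => by simpa using sub_mem h1 (hg z hz).2,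
      fun h1 => by simpa using add_mem (hg z hz).2 h1⟩
  · have h1 := hg _ (h.maps z hz)
    refine Submodule.mem_sup.2 ⟨_, ⟨_, h.maps z hz, rfl⟩, z - g (f z), ?_, by abel⟩
    refine (h.ker _ (sub_mem hz h1.1)).1 ?_
    simpa using neg_mem h1.2
  · exact key _ _ (fun v hv => (h.stZ s hs v hv).1) (fun v hv => (h.stZ' s hs v hv).1)
      (fun v hv => (h.stB' s hs v hv).1) (fun v hv => (h.comm s hs v hv).1) z hz
  · exact key _ _ (fun v hv => (h.stZ s hs v hv).2) (fun v hv => (h.stZ' s hs v hv).2)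
      (fun v hv => (h.stB' s hs v hv).2) (fun v hv => (h.comm s hs v hv).2) z hz

theorem trans (h : PIso S N B Z N' B' Z') (h' : PIso S N' B' Z' N'' B'' Z'') :
    PIso S N B Z N'' B'' Z'' := by
  obtain ⟨f, h⟩ := h
  obtain ⟨g, h'⟩ := h'
  have hb : ∀ b ∈ B', g b ∈ B'' := fun b hb => (h'.ker b (h.le' hb)).2 hb
  refine ⟨g ∘ₗ f, h.le, h.stB, h.stZ, h'.le', h'.stB', h'.stZ',
    fun z hz => h'.maps _ (h.maps z hz), fun z hz => (h'.ker _ (h.maps z hz)).trans (h.ker z hz),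
    fun z hz => ?_, fun s hs z hz => ⟨?_, ?_⟩⟩
  · obtain ⟨_, ⟨y, hy, rfl⟩, b, hb', rfl⟩ := Submodule.mem_sup.1 (h'.onto hz)
    obtain ⟨_, ⟨x, hx, rfl⟩, c, hc, rfl⟩ := Submodule.mem_sup.1 (h.onto hy)
    exact Submodule.mem_sup.2 ⟨_, ⟨x, hx, rfl⟩, _, add_mem (hb c hc) hb', by simp [add_assoc]⟩
  · simpa using add_mem (hb _ (h.comm s hs z hz).1) (h'.comm s hs _ (h.maps z hz)).1
  · simpa using add_mem (hb _ (h.comm s hs z hz).2) (h'.comm s hs _ (h.maps z hz)).2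

theorem st_map {f} (h : PIsoBy S N B Z N' B' Z' f) {Y : Submodule ℂ N.V} (hY : Y ≤ Z)
    (hs : StOn S N Y) : StOn S N' (Y.map f ⊔ B') := by
  intro s hS v hv
  obtain ⟨_, ⟨y, hy, rfl⟩, b, hb, rfl⟩ := Submodule.mem_sup.1 hv
  constructor
  · refine Submodule.mem_sup.2 ⟨_, ⟨_, (hs s hS y hy).1, rfl⟩, _,
      sub_mem (h.stB' s hS b hb).1 (h.comm s hS y (hY hy)).1, ?_⟩
    rw [map_add]; abel
  · refine Submodule.mem_sup.2 ⟨_, ⟨_, (hs s hS y hy).2, rfl⟩, _,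
      sub_mem (h.stB' s hS b hb).2 (h.comm s hS y (hY hy)).2, ?_⟩
    rw [map_add]; abel

theorem st_inf {Y Z : Submodule ℂ N.V} (hY : StOn S N Y) (hZ : StOn S N Z) : StOn S N (Y ⊓ Z) :=
  fun s hs v hv => ⟨⟨(hY s hs v hv.1).1, (hZ s hs v hv.2).1⟩, (hY s hs v hv.1).2, (hZ s hs v hv.2).2⟩

theorem st_sup {Y Z : Submodule ℂ N.V} (hY : StOn S N Y) (hZ : StOn S N Z) :
    StOn S N (Y ⊔ Z) := by
  intro s hs v hv
  obtain ⟨y, hy, z, hz, rfl⟩ := Submodule.mem_sup.1 hv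
  rw [map_add, map_add]
  exact ⟨Submodule.add_mem_sup (hY s hs y hy).1 (hZ s hs z hz).1,
    Submodule.add_mem_sup (hY s hs y hy).2 (hZ s hs z hz).2⟩

theorem sp (h : PIso Set.univ N B Z N' B' Z') (hs : SP N B Z) : SP N' B' Z' := by
  obtain ⟨f, h⟩ := h
  obtain ⟨z, hz, hzB⟩ := SetLike.exists_of_lt hs.1
  refine ⟨lt_of_le_of_ne h.le' fun e => hzB ((h.ker z hz).1 (e ▸ h.maps z hz)),
    (stOn_univ _ _).1 h.stB', (stOn_univ _ _).1 h.stZ', fun T hT hB hZ => ?_⟩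
  have h1 : N.Stable (Z ⊓ T.comap f) := fun s v hv =>
    ⟨⟨(h.stZ s trivial v hv.1).1, by
      simpa using add_mem (hB (h.comm s trivial v hv.1).1) (hT s _ hv.2).1⟩,
     (h.stZ s trivial v hv.1).2, by
      simpa using add_mem (hB (h.comm s trivial v hv.1).2) (hT s _ hv.2).2⟩
  rcases hs.2.2.2 _ h1 (fun b hb => ⟨h.le hb, hB ((h.ker b (h.le hb)).2 hb)⟩) inf_le_left with e | e
  · refine Or.inl (le_antisymm (fun t ht => ?_) hB)
    obtain ⟨_, ⟨y, hy, rfl⟩, b, hb, rfl⟩ := Submodule.mem_sup.1 (h.onto (hZ ht))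
    have : y ∈ Z ⊓ T.comap f := ⟨hy, by simpa using sub_mem ht (hB hb)⟩
    exact add_mem ((h.ker y hy).2 (e ▸ this)) hb
  · refine Or.inr (le_antisymm hZ fun t ht => ?_)
    obtain ⟨_, ⟨y, hy, rfl⟩, b, hb, rfl⟩ := Submodule.mem_sup.1 (h.onto ht)
    have : y ∈ Z ⊓ T.comap f := e.symm ▸ hy
    exact add_mem this.2 (hB hb)

theorem quot (hW : N.IsW) (hle : B ≤ Z) (hB : N.Stable B) (hZ : N.Stable Z) :
    ∃ M : WM ι, M.IsW ∧ PIso Set.univ N B Z M ⊥ ⊤ := by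
  obtain ⟨f, hf⟩ := exists_quot B Z
  let M : WM ι :=
    { V := Z ⧸ B.comap Z.subtype
      X := fun s => ind B Z (N.X s) (fun v hv => (hB s v hv).1) fun v hv => (hZ s v hv).1
      D := fun s => ind B Z (N.D s) (fun v hv => (hB s v hv).2) fun v hv => (hZ s v hv).2 }
  have hq : ∀ {x y : Z}, x.1 = y.1 →
      (Submodule.Quotient.mk x : Z ⧸ B.comap Z.subtype) = Submodule.Quotient.mk y :=
    fun e => congrArg _ (Subtype.ext e)
  refine ⟨M, ⟨fun s t => ?_, fun s t => ?_, fun s => ?_, fun s t hst => ?_⟩, f, hle,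
    (stOn_univ _ _).2 hB, (stOn_univ _ _).2 hZ, bot_le, fun s _ v hv => ?_,
    fun _ _ _ _ => ⟨trivial, trivial⟩, fun _ _ => trivial, fun z hz => ?_, fun x _ => ?_,
    fun s _ z hz => ⟨?_, ?_⟩⟩
  · exact Submodule.linearMap_qext _ (LinearMap.ext fun z =>
      hq (LinearMap.congr_fun (hW.1 s t) z.1))
  · exact Submodule.linearMap_qext _ (LinearMap.ext fun z =>
      hq (LinearMap.congr_fun (hW.2.1 s t) z.1))
  · exact Submodule.linearMap_qext _ (LinearMap.ext fun z =>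
      (Submodule.Quotient.mk_sub _).symm.trans (hq (LinearMap.congr_fun (hW.2.2.1 s) z.1)))
  · exact Submodule.linearMap_qext _ (LinearMap.ext fun z =>
      hq (LinearMap.congr_fun (hW.2.2.2 s t hst) z.1))
  · rw [(Submodule.mem_bot ℂ).1 hv, map_zero, map_zero]
    exact ⟨zero_mem _, zero_mem _⟩
  · exact (iff_of_eq (congrArg (· = 0) (hf ⟨z, hz⟩))).trans (Submodule.Quotient.mk_eq_zero _)
  · obtain ⟨z, rfl⟩ := Submodule.Quotient.mk_surjective _ x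
    exact Submodule.mem_sup_left ⟨z, z.2, hf z⟩
  · exact sub_eq_zero.2 ((hf ⟨_, (hZ s z hz).1⟩).trans (congrArg (M.X s) (hf ⟨z, hz⟩)).symm)
  · exact sub_eq_zero.2 ((hf ⟨_, (hZ s z hz).2⟩).trans (congrArg (M.D s) (hf ⟨z, hz⟩)).symm)

end PisoAux

open PisoAux

theorem p_PISO :
    S_PISO := by
  intro ι S
  refine ⟨fun N B Z h hB hZ => ⟨LinearMap.id, h, hB, hZ, h, hB, hZ, fun _ h => h,
      fun _ _ => Iff.rfl, by simp, by simp⟩,
    fun _ _ _ _ _ _ => PisoAux.symm, fun _ _ _ _ _ _ _ _ _ => PisoAux.trans,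
    fun N Y Z hY hZ => ⟨LinearMap.id, inf_le_right, st_inf hY hZ, hZ, le_sup_left, hY, st_sup hY hZ,
      fun _ h => Submodule.mem_sup_right h, fun _ h => ⟨fun h' => ⟨h', h⟩, fun h' => h'.1⟩,
      by simp [sup_comm], by simp⟩,
    fun N B Z N' B' Z' f Y₁ Y₂ h h1 h2 h3 s1 s2 => ⟨h2, s1, s2,
      sup_le_sup_right (Submodule.map_mono h2) _, st_map h (h2.trans h3) s1, st_map h h3 s2,
      fun z hz => Submodule.mem_sup_left ⟨z, hz, rfl⟩,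
      fun z hz => ⟨fun hm => ?_, fun hm => Submodule.mem_sup_left ⟨z, hm, rfl⟩⟩,
      sup_le_sup_left le_sup_right _, fun s hs z hz =>
        ⟨Submodule.mem_sup_right (h.comm s hs z (h3 hz)).1,
          Submodule.mem_sup_right (h.comm s hs z (h3 hz)).2⟩⟩,
    fun L N B Z => ⟨?_, ?_⟩, fun _ _ _ => quot, fun _ _ _ _ _ _ => sp, fun L => ⟨?_, ?_⟩⟩
  · obtain ⟨_, ⟨y, hy, rfl⟩, b, hb, e⟩ := Submodule.mem_sup.1 hm
    have : z - y ∈ B := (h.ker _ (sub_mem (h3 hz) (h3 (h2 hy)))).1 (by simpa [← e] using hb)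
    simpa using add_mem (h1 this) hy
  · rintro ⟨h, hB, hZ, f, h1, h2, h3⟩
    exact ⟨f, h, (stOn_univ _ _).2 hB, (stOn_univ _ _).2 hZ, bot_le,
      fun s _ v hv => by simp [(Submodule.mem_bot ℂ).1 hv], fun _ _ _ _ => ⟨trivial, trivial⟩,
      fun _ _ => trivial, h1, by simp [h2],
      fun s _ z hz => ⟨sub_eq_zero.2 (h3 s z hz).1, sub_eq_zero.2 (h3 s z hz).2⟩⟩
  · rintro ⟨f, h⟩
    exact ⟨h.le, (stOn_univ _ _).1 h.stB, (stOn_univ _ _).1 h.stZ, f, h.ker,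
      by simpa using h.onto, fun s z hz =>
        ⟨sub_eq_zero.1 (h.comm s trivial z hz).1, sub_eq_zero.1 (h.comm s trivial z hz).2⟩⟩
  · rintro ⟨hW, hn, h⟩
    exact ⟨hW, bot_lt_top, fun s v hv => by simp [(Submodule.mem_bot ℂ).1 hv],
      fun _ _ _ => ⟨trivial, trivial⟩, fun T hT _ _ => h T hT⟩
  · rintro ⟨hW, h1, -, -, h⟩
    exact ⟨hW, (Submodule.nontrivial_iff ℂ).1 (nontrivial_of_lt _ _ h1),
      fun T hT => h T hT bot_le le_top⟩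

end Pool.Agent.P.MP_52ab5a_al
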