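import Pool.Agent.P.MP_52ab5a_al.A.Iface

/-! Step PSOL of the open orbit project. -/

namespace Pool.Agent.P.MP_52ab5a_al

open MvPolynomial
open WM

namespace PsolAux

variable {r : Type} [Fintype r]

/-- pairing of the value at `u` of a polynomial vector with a complex vector -/
noncomputable def pr (u : ℂ) (v : r → ℂ) (x : r → Polynomial ℂ) : ℂ := ∑ j, (x j).eval u * v j

theorem pr_add (u : ℂ) (v : r → ℂ) (x y : r → Polynomial ℂ) :
    pr u v (x + y) = pr u v x + pr u v y := by
  simp [pr, add_mul, Finset.sum_add_distrib]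

theorem pr_smul (u : ℂ) (v : r → ℂ) (p : Polynomial ℂ) (x : r → Polynomial ℂ) :
    pr u v (p • x) = p.eval u * pr u v x := by
  simp [pr, Finset.mul_sum, mul_assoc]

theorem pr_zero (u : ℂ) (v : r → ℂ) : pr u v 0 = 0 := by simp [pr]

theorem pr_sum {ι : Type} (s : Finset ι) (u : ℂ) (v : r → ℂ) (x : ι → r → Polynomial ℂ) :
    pr u v (∑ i ∈ s, x i) = ∑ i ∈ s, pr u v (x i) := by
  classical
  induction s using Finset.induction_on with
  | empty => simp [pr_zero]
  | insert a s ha ih => rw [Finset.sum_insert ha, Finset.sum_insert ha, pr_add, ih]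

theorem pr_single [DecidableEq r] (u : ℂ) (v : r → ℂ) (j : r) :
    pr u v (Pi.single j 1) = v j := by
  unfold pr
  rw [Finset.sum_eq_single j]
  · simp
  · intro b _ hb
    simp [Pi.single_eq_of_ne hb]
  · simp

theorem repr_eq [DecidableEq r] (b : Module.Basis r (Polynomial ℂ) (r → Polynomial ℂ))
    (x : r → Polynomial ℂ) (i : r) :
    ∑ j, x j * b.repr (Pi.single j 1) i = b.repr x i := by
  have hx : x = ∑ j, x j • (Pi.single j 1 : r → Polynomial ℂ) := by
    ext1 k
    simp [Finset.sum_apply, Pi.single_apply]
  conv_rhs => rw [hx]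
  simp [map_sum, Finsupp.finsetSum_apply]

theorem mem_kerAt {α : Type} (ρ : α → r → Polynomial ℂ) (u : ℂ) (v : r → ℂ) :
    v ∈ kerAt ρ u ↔ ∀ a, ∑ j, (ρ a j).eval u * v j = 0 := by
  simp [kerAt, Submodule.mem_iInf, LinearMap.mem_ker, LinearMap.sum_apply]

end PsolAux

open PsolAux in
theorem p_PSOL :
    S_PSOL := by
  intro α r _ ρ
  classical
  refine ⟨mem_kerAt ρ, fun u₀ => ?_⟩
  obtain ⟨n, snf⟩ := (Submodule.span (Polynomial ℂ) (Set.range ρ)).smithNormalForm
    (Pi.basisFun (Polynomial ℂ) r)
  let T := {i : r // i ∉ Set.range snf.f}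
  let e : Fin (Fintype.card T) ≃ T := (Fintype.equivFin T).symm
  refine ⟨Fintype.card T, fun i j => snf.bM.repr (Pi.single j 1) (e i).1, ?_, ?_, ?_⟩
  · intro i a
    rw [repr_eq]
    exact snf.repr_eq_zero_of_notMem_range
      (⟨ρ a, Submodule.subset_span ⟨a, rfl⟩⟩ : Submodule.span (Polynomial ℂ) (Set.range ρ))
      (e i).2
  · rw [Fintype.linearIndependent_iff]
    intro g hg i₀
    have h1 : ∀ i, pr u₀ (fun j => (snf.bM.repr (Pi.single j 1) (e i).1).eval u₀)
        (snf.bM (e i₀).1) = if i = i₀ then 1 else 0 := by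
      intro i
      have h := congrArg (Polynomial.eval u₀) (repr_eq snf.bM (snf.bM (e i₀).1) (e i).1)
      rw [Polynomial.eval_finsetSum] at h
      simp only [Polynomial.eval_mul] at h
      unfold pr
      rw [h, Module.Basis.repr_self, Finsupp.single_apply]
      by_cases hi : i = i₀
      · simp [hi]
      · have : (e i₀).1 ≠ (e i).1 := fun hh => hi (e.injective (Subtype.ext hh)).symm
        simp [hi, this]
    have h2 : ∑ i, g i * pr u₀ (fun j => (snf.bM.repr (Pi.single j 1) (e i).1).eval u₀)
        (snf.bM (e i₀).1) = 0 := by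
      unfold pr
      simp only [Finset.mul_sum]
      rw [Finset.sum_comm]
      refine Finset.sum_eq_zero fun j _ => ?_
      have h := congrFun hg j
      simp only [Finset.sum_apply, Pi.smul_apply, smul_eq_mul, Pi.zero_apply] at h
      calc _ = (snf.bM (e i₀).1 j).eval u₀ *
            ∑ i, g i * (snf.bM.repr (Pi.single j 1) (e i).1).eval u₀ := by
            rw [Finset.mul_sum]
            exact Finset.sum_congr rfl fun i _ => by ring
        _ = 0 := by rw [h, mul_zero]
    simpa [h1] using h2
  · have ha : ∀ k, snf.a k ≠ 0 := by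
      intro k hk
      have h := snf.snf k
      rw [hk, zero_smul] at h
      exact snf.bN.ne_zero k (Subtype.ext h)
    have hp : (∏ k, snf.a k) ≠ 0 := Finset.prod_ne_zero_iff.2 fun k _ => ha k
    refine (Polynomial.finite_setOfPred_isRoot hp).subset fun u hu => ?_
    by_contra hne
    have hne' : ∀ k, (snf.a k).eval u ≠ 0 := by
      intro k hk
      apply hne
      show (∏ k, snf.a k).eval u = 0
      rw [Polynomial.eval_prod]
      exact Finset.prod_eq_zero (Finset.mem_univ k) hk
    let L : (r → ℂ) →ₗ[ℂ] (Fin (Fintype.card T) → ℂ) :=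
      { toFun := fun v i => pr u v (snf.bM (e i).1)
        map_add' := by
          intro v w
          ext1 i
          simp [pr, mul_add, Finset.sum_add_distrib]
        map_smul' := by
          intro c v
          ext1 i
          simp only [pr, Pi.smul_apply, smul_eq_mul, RingHom.id_apply, Finset.mul_sum]
          exact Finset.sum_congr rfl fun j _ => by ring }
    have hinj : Function.Injective (L.comp (kerAt ρ u).subtype) := by
      rw [injective_iff_map_eq_zero]
      rintro ⟨v, hv⟩ h0
      have hN : ∀ x ∈ Submodule.span (Polynomial ℂ) (Set.range ρ), pr u v x = 0 := by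
        intro x hx
        induction hx using Submodule.span_induction with
        | mem x hx =>
          obtain ⟨a, rfl⟩ := hx
          exact (mem_kerAt ρ u v).1 hv a
        | zero => exact pr_zero u v
        | add x y _ _ hx hy => rw [pr_add, hx, hy, add_zero]
        | smul p x _ hx => rw [pr_smul, hx, mul_zero]
      have hall : ∀ i, pr u v (snf.bM i) = 0 := by
        intro i
        by_cases hi : i ∈ Set.range snf.f
        · obtain ⟨k, rfl⟩ := hi
          have h := hN _ (snf.bN k).2
          rw [snf.snf k, pr_smul] at h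
          exact (mul_eq_zero.1 h).resolve_left (hne' k)
        · have h := congrFun h0 (e.symm ⟨i, hi⟩)
          simpa [L] using h
      refine Subtype.ext (funext fun j => ?_)
      show v j = 0
      rw [← pr_single u v j, ← snf.bM.sum_repr (Pi.single j 1), pr_sum]
      exact Finset.sum_eq_zero fun i _ => by rw [pr_smul, hall, mul_zero]
    have hle := LinearMap.finrank_le_finrank_of_injective hinj
    rw [Module.finrank_fin_fun] at hle
    exact absurd hu (not_lt.2 hle)

end Pool.Agent.P.MP_52ab5a_al
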