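import Pool.Agent.P.MP_52ab5a_al.A.Iface

/-! Step PUSH of the open orbit project. -/

namespace Pool.Agent.P.MP_52ab5a_al

open MvPolynomial
open WM

namespace PushAux

variable {σ ι : Type}

open Classical in
/-- The list of the variables that are integrated. -/
noncomputable def lz [Fintype ι] (r : σ → ι) : List ι :=
  (Finset.univ.filter fun t => t ∉ Set.range r).toList

theorem lz_nodup [Fintype ι] (r : σ → ι) : (lz r).Nodup := Finset.nodup_toList _

theorem mem_lz [Fintype ι] (r : σ → ι) (t : ι) : t ∈ lz r ↔ t ∉ Set.range r := by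
  simp only [lz, Finset.mem_toList, Finset.mem_filter, Finset.mem_univ, true_and]

theorem push_eq [Fintype ι] (r : σ → ι) (φ : Fn σ) (N : WM ι) (B Z : Submodule ℂ N.V) :
    push r φ N B Z = iter φ (N.res r) ((lz r).map N.D) B Z := rfl

theorem un [Fintype ι] (r : σ → ι) : Set.range r ∪ {t | t ∈ lz r} = Set.univ :=
  Set.eq_univ_of_forall fun t => (em (t ∈ Set.range r)).imp id (mem_lz r t).2

theorem two (hIPERM : S_IPERM) [Fintype ι] {r : σ → ι} (hr : Function.Injective r) {φ : Fn σ}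
    {l : List ι} (hφ : Additive φ) (hl : l.Nodup) (hm : ∀ t, t ∈ l ↔ t ∉ Set.range r)
    (N : WM ι) (B Z : Submodule ℂ N.V) (h : Hol Set.univ N B Z) :
    push r φ N B Z = iter φ (N.res r) (l.map N.D) B Z :=
  hIPERM σ ι r φ hr hφ (lz r) l
    ((List.perm_ext_iff_of_nodup (lz_nodup r) hl).2 fun t => (mem_lz r t).trans (hm t).symm)
    (lz_nodup r) (fun t => (mem_lz r t).1) N B Z (by rw [un]; exact h)

theorem comp [Fintype ι] {ι' : Type} (r : σ → ι) (r' : ι → ι') (φ : Fn σ) (N : WM ι')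
    (l : List ι') (B Z : Submodule ℂ N.V) :
    iter φ (N.res (r' ∘ r)) ((l ++ (lz r).map r').map N.D) B Z =
      iter (push r φ) (N.res r') (l.map N.D) B Z := by
  induction l generalizing B Z with
  | nil => rw [List.nil_append, List.map_map]; rfl
  | cons t l ih => exact congrArg₂ (· - ·) (ih _ _) (ih _ _)

theorem sub {T T' : Fn ι → ℤ} (h : IsClass T) (h' : IsClass T') : IsClass fun φ => T φ - T' φ := by
  obtain ⟨m, M, B, Z, n, a, b⟩ := h
  obtain ⟨m', M', B', Z', n', a', b'⟩ := h'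
  let P : Fin m ⊕ Fin m' → Σ N : WM ι, Submodule ℂ N.V × Submodule ℂ N.V :=
    Sum.elim (fun i => ⟨M i, B i, Z i⟩) fun i => ⟨M' i, B' i, Z' i⟩
  have hP : ∀ i, Hol Set.univ (P i).1 (P i).2.1 (P i).2.2 := fun i => by
    cases i with
    | inl i => exact a i
    | inr i => exact a' i
  refine ⟨m + m', fun i => (P (finSumFinEquiv.symm i)).1, fun i => (P (finSumFinEquiv.symm i)).2.1,
    fun i => (P (finSumFinEquiv.symm i)).2.2,
    fun i => Sum.elim n (fun j => -n' j) (finSumFinEquiv.symm i), fun i => hP _, fun φ => ?_⟩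
  change T φ - T' φ = _
  rw [Equiv.sum_comp finSumFinEquiv.symm
    (fun i => Sum.elim n (fun j => -n' j) i * φ (P i).1 (P i).2.1 (P i).2.2), Fintype.sum_sum_type,
    b, b', sub_eq_add_neg, ← Finset.sum_neg_distrib]
  exact congrArg₂ (· + ·) rfl (Finset.sum_congr rfl fun j _ => (neg_mul _ _).symm)

theorem cls (hHSUB : S_HSUB) (hRED : S_RED) [Finite ι] {r : σ → ι} (hr : Function.Injective r)
    (N : WM ι) (l : List ι) (hl : l.Nodup) (hm : ∀ t ∈ l, t ∉ Set.range r)
    (B Z : Submodule ℂ N.V) (h : Hol (Set.range r ∪ {t | t ∈ l}) N B Z) :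
    IsClass fun φ => iter φ (N.res r) (l.map N.D) B Z := by
  induction l generalizing B Z with
  | nil =>
    have e : Set.range r ∪ {t | t ∈ ([] : List ι)} = r '' Set.univ := by simp
    rw [e] at h
    exact ⟨1, fun _ => N.res r, fun _ => B, fun _ => Z, fun _ => 1,
      fun _ => ((hHSUB ι Set.univ).2.2.2.1 σ r _ N B Z hr h.1).1 h, fun φ => by simp [iter]⟩
  | cons t l ih =>
    obtain ⟨h1, h2⟩ := List.nodup_cons.1 hl
    have e : (Set.range r ∪ {x | x ∈ t :: l}) \ {t} = Set.range r ∪ {x | x ∈ l} := by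
      ext x
      simp only [Set.mem_sdiff, Set.mem_union, Set.mem_ofPred_eq, List.mem_cons,
        Set.mem_singleton_iff]
      refine ⟨fun ⟨a, b⟩ => a.imp id fun c => c.resolve_left b, fun a => ⟨a.imp id Or.inr, ?_⟩⟩
      rintro rfl
      exact a.elim (hm x List.mem_cons_self) h1
    have k := hRED ι _ N B Z h t (Or.inr List.mem_cons_self)
    rw [e] at k
    have hm' : ∀ x ∈ l, x ∉ Set.range r := fun x hx => hm x (List.mem_cons_of_mem _ hx)
    exact sub (ih h2 hm' _ _ k.1) (ih h2 hm' _ _ k.2)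

end PushAux

open PushAux in
theorem p_PUSH (hHSUB : S_HSUB) (hRED : S_RED) (hIADD : S_IADD) (hIPERM : S_IPERM) :
    S_PUSH := by
  intro σ ι _ r hr
  refine ⟨fun φ hφ => ?_, fun φ l hφ hl hm => two hIPERM hr hφ hl hm,
    fun φ ι' _ r' hφ hr' N B Z h => ?_, fun φ hs N B Z => ?_, fun N B Z h =>
    cls hHSUB hRED hr N (lz r) (lz_nodup r) (fun t => (mem_lz r t).1) B Z (by rw [un]; exact h)⟩
  · have k := hIADD σ ι r φ hr hφ (lz r) (lz_nodup r) fun t => (mem_lz r t).1
    rw [un] at k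
    exact ⟨fun N B Y Z a b c d => k.1 N B Y Z a b c ((stOn_univ N Y).2 d), k.2⟩
  · rw [push_eq r', ← comp]
    refine two hIPERM (hr'.comp hr) hφ ?_ (fun t => ?_) N B Z h
    · refine List.Nodup.append (lz_nodup r') ((lz_nodup r).map hr') fun t a b => ?_
      obtain ⟨s, _, rfl⟩ := List.mem_map.1 b
      exact (mem_lz r' _).1 a ⟨s, rfl⟩
    · rw [List.mem_append, List.mem_map, mem_lz]
      constructor
      · rintro (a | ⟨s, a, rfl⟩) ⟨x, b⟩
        · exact a ⟨r x, b⟩
        · exact (mem_lz r s).1 a ⟨x, hr' b⟩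
      · intro a
        by_cases b : t ∈ Set.range r'
        · obtain ⟨s, rfl⟩ := b
          exact Or.inr ⟨s, (mem_lz r s).2 fun ⟨x, c⟩ => a ⟨x, congrArg r' c⟩, rfl⟩
        · exact Or.inl b
  · have e : lz r = [] := List.eq_nil_iff_forall_not_mem.2 fun t a => (mem_lz r t).1 a (hs t)
    rw [push_eq, e]
    rfl

end Pool.Agent.P.MP_52ab5a_al
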