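import Pool.Agent.P.MP_52ab5a_al.A.Iface

/-! Step RED of the open orbit project. -/

namespace Pool.Agent.P.MP_52ab5a_al

open MvPolynomial
open WM

namespace RedAux

theorem cancel {r : Cardinal.{0}} {k M : ℕ} (h : ((k + 1 : ℕ) : Cardinal) * r ≤ ((k + 1) * M : ℕ)) :
    r ≤ M := by
  have h1 : r ≤ ((k + 1 : ℕ) : Cardinal) * r := by
    rw [Nat.cast_succ, add_mul, one_mul]; exact le_add_self
  lift r to ℕ using (h1.trans h).trans_lt Cardinal.natCast_lt_aleph0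
  rw [← Nat.cast_mul, Nat.cast_le] at h
  exact Nat.cast_le.2 (Nat.le_of_mul_le_mul_left h k.succ_pos)

variable {V : Type} [AddCommGroup V] [Module ℂ V]

/-- The sum of `B` and the images of `U` under the first powers of `x`. -/
noncomputable def E (x : Module.End ℂ V) (B U : Submodule ℂ V) : ℕ → Submodule ℂ V
  | 0 => B
  | j + 1 => E x B U j ⊔ U.map (x ^ j)

variable {x d : Module.End ℂ V} {B U : Submodule ℂ V}

theorem le_E (j : ℕ) : B ≤ E x B U j := by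
  induction j with
  | zero => exact le_rfl
  | succ j ih => exact ih.trans le_sup_left

theorem d_pow (h : d * x - x * d = 1) (hx : ∀ v ∈ B, x v ∈ B) {v : V} (hv : d v ∈ B) (j : ℕ) :
    d ((x ^ (j + 1)) v) - ((j : ℂ) + 1) • (x ^ j) v ∈ B := by
  have e : ∀ u, d (x u) = x (d u) + u := fun u => by
    have := DFunLike.congr_fun h u
    simp only [LinearMap.sub_apply, Module.End.mul_apply, Module.End.one_apply] at this
    rw [← sub_eq_iff_eq_add', this]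
  induction j with
  | zero => simpa [e] using hx _ hv
  | succ j ih =>
    have := hx _ ih
    rw [map_sub, map_smul, ← Module.End.mul_apply x (x ^ j), ← pow_succ'] at this
    rw [pow_succ' x (j + 1), Module.End.mul_apply, e]
    convert this using 1
    push_cast
    module

theorem d_E (h : d * x - x * d = 1) (hx : ∀ v ∈ B, x v ∈ B) (hd : ∀ v ∈ B, d v ∈ B)
    (hU : U ≤ B.comap d) (j : ℕ) : E x B U (j + 1) ≤ (E x B U j).comap d := by
  induction j with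
  | zero => exact sup_le hd (by rintro _ ⟨v, hv, rfl⟩; exact hU hv)
  | succ j ih =>
    refine sup_le (fun v hv => Submodule.mem_sup_left (ih hv)) ?_
    rintro _ ⟨v, hv, rfl⟩
    have := Submodule.add_mem _ (le_E (x := x) (U := U) (j + 1) (d_pow h hx (hU hv) j))
      (Submodule.smul_mem _ ((j : ℂ) + 1) (Submodule.mem_sup_right ⟨v, hv, rfl⟩))
    rwa [sub_add_cancel] at this

theorem inj_E (h : d * x - x * d = 1) (hx : ∀ v ∈ B, x v ∈ B) (hd : ∀ v ∈ B, d v ∈ B)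
    (hU : U ≤ B.comap d) (j : ℕ) {v : V} (hv : v ∈ U) : (x ^ j) v ∈ E x B U j → v ∈ B := by
  induction j with
  | zero => exact id
  | succ j ih =>
    intro hj
    have := Submodule.sub_mem (E x B U j) (d_E h hx hd hU j hj) (le_E j (d_pow h hx (hU hv) j))
    rw [sub_sub_cancel] at this
    exact ih ((Submodule.smul_mem_iff _ (Nat.cast_add_one_ne_zero j)).1 this)

theorem rk_E (hRK : S_RK) (h : d * x - x * d = 1) (hx : ∀ v ∈ B, x v ∈ B)
    (hd : ∀ v ∈ B, d v ∈ B) (hU : U ≤ B.comap d) (j : ℕ) :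
    (j : Cardinal) * rk B U ≤ rk B (E x B U j) := by
  obtain ⟨r1, r2, r3, -, r5⟩ := hRK V
  induction j with
  | zero => simp
  | succ j ih =>
    rw [r1 B (E x B U j) (E x B U (j + 1)) (le_E j) le_sup_left, Nat.cast_succ, add_mul, one_mul]
    refine add_le_add ih (le_trans ?_ (r2 _ _ _ _ le_rfl le_sup_right))
    rw [r5, ← (r3 (Submodule.comap _ _) U).2.1]
    exact r2 _ _ _ _ (fun v hv => inj_E h hx hd hU j hv.2 hv.1) le_rfl

theorem E_le {Γ : ℕ → Submodule ℂ V} (hm : Monotone Γ) (hB : ∀ k, B ≤ Γ k)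
    (hx : ∀ k, ∀ v ∈ Γ k, x v ∈ Γ (k + 1)) {k : ℕ} (hU : U ≤ Γ k) (j : ℕ) :
    E x B U j ≤ Γ (k + j) := by
  have e : ∀ j, ∀ v ∈ Γ k, (x ^ j) v ∈ Γ (k + j) := fun j v hv => by
    induction j with
    | zero => exact hv
    | succ j ih => rw [pow_succ']; exact hx _ _ ih
  induction j with
  | zero => exact hB _
  | succ j ih =>
    refine sup_le (ih.trans (hm (by omega))) ?_
    rintro _ ⟨v, hv, rfl⟩
    exact hm (by omega) (e j v (hU hv))

theorem coker (hRK : S_RK) {Γ : ℕ → Submodule ℂ V} {C : Submodule ℂ V} (hm : Monotone Γ)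
    (hB : ∀ k, B ≤ Γ k) (hd : ∀ v ∈ B, d v ∈ B) (hΓ : ∀ k, ∀ v ∈ Γ k, d v ∈ Γ (k + 1))
    (hC : ∀ k, B ⊔ (Γ k).map d ≤ C) (k j : ℕ) :
    (j : Cardinal) * rk C (Γ k) + rk B (Γ k) ≤
      rk B (Γ (k + j)) + j * rk B (Γ (k + j) ⊓ B.comap d) := by
  obtain ⟨r1, r2, r3, -, r5⟩ := hRK V
  have key : ∀ k, rk C (Γ (k + 1)) + rk B (Γ k) ≤ rk B (Γ (k + 1)) + rk B (Γ k ⊓ B.comap d) := by
    intro k
    rw [r1 B (B ⊔ (Γ k).map d) (Γ (k + 1)) le_sup_left
      (sup_le (hB _) (by rintro _ ⟨v, hv, rfl⟩; exact hΓ k v hv)),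
      r1 B (Γ k ⊓ B.comap d) (Γ k) (le_inf (hB k) hd) inf_le_left, sup_comm, (r3 _ _).1, r5,
      inf_comm (Γ k), (r3 _ _).2.1, add_comm (rk B _), ← add_assoc, add_comm (rk C _)]
    exact add_le_add (add_le_add le_rfl (r2 _ _ _ _ (sup_comm B _ ▸ hC k) le_rfl)) le_rfl
  induction j with
  | zero => simp
  | succ j ih =>
    have h1 : rk C (Γ k) ≤ rk C (Γ (k + j + 1)) := r2 _ _ _ _ le_rfl (hm (by omega))
    have h2 : rk B (Γ (k + j) ⊓ B.comap d) ≤ rk B (Γ (k + j + 1) ⊓ B.comap d) :=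
      r2 _ _ _ _ le_rfl (inf_le_inf_right _ (hm (by omega)))
    calc _ = rk C (Γ k) + ((j : Cardinal) * rk C (Γ k) + rk B (Γ k)) := by push_cast; ring
      _ ≤ rk C (Γ (k + j + 1)) + (rk B (Γ (k + j)) + j * rk B (Γ (k + j) ⊓ B.comap d)) :=
        add_le_add h1 ih
      _ ≤ rk B (Γ (k + j + 1)) + rk B (Γ (k + j) ⊓ B.comap d) +
          j * rk B (Γ (k + j) ⊓ B.comap d) := by
        rw [← add_assoc]; exact add_le_add (key _) le_rfl
      _ ≤ rk B (Γ (k + j + 1)) + rk B (Γ (k + j + 1) ⊓ B.comap d) +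
          j * rk B (Γ (k + j + 1) ⊓ B.comap d) := by gcongr
      _ = _ := by rw [← add_assoc k j 1]; push_cast; ring

end RedAux

open RedAux in
theorem p_RED (hRK : S_RK) :
    S_RED := by
  rintro ι _ S N B Z ⟨hW, hBZ, hB, hZ, Γ, c, hm, hΓ, hs, he, hr⟩ t ht
  obtain ⟨-, r2, r3, -, -⟩ := hRK N.V
  rw [← Set.ncard_sdiff_singleton_add_one ht] at hr
  generalize hn : (S \ {t}).ncard = n at hr
  have hX : ∀ s ∈ S \ {t}, ∀ v, N.D t (N.X s v) = N.X s (N.D t v) := fun s h v =>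
    DFunLike.congr_fun (hW.2.2.2 t s (Ne.symm h.2)) v
  have hD : ∀ s v, N.D t (N.D s v) = N.D s (N.D t v) := fun s v =>
    DFunLike.congr_fun (hW.2.1 t s) v
  have hK : StOn (S \ {t}) N (B.comap (N.D t)) := fun s h v hv =>
    ⟨by rw [Submodule.mem_comap, hX s h]; exact (hB s h.1 _ hv).1,
      by rw [Submodule.mem_comap, hD]; exact (hB s h.1 _ hv).2⟩
  have hd : ∀ v ∈ B, N.D t v ∈ B := fun v hv => (hB t ht v hv).2
  have hb : ∀ k, rk B (Γ k ⊓ B.comap (N.D t)) ≤ ((c * 2 ^ (n + 1) * (k + 1) ^ n : ℕ) : Cardinal) :=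
    fun k => cancel (k := k) ((rk_E hRK (hW.2.2.1 t) (fun v hv => (hB t ht v hv).1) hd inf_le_right
      (k + 1)).trans ((r2 _ _ _ _ le_rfl (E_le hm (fun k => (hΓ k).1)
        (fun k v hv => (hs k t ht v hv).1) inf_le_left _)).trans ((hr _).trans_eq (by
          rw [show k + (k + 1) + 1 = 2 * (k + 1) by ring, mul_pow]; congr 1; ring))))
  have hC : StOn (S \ {t}) N (B ⊔ Z.map (N.D t)) := fun s h v hv => by
    obtain ⟨a, ha, _, ⟨b, hb, rfl⟩, rfl⟩ := Submodule.mem_sup.1 hv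
    rw [map_add, map_add, ← hX s h, ← hD]
    exact ⟨Submodule.add_mem_sup (hB s h.1 a ha).1 ⟨_, (hZ s h.1 b hb).1, rfl⟩,
      Submodule.add_mem_sup (hB s h.1 a ha).2 ⟨_, (hZ s h.1 b hb).2, rfl⟩⟩
  have hCZ : B ⊔ Z.map (N.D t) ≤ Z :=
    sup_le hBZ (by rintro _ ⟨v, hv, rfl⟩; exact (hZ t ht v hv).2)
  refine ⟨⟨hW, le_inf hBZ hd, fun s h => hB s h.1, fun s h v hv =>
    ⟨⟨(hZ s h.1 v hv.1).1, (hK s h v hv.2).1⟩, (hZ s h.1 v hv.1).2, (hK s h v hv.2).2⟩,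
    fun k => Γ k ⊓ B.comap (N.D t), c * 2 ^ (n + 1), fun _ _ h => inf_le_inf_right _ (hm h),
    fun k => ⟨le_inf (hΓ k).1 hd, inf_le_inf_right _ (hΓ k).2⟩, fun k s h v hv =>
    ⟨⟨(hs k s h.1 v hv.1).1, (hK s h v hv.2).1⟩, (hs k s h.1 v hv.1).2, (hK s h v hv.2).2⟩,
    fun z hz => (he z hz.1).imp fun k hk => ⟨hk, hz.2⟩, fun k => hn ▸ hb k⟩,
    hW, hCZ, hC, fun s h => hZ s h.1, fun k => Γ k ⊔ (B ⊔ Z.map (N.D t)),
    c * 2 ^ (n + 1) + c * 2 ^ (n + 1) * 2 ^ n, fun _ _ h => sup_le_sup_right (hm h) _,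
    fun k => ⟨le_sup_right, sup_le (hΓ k).2 hCZ⟩, fun k s h v hv => ?_,
    fun z hz => (he z hz).imp fun k hk => Submodule.mem_sup_left hk, fun k => ?_⟩
  · obtain ⟨a, ha, b, hb, rfl⟩ := Submodule.mem_sup.1 hv
    rw [map_add, map_add]
    exact ⟨Submodule.add_mem_sup (hs k s h.1 a ha).1 (hC s h b hb).1,
      Submodule.add_mem_sup (hs k s h.1 a ha).2 (hC s h b hb).2⟩
  · rw [(r3 _ _).1, hn]
    refine cancel (k := k) (le_self_add.trans ((coker hRK hm (fun k => (hΓ k).1) hd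
      (fun k v hv => (hs k t ht v hv).2)
      (fun k => sup_le_sup_left (Submodule.map_mono (hΓ k).2) _) k (k + 1)).trans
      ((add_le_add (hr _) (mul_le_mul_right (hb _) _)).trans_eq ?_)))
    rw [← Nat.cast_mul, ← Nat.cast_add, show k + (k + 1) + 1 = 2 * (k + 1) by ring, mul_pow,
      mul_pow]
    congr 1; ring

end Pool.Agent.P.MP_52ab5a_al
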