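import Pool.Agent.P.MP_52ab5a_al.A.Iface

/-! Step RESM of the open orbit project. -/

namespace Pool.Agent.P.MP_52ab5a_al

open MvPolynomial
open WM

namespace ResmAux

variable {ι σ : Type} (e : σ ≃ ι)

theorem isW {N : WM ι} (h : N.IsW) : (N.res e).IsW :=
  ⟨fun _ _ => h.1 _ _, fun _ _ => h.2.1 _ _, fun _ => h.2.2.1 _,
    fun _ _ hst => h.2.2.2 _ _ (e.injective.ne hst)⟩

theorem stable (N : WM ι) (B : Submodule ℂ N.V) : (N.res e).Stable B ↔ N.Stable B :=
  (e.surjective.forall (p := fun s => ∀ v ∈ B, N.X s v ∈ B ∧ N.D s v ∈ B)).symm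

theorem stOn (N : WM ι) (B : Submodule ℂ N.V) :
    StOn Set.univ (N.res e) B ↔ StOn Set.univ N B :=
  (stOn_univ _ _).trans ((stable e N B).trans (stOn_univ _ _).symm)

theorem piso (N : WM ι) (B Z : Submodule ℂ N.V) (N' : WM ι) (B' Z' : Submodule ℂ N'.V) :
    PIso Set.univ (N.res e) B Z (N'.res e) B' Z' ↔ PIso Set.univ N B Z N' B' Z' := by
  constructor
  · rintro ⟨f, h⟩
    refine ⟨f, h.le, (stOn e N B).1 h.stB, (stOn e N Z).1 h.stZ, h.le', (stOn e N' B').1 h.stB',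
      (stOn e N' Z').1 h.stZ', h.maps, h.ker, h.onto, fun s _ => ?_⟩
    obtain ⟨t, rfl⟩ := e.surjective s
    exact h.comm t trivial
  · rintro ⟨f, h⟩
    exact ⟨f, h.le, (stOn e N B).2 h.stB, (stOn e N Z).2 h.stZ, h.le', (stOn e N' B').2 h.stB',
      (stOn e N' Z').2 h.stZ', h.maps, h.ker, h.onto, fun s _ => h.comm (e s) trivial⟩

theorem factor (L N : WM ι) (B Z : Submodule ℂ N.V) :
    (L.res e).IsFactor (N.res e) B Z ↔ L.IsFactor N B Z :=
  and_congr_right fun _ => and_congr (stable e N B) (and_congr (stable e N Z)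
    (exists_congr fun f => and_congr_right fun _ => and_congr_right fun _ =>
      (e.surjective.forall (p := fun s => ∀ z ∈ Z,
        f (N.X s z) = L.X s (f z) ∧ f (N.D s z) = L.D s (f z))).symm))

end ResmAux

open ResmAux

theorem p_RESM (hHSUB : S_HSUB) :
    S_RESM := by
  intro ι σ e
  have hol : ∀ (N : WM ι) B Z, Hol Set.univ N B Z → Hol Set.univ (N.res e) B Z := fun N B Z h =>
    ((hHSUB ι Set.univ).2.2.2.1 σ e Set.univ N B Z e.injective h.1).1
      (by rwa [Set.image_univ, e.surjective.range_eq])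
  refine ⟨fun _ => isW e, stable e,
    fun N h => ⟨isW e h.1, h.2.1, fun B hB => h.2.2 B ((stable e N B).1 hB)⟩, hol, piso e,
    fun L N B Z => ?_, fun φ hφ => ⟨fun N B Y Z h h1 h2 h3 => ?_, fun N B Z N' B' Z' h h1 h2 => ?_⟩⟩
  · simp only [WM.mult, factor]
  · exact hφ.add (N.res e) B Y Z (hol N B Z h) h1 h2 ((stable e N Y).2 h3)
  · exact hφ.iso (N.res e) B Z (N'.res e) B' Z' (hol N B Z h) (isW e h1)
      ((piso e N B Z N' B' Z').2 h2)

end Pool.Agent.P.MP_52ab5a_al
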