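import Pool.Agent.P.MP_52ab5a_al.A.Iface

/-! Step RK of the open orbit project. -/

namespace Pool.Agent.P.MP_52ab5a_al

open MvPolynomial
open WM

namespace RkAux

variable {V W W' : Type} [AddCommGroup V] [Module ℂ V] [AddCommGroup W] [Module ℂ W]
  [AddCommGroup W'] [Module ℂ W']

theorem rank_le (f : V →ₗ[ℂ] W) (g : V →ₗ[ℂ] W') (Y : Submodule ℂ V)
    (h : ∀ y ∈ Y, f y = 0 → g y = 0) : Module.rank ℂ (Y.map g) ≤ Module.rank ℂ (Y.map f) := by
  rw [← LinearMap.range_domRestrict, ← LinearMap.range_domRestrict,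
    ← (LinearMap.quotKerEquivRange _).rank_eq, ← (LinearMap.quotKerEquivRange _).rank_eq]
  exact LinearMap.rank_le_of_surjective (Submodule.factor fun y hy => h y y.2 hy)
    (Submodule.factor_surjective _)

theorem rank_eq (f : V →ₗ[ℂ] W) (g : V →ₗ[ℂ] W') (Y : Submodule ℂ V)
    (h : ∀ y ∈ Y, f y = 0 ↔ g y = 0) : Module.rank ℂ (Y.map f) = Module.rank ℂ (Y.map g) :=
  le_antisymm (rank_le g f Y fun y hy => (h y hy).2) (rank_le f g Y fun y hy => (h y hy).1)

theorem mk0 (B : Submodule ℂ V) (y : V) : B.mkQ y = 0 ↔ y ∈ B := Submodule.Quotient.mk_eq_zero B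

end RkAux

open RkAux in
theorem p_RK :
    S_RK := by
  intro V _ _
  refine ⟨fun B Y Z h1 h2 => ?_, fun B B' Y Y' h1 h2 => ?_, fun B Y => ⟨?_, ?_, ?_⟩,
    fun B Y Y' => ?_, fun V' _ _ f B' Y => ?_⟩
  · have k : LinearMap.ker (Submodule.factor h1) = Y.map B.mkQ := by
      rw [Submodule.factor, Submodule.ker_mapQ, Submodule.comap_id]
    have e := ((Submodule.factor h1).domRestrict (Z.map B.mkQ)).rank_range_add_rank_ker
    rw [LinearMap.range_domRestrict, ← Submodule.map_comp, Submodule.factor_comp_mk,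
      LinearMap.ker_domRestrict, k,
      (Submodule.comapSubtypeEquivOfLe (Submodule.map_mono h2)).rank_eq, add_comm] at e
    exact e.symm
  · exact (rank_le B'.mkQ B.mkQ Y fun y _ h => (mk0 B y).2 (h1 ((mk0 B' y).1 h))).trans
      (Submodule.rank_mono (Submodule.map_mono h2))
  · rw [rk, Submodule.map_sup, Submodule.mkQ_map_self, sup_bot_eq, rk]
  · exact rank_eq _ _ Y fun y hy => by rw [mk0, mk0]; exact and_iff_left hy
  · rw [rk, Submodule.rank_eq_zero, eq_bot_iff, Submodule.map_le_iff_le_comap, Submodule.comap_bot,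
      Submodule.ker_mkQ]
  · rw [rk, Submodule.map_sup]
    exact Submodule.rank_add_le_rank_add_rank _ _
  · rw [rk, ← Submodule.map_comp]
    exact rank_eq _ _ Y fun y _ => by rw [LinearMap.comp_apply, mk0, mk0]; rfl

end Pool.Agent.P.MP_52ab5a_al
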