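import Pool.Agent.P.MP_52ab5a_al.A.Iface

/-! Step SCHUR of the open orbit project. -/

namespace Pool.Agent.P.MP_52ab5a_al

open MvPolynomial
open WM

namespace SchurAux

variable {V : Type} [AddCommGroup V] [Module ℂ V]

theorem unit (T : Module.End ℂ V) (h : ∀ c : ℂ, IsUnit (T - algebraMap ℂ _ c)) {p : Polynomial ℂ}
    (hp : p ≠ 0) : IsUnit (Polynomial.aeval T p) := by
  have k : ∀ m : Multiset ℂ,
      IsUnit (Polynomial.aeval T (m.map fun a => Polynomial.X - Polynomial.C a).prod) := fun m => by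
    induction m using Multiset.induction_on with
    | empty => simp
    | cons a m ih =>
      rw [Multiset.map_cons, Multiset.prod_cons, map_mul]
      exact IsUnit.mul (by simpa using h a) ih
  rw [(IsAlgClosed.splits p).eq_prod_roots, map_mul, Polynomial.aeval_C]
  exact ((Polynomial.leadingCoeff_ne_zero.2 hp).isUnit.map _).mul (k _)

theorem indep (T : Module.End ℂ V) (h : ∀ c : ℂ, IsUnit (T - algebraMap ℂ _ c)) {v : V} (hv : v ≠ 0)
    {u : ℂ → V} (hu : ∀ c, (T - algebraMap ℂ (Module.End ℂ V) c) (u c) = v) :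
    LinearIndependent ℂ u := by
  classical
  rw [linearIndependent_iff']
  intro s g e i hi
  by_contra hg
  set p : Polynomial ℂ :=
    ∑ c ∈ s, Polynomial.C (g c) * ∏ b ∈ s.erase c, (Polynomial.X - Polynomial.C b) with hp
  have p0 : p ≠ 0 := fun a => by
    have b := congrArg (Polynomial.eval i) a
    rw [hp, Polynomial.eval_finsetSum, Finset.sum_eq_single_of_mem i hi fun c _ hc => by
      rw [Polynomial.eval_mul, Polynomial.eval_prod,
        Finset.prod_eq_zero (Finset.mem_erase.2 ⟨hc.symm, hi⟩) (by simp), mul_zero],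
      Polynomial.eval_mul, Polynomial.eval_C, Polynomial.eval_prod, Polynomial.eval_zero] at b
    refine mul_ne_zero hg (Finset.prod_ne_zero_iff.2 fun c hc => ?_) b
    simpa [sub_eq_zero] using (Finset.mem_erase.1 hc).1.symm
  have e1 : Polynomial.aeval T p v = 0 := by
    rw [← map_zero (Polynomial.aeval T (∏ b ∈ s, (Polynomial.X - Polynomial.C b))), ← e, hp,
      map_sum, map_sum, LinearMap.sum_apply]
    refine Finset.sum_congr rfl fun c hc => ?_
    rw [← Finset.prod_erase_mul s _ hc, map_mul, map_mul, map_smul, Polynomial.aeval_C, ← hu c]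
    simp
  exact hv (((Module.End.isUnit_iff _).1 (unit T h p0)).1 (e1.trans (map_zero _).symm))

end SchurAux

theorem p_SCHUR :
    S_SCHUR := by
  intro ι L hL hH T hT
  by_contra hn
  push Not at hn
  have k : ∀ c : ℂ, IsUnit (T - algebraMap ℂ (Module.End ℂ L.V) c) := fun c => by
    set U := T - algebraMap ℂ (Module.End ℂ L.V) c with hU
    have U0 : U ≠ 0 := fun a => hn c (by
      rw [hU, sub_eq_zero, Algebra.algebraMap_eq_smul_one] at a; exact a)
    have cm : ∀ A : Module.End ℂ L.V, T * A = A * T → ∀ v, U (A v) = A (U v) := fun A a v => by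
      have := LinearMap.congr_fun a v
      simp only [Module.End.mul_apply] at this
      simp [hU, this]
    rw [Module.End.isUnit_iff]
    refine ⟨LinearMap.ker_eq_bot.1 ((hL.2.2 _ fun s v hv => ?_).resolve_right
      fun a => U0 (LinearMap.ker_eq_top.1 a)), LinearMap.range_eq_top.1
        ((hL.2.2 _ ?_).resolve_left fun a => U0 (LinearMap.range_eq_bot.1 a))⟩
    · rw [LinearMap.mem_ker] at hv
      simp [cm _ (hT s).1, cm _ (hT s).2, hv]
    · rintro s _ ⟨v, rfl⟩
      exact ⟨⟨_, cm _ (hT s).1 v⟩, _, cm _ (hT s).2 v⟩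
  have := hL.2.1
  obtain ⟨v, hv⟩ := exists_ne (0 : L.V)
  choose u hu using fun c => ((Module.End.isUnit_iff _).1 (k c)).2 v
  have li := (SchurAux.indep T k hv hu).map' (⊥ : Submodule ℂ L.V).mkQ (Submodule.ker_mkQ _)
  obtain ⟨-, -, -, -, Γ, c, -, -, -, h1, h2⟩ := hH
  have fin : ∀ j, {a | u a ∈ Γ j}.Finite := fun j => by
    have l2 : LinearIndependent ℂ fun a : {a | u a ∈ Γ j} =>
        (⟨_, Submodule.mem_map_of_mem a.2⟩ : (Γ j).map (⊥ : Submodule ℂ L.V).mkQ) :=
      LinearIndependent.of_comp (Submodule.subtype _) (li.comp _ Subtype.val_injective)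
    exact Cardinal.lt_aleph0_iff_set_finite.1
      ((l2.cardinal_le_rank.trans (h2 j)).trans_lt Cardinal.natCast_lt_aleph0)
  refine not_countable_complex ((Set.countable_iUnion fun j => (fin j).countable).mono ?_)
  exact fun a _ => Set.mem_iUnion.2 (h1 _ trivial)

end Pool.Agent.P.MP_52ab5a_al
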